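import Pool.Agent.Y731.FG.All

/-!
# Truncated Vojta inequality for algebraic points over function fields
-/

set_option autoImplicit false
set_option linter.unusedSectionVars false
set_option linter.unusedVariables false

namespace Pool.Agent.Y731.FG

open FF Filter MvPolynomial Pool.Agent.W603.LV Pool.Agent.W603.PV Pool.Agent.W603.CZ
open scoped Classical

/-- an ultrafilter of pairs of a form and a number -/
theorem exists_uf {R : Type} [CommRing R] [IsDomain R] (S : Set R) (h1 : ∀ a ∈ S, a ≠ 0)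
    (h2 : ∀ a ∈ S, ∀ b ∈ S, a * b ∈ S) (h3 : S.Nonempty) :
    ∃ 𝒰 : Ultrafilter (S × ℕ), ∀ a ∈ S, ∀ C : ℕ,
      ∀ᶠ i in (𝒰 : Filter (S × ℕ)), a ∣ (i.1 : R) ∧ C ≤ i.2 := by
  obtain ⟨a0, ha0⟩ := h3
  have : Nonempty (S × ℕ) := ⟨⟨⟨a0, ha0⟩, 0⟩⟩
  let f : Filter (S × ℕ) := ⨅ i0 : S × ℕ, 𝓟 {i | (i0.1 : R) ∣ (i.1 : R) ∧ i0.2 ≤ i.2}
  have hne : f.NeBot := by
    refine Filter.iInf_neBot_of_directed' ?_ ?_
    · rintro ⟨⟨a, ha⟩, C⟩ ⟨⟨b, hb⟩, D⟩
      refine ⟨⟨⟨a * b, h2 a ha b hb⟩, max C D⟩, ?_, ?_⟩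
      · refine Filter.principal_mono.2 ?_
        rintro i ⟨h4, h5⟩
        exact ⟨(dvd_mul_right a b).trans h4, (le_max_left _ _).trans h5⟩
      · refine Filter.principal_mono.2 ?_
        rintro i ⟨h4, h5⟩
        exact ⟨(dvd_mul_left b a).trans h4, (le_max_right _ _).trans h5⟩
    · intro i0
      exact Filter.principal_neBot_iff.2 ⟨i0, dvd_rfl, le_rfl⟩
  refine ⟨Ultrafilter.of f, fun a ha C => ?_⟩
  have h4 : {i : S × ℕ | a ∣ (i.1 : R) ∧ C ≤ i.2} ∈ f :=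
    Filter.mem_iInf_of_mem (⟨⟨a, ha⟩, C⟩ : S × ℕ) (Filter.mem_principal_self _)
  exact Ultrafilter.of_le f h4

theorem disc_nonneg {k F L : Type} [Field k] [IsAlgClosed k] [CharZero k] [Field F] [Algebra k F]
    [IsFF k F] [Field L] [Algebra k L] [Algebra F L] [IsScalarTower k F L] [IsFF k L] :
    0 ≤ disc k F L := by
  unfold disc
  refine finsum_nonneg fun P => ?_
  have := (ram_spec (F := F) P).1
  omega

/-- **The truncated inequality.** -/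
theorem fgMain {k F : Type} [Field k] [IsAlgClosed k] [CharZero k] [Field F] [Algebra k F]
    [IsFF k F] {N s g q w : ℕ} (m : ℕ) (G : Fin g → MvPolynomial (Fin (N + 1 + s)) F)
    (eG : Fin g → ℕ) (hG : ∀ j, (G j).IsHomogeneous (eG j))
    (Fd : Fin q → Fin w → MvPolynomial (Fin (N + 1 + s)) F) (d : Fin q → Fin w → ℕ)
    (hF : ∀ i j, (Fd i j).IsHomogeneous (d i j)) (hNC : SNCF G Fd s)
    (J0 : Fin (N + 1) → Fin (N + 1 + s)) (ε : ℝ) (hε : 0 < ε) :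
    ∃ (Φ : MvPolynomial (Fin (N + 1)) F) (C : ℕ), (∃ n, Φ.IsHomogeneous n) ∧ Φ ≠ 0 ∧
      ∀ (L : Type) [Field L] [Algebra k L] [Algebra F L] [IsScalarTower k F L]
        [FiniteDimensional F L] (x : Fin (N + 1 + s) → L) (wt : Fin (N + 1 + s) → Fin m → L)
        (A : Matrix (Fin (N + 1 + s)) (Fin (N + 1)) L), (∀ j, aeval x (G j) = 0) →
        (∀ i, ∃ j, aeval x (Fd i j) ≠ 0) → (∀ c, x c = ∑ j, wt c j) →
        aeval (fun ρ => x (J0 ρ)) Φ ≠ 0 →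
        LinearIndependent L (fun ρ : Fin (N + 1) => fun c : Fin (N + 1 + s) => A c ρ) →
        (∀ j ρ, ∑ c, aeval x (pderiv c (G j)) * A c ρ = 0) →
        ((hgtP k (fun J : Fin (N + 1) → Fin (N + 1 + s) => (A.submatrix J id).det) -
          (N + 1) * hgtP k x + ∑ i, ∑ᶠ P : Place k L, locH (Fd i) (d i) P x : ℤ) : ℝ) ≤
          ({P : Place k L | ∃ i, 0 < locH (Fd i) (d i) P x}.ncard : ℝ) + ε * hgtP k x +
            C * (Module.finrank F L + disc k F L + (uneq k wt).ncard) := by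
  by_contra hcon
  have hF0 : CharZero F := charZero_of_injective_algebraMap (algebraMap k F).injective
  let S : Set (MvPolynomial (Fin (N + 1)) F) := {Φ | (∃ n, Φ.IsHomogeneous n) ∧ Φ ≠ 0}
  obtain ⟨𝒰, h𝒰⟩ := exists_uf S (fun a ha => ha.2) (fun a ha b hb => by
    obtain ⟨⟨n, hn⟩, ha0⟩ := ha
    obtain ⟨⟨n', hn'⟩, hb0⟩ := hb
    exact ⟨⟨_, hn.mul hn'⟩, mul_ne_zero ha0 hb0⟩) ⟨1, ⟨0, isHomogeneous_one _ _⟩, one_ne_zero⟩
  have hex : ∀ i : S × ℕ, ∃ (L : Type) (_ : Field L) (_ : Algebra k L) (_ : Algebra F L)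
      (_ : IsScalarTower k F L) (_ : FiniteDimensional F L) (x : Fin (N + 1 + s) → L)
      (wt : Fin (N + 1 + s) → Fin m → L) (A : Matrix (Fin (N + 1 + s)) (Fin (N + 1)) L),
      (∀ j, aeval x (G j) = 0) ∧ (∀ i, ∃ j, aeval x (Fd i j) ≠ 0) ∧ (∀ c, x c = ∑ j, wt c j) ∧
        aeval (fun ρ => x (J0 ρ)) (i.1 : MvPolynomial (Fin (N + 1)) F) ≠ 0 ∧
        LinearIndependent L (fun ρ : Fin (N + 1) => fun c : Fin (N + 1 + s) => A c ρ) ∧
        (∀ j ρ, ∑ c, aeval x (pderiv c (G j)) * A c ρ = 0) ∧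
        ¬ ((hgtP k (fun J : Fin (N + 1) → Fin (N + 1 + s) => (A.submatrix J id).det) -
          (N + 1) * hgtP k x + ∑ i, ∑ᶠ P : Place k L, locH (Fd i) (d i) P x : ℤ) : ℝ) ≤
          ({P : Place k L | ∃ i, 0 < locH (Fd i) (d i) P x}.ncard : ℝ) + ε * hgtP k x +
            i.2 * (Module.finrank F L + disc k F L + (uneq k wt).ncard) := by
    rintro ⟨⟨Φ, hΦ⟩, C⟩
    by_contra hno
    apply hcon
    refine ⟨Φ, C, hΦ.1, hΦ.2, ?_⟩
    intro L _ _ _ _ _ x wt A h1 h2 h3 h4 h5 h6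
    by_contra h7
    exact hno ⟨L, _, _, _, inferInstance, inferInstance, x, wt, A, h1, h2, h3, h4, h5, h6, h7⟩
  choose L iF ikL iFL iT iD x wt A h1 h2 h3 h4 h5 h6 h7 using hex
  have iFF : ∀ i, IsFF k (L i) := fun i => isFF_of_finite (F := F)
  have iA : ∀ i, Algebra.IsAlgebraic F (L i) := fun i => inferInstance
  set χ : S × ℕ → ℤ := fun i => (Module.finrank F (L i) : ℤ) + disc k F (L i) +
    ((uneq k (wt i)).ncard : ℤ) with hχ
  obtain ⟨Δ, hΔ⟩ := allDT (𝒰 := 𝒰) (k := k) (F := F) (L := L) χ (fun i => by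
    rw [hχ]
    simp only
    linarith [Int.natCast_nonneg (uneq k (wt i)).ncard])
  obtain ⟨C, hC⟩ := ultra Δ (allLOC Δ) (allRP Δ) (allHT Δ) allSD G eG Fd d hG hF hNC J0 x wt A h1 h2
    h3 h5 h6 (by
      intro Φ n hn hΦ
      filter_upwards [h𝒰 Φ ⟨⟨n, hn⟩, hΦ⟩ 0] with i hi h0
      apply h4 i
      obtain ⟨Ψ, hΨ⟩ := hi.1
      rw [hΨ, map_mul, h0, zero_mul]) 1 (by
      refine Eventually.of_forall fun i => ?_
      rw [hΔ, hχ]
      simp only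
      have := disc_nonneg (k := k) (F := F) (L := L i)
      have := Int.natCast_nonneg (Module.finrank F (L i))
      push_cast
      linarith) ε hε
  obtain ⟨C0, hC0⟩ := exists_nat_ge C
  obtain ⟨i, hi1, hi2⟩ := (hC.and (h𝒰 1 ⟨⟨0, isHomogeneous_one _ _⟩, one_ne_zero⟩ C0)).exists
  apply h7 i
  refine hi1.trans ?_
  have g1 : (0 : ℝ) ≤ Δ.χ i := by
    exact_mod_cast Δ.hE.1 i
  have g2 : (C : ℝ) ≤ i.2 := hC0.trans (by exact_mod_cast hi2.2)
  have g3 : (Δ.χ i : ℝ) = Module.finrank F (L i) + disc k F (L i) + (uneq k (wt i)).ncard := by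
    rw [hΔ, hχ]
    push_cast
    rfl
  rw [← g3]
  have := mul_le_mul_of_nonneg_right g2 g1
  linarith

end Pool.Agent.Y731.FG
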