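import Pool.Agent.Y731.FG.Loc6

/-!
# Local inequalities: all places
-/

set_option autoImplicit false
set_option linter.unusedSectionVars false
set_option linter.unusedVariables false
set_option synthInstance.maxHeartbeats 400000
set_option maxHeartbeats 4000000

namespace Pool.Agent.Y731.FG

open FF Filter MvPolynomial Pool.Agent.W603.LV Pool.Agent.W603.PV Pool.Agent.W603.CZ
open scoped Classical

variable {I : Type} {𝒰 : Ultrafilter I} {k F : Type} [Field k] [IsAlgClosed k] [CharZero k]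
  [Field F] {L : I → Type} [∀ i, Field (L i)] [∀ i, Algebra k (L i)] [∀ i, Algebra F (L i)]
  [∀ i, IsFF k (L i)]

/-- common multiplicities -/
theorem exists_mult {E : Type} [Field E] {t w : ℕ} {p : MvPolynomial (Fin t) E}
    (hp : Irreducible p) (Y : Fin w → MvPolynomial (Fin t) E) (hY : ∃ j, Y j ≠ 0) :
    ∃ (μ : ℕ) (gg : Fin w → MvPolynomial (Fin t) E) (j : Fin w),
      (∀ j, Y j = p ^ μ * gg j) ∧ ¬ p ∣ gg j := by
  obtain ⟨j0, hj0⟩ := hY
  have hfin : FiniteMultiplicity p (Y j0) :=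
    FiniteMultiplicity.of_not_isUnit hp.not_isUnit hj0
  have hex : ∃ n, ¬ ∀ j, p ^ n ∣ Y j := by
    obtain ⟨n, hn⟩ := hfin
    exact ⟨n + 1, fun h => hn (h j0)⟩
  set n := Nat.find hex with hn
  have h1 : ¬ ∀ j, p ^ n ∣ Y j := Nat.find_spec hex
  have hn0 : n ≠ 0 := by
    intro h0
    rw [h0] at h1
    exact h1 fun j => by rw [pow_zero]; exact one_dvd _
  obtain ⟨μ, hμ⟩ : ∃ μ, n = μ + 1 := ⟨n - 1, by omega⟩
  have h2 : ∀ j, p ^ μ ∣ Y j := by
    have := Nat.find_min hex (m := μ) (by omega)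
    push Not at this
    exact this
  choose gg hgg using h2
  push Not at h1
  obtain ⟨j, hj⟩ := h1
  refine ⟨μ, gg, j, hgg, ?_⟩
  rintro ⟨r, hr⟩
  apply hj
  rw [hμ, hgg j, hr, pow_succ]
  exact ⟨r, by ring⟩

namespace Cx

variable {Δ : Dt 𝒰 k F L} {t N s g q w : ℕ} (X : Cx Δ t N s g q w)

theorem locJ (hLOW : S_LOW Δ) (hC : S_C Δ) (hB : S_B Δ) (hP0 : S_P0 Δ) (hABS : S_ABS)
    (J : Fin (N + 1) → Fin (N + 1 + s)) (hJ : Function.Injective J) (hτ : X.tau J ≠ 0) :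
    ∃ e, Ng 𝒰 Δ.χ (Hu k X.u) e ∧ ∀ᶠ ω in EV 𝒰 k L, X.Ineq J (e ω) ω := by
  have hH : ∀ᶠ i in (𝒰 : Filter I), 0 ≤ Hu k X.u i := Eventually.of_forall fun i => Hu_nonneg _ i
  have hng0 : Ng 𝒰 Δ.χ (Hu k X.u) (fun _ : Om k L => 0) := Ng.zero Δ.nonneg hH
  have hx : ∃ c, X.x c ≠ 0 := by
    obtain ⟨c, hc⟩ := X.hy
    exact ⟨c, X.ne hc⟩
  -- the places where some `u j` is not a unit
  have hT : ∀ (cj : Fin (N + 1 + s) × (Fin q → Fin w)), ∃ e, Ng 𝒰 Δ.χ (Hu k X.u) e ∧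
      ∀ᶠ ω in EV 𝒰 k L, X.x cj.1 ≠ 0 → (∀ i, aeval X.u (X.Y i (cj.2 i)) ≠ 0) → ω ∈ Tu X.u →
        oo (X.x cj.1) ω = mo X.x ω →
        (∀ i, oo (aeval X.u (X.Y i (cj.2 i))) ω - X.d i (cj.2 i) * mo X.x ω = X.lm i ω) →
          X.Ineq J (e ω) ω := by
    rintro ⟨c, jj⟩
    by_cases h : X.x c ≠ 0 ∧ ∀ i, aeval X.u (X.Y i (jj i)) ≠ 0
    · obtain ⟨e, he, h1⟩ := X.finT hLOW hC hABS h.1 h.2 J hJ hτ
      exact ⟨e, he, h1.mono fun ω h2 _ _ => h2⟩
    · exact ⟨_, hng0, Eventually.of_forall fun ω h1 h2 => absurd ⟨h1, h2⟩ h⟩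
  choose eT heT hT using hT
  -- the irreducible factors
  have hf : ∀ f : MvPolynomial (Fin t) Δ.E, ∃ Ps : Finset (MvPolynomial (Fin t) Δ.E),
      (∀ p ∈ Ps, Irreducible p) ∧ ∃ e, Bd 𝒰 Δ.χ e ∧ (f ≠ 0 → ∀ᶠ ω in EV 𝒰 k L, ω ∉ Tu X.u →
        (∀ p ∈ Ps, oo (aeval X.u p) ω < 1) → oo (aeval X.u f) ω ≤ e ω) := by
    intro f
    by_cases h : f = 0
    · exact ⟨∅, by simp, _, Bd.zero Δ.nonneg, fun h' => absurd h h'⟩
    · obtain ⟨Ps, h1, e, he, h2⟩ := hP0 t X.u X.hU f h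
      exact ⟨Ps, fun p hp => (h1 p hp).1, e, he, fun _ => h2⟩
  choose Pf hPf ef hef hf using hf
  choose j0 hj0 using X.offD'
  set Ps : Finset (MvPolynomial (Fin t) Δ.E) :=
    (Finset.univ.biUnion fun c => Pf (X.y c)) ∪ (Finset.univ.biUnion fun i => Pf (X.Y i (j0 i)))
    with hPs
  have hirr : ∀ p ∈ Ps, Irreducible p := by
    intro p hp
    rw [hPs, Finset.mem_union, Finset.mem_biUnion, Finset.mem_biUnion] at hp
    rcases hp with ⟨c, _, h⟩ | ⟨i, _, h⟩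
    · exact hPf _ p h
    · exact hPf _ p h
  -- no zeros
  have h0 : ∀ c : Fin (N + 1 + s), ∃ e, Ng 𝒰 Δ.χ (Hu k X.u) e ∧
      ∀ᶠ ω in EV 𝒰 k L, X.x c ≠ 0 → ω ∉ Tu X.u → oo (X.x c) ω = mo X.x ω →
        (∀ p ∈ Ps, oo (aeval X.u p) ω < 1) → X.Ineq J (e ω) ω := by
    intro c
    by_cases hc : X.x c = 0
    · exact ⟨_, hng0, Eventually.of_forall fun ω h => absurd hc h⟩
    · have hyc : X.y c ≠ 0 := by
        intro h
        apply hc
        unfold x
        rw [h, map_zero]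
      have hYi : ∀ i, X.Y i (j0 i) ≠ 0 := by
        intro i h
        apply hj0 i
        rw [h, map_zero]
      obtain ⟨e, he, h1⟩ := X.fin0 hLOW hABS hc (fun ω => ∀ p ∈ Ps, oo (aeval X.u p) ω < 1)
        ((hef (X.y c)).ng hH) (by
          filter_upwards [hf (X.y c) hyc] with ω h1 h2 _ h3
          refine h1 h2 fun p hp => h3 p ?_
          rw [hPs, Finset.mem_union, Finset.mem_biUnion]
          exact Or.inl ⟨c, Finset.mem_univ _, hp⟩) j0 hj0
        (e2 := fun i => ef (X.Y i (j0 i))) (fun i => (hef _).ng hH) (by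
          intro i
          filter_upwards [hf (X.Y i (j0 i)) (hYi i)] with ω h1 h2 _ h3
          refine h1 h2 fun p hp => h3 p ?_
          rw [hPs, Finset.mem_union, Finset.mem_biUnion, Finset.mem_biUnion]
          exact Or.inr ⟨i, Finset.mem_univ _, hp⟩) J hJ hτ
      exact ⟨e, he, h1.mono fun ω h2 _ => h2⟩
  choose e0 he0 h0 using h0
  -- the zeros of `p`
  have hP : ∀ (cp : Fin (N + 1 + s) × Ps), ∃ e, Ng 𝒰 Δ.χ (Hu k X.u) e ∧
      ∀ᶠ ω in EV 𝒰 k L, X.x cp.1 ≠ 0 → ω ∉ Tu X.u → oo (X.x cp.1) ω = mo X.x ω →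
        1 ≤ oo (aeval X.u cp.2.1) ω → X.Ineq J (e ω) ω := by
    rintro ⟨c, ⟨p, hp⟩⟩
    have hpi := hirr p hp
    by_cases hc : X.x c = 0
    · exact ⟨_, hng0, Eventually.of_forall fun ω h => absurd hc h⟩
    · obtain ⟨hB1, hB2⟩ := hB t X.u X.hU p hpi
      have hinvf : ∀ f : MvPolynomial (Fin t) Δ.E, ¬ p ∣ f →
          ∃ e, Ng 𝒰 Δ.χ (Hu k X.u) e ∧ ∀ᶠ ω in EV 𝒰 k L, ω ∉ Tu X.u →
            1 ≤ oo (aeval X.u p) ω → oo (aeval X.u f) ω ≤ e ω := by
        intro f hf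
        refine ⟨_, hB2 f (fun h => hf (h ▸ dvd_zero p)) hf, Eventually.of_forall fun ω h1 h2 => ?_⟩
        rw [if_neg]
        rintro (h | h)
        · exact h1 h
        · omega
      obtain ⟨c', hc'⟩ := X.cop p hpi
      obtain ⟨e1, he1, h1⟩ := hinvf _ hc'
      have hxc' : X.x c' ≠ 0 := X.ne fun h => hc' (h ▸ dvd_zero p)
      have hQe : ∀ᶠ ω in EV 𝒰 k L, ω ∉ Tu X.u → oo (X.x c) ω = mo X.x ω →
          1 ≤ oo (aeval X.u p) ω → oo (X.x c) ω ≤ e1 ω := by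
        filter_upwards [h1] with ω h2 h3 h4 h5
        rw [h4]
        exact (mo_le X.x hxc' ω).trans (h2 h3 h5)
      choose μ gg jj hgg hjj using fun i => exists_mult hpi (X.Y i) (by
        obtain ⟨j, hj⟩ := X.offD' i
        exact ⟨j, fun h => hj (by rw [h, map_zero])⟩)
      by_cases hμ : ∃ i0, 1 ≤ μ i0
      · obtain ⟨i0, hi0⟩ := hμ
        obtain ⟨e, he, h2⟩ := X.finP hLOW hABS hc hpi.ne_zero he1 hQe hB1 (by
          refine Eventually.of_forall fun ω h3 => ?_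
          rw [if_neg h3]) hinvf hgg jj hjj i0 hi0 J hJ hτ
        exact ⟨e, he, h2.mono fun ω h3 _ => h3⟩
      · push Not at hμ
        have hμ0 : ∀ i, μ i = 0 := fun i => by
          have := hμ i
          omega
        have hYg : ∀ i j, X.Y i j = gg i j := by
          intro i j
          rw [hgg i j, hμ0 i, pow_zero, one_mul]
        choose e2 he2 h2 using fun i => hinvf _ (hjj i)
        obtain ⟨e, he, h3⟩ := X.fin0 hLOW hABS hc (fun ω => 1 ≤ oo (aeval X.u p) ω) he1 hQe jj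
          (fun i => by
            rw [hYg]
            exact X.ne fun h => hjj i (h ▸ dvd_zero p)) he2 (by
            intro i
            filter_upwards [h2 i] with ω h4 h5 _ h6
            rw [hYg]
            exact h4 h5 h6) J hJ hτ
        exact ⟨e, he, h3.mono fun ω h4 _ => h4⟩
  choose eP heP hP using hP
  refine ⟨fun ω => (∑ x, max (eT x ω) 0) + ((∑ x, max (e0 x ω) 0) + (∑ x, max (eP x ω) 0)),
    (Ng.sum Δ.nonneg hH _ fun x _ => (heT x).pos).add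
      ((Ng.sum Δ.nonneg hH _ fun x _ => (he0 x).pos).add
        (Ng.sum Δ.nonneg hH _ fun x _ => (heP x).pos)), ?_⟩
  filter_upwards [eventually_all.2 hT, eventually_all.2 h0, eventually_all.2 hP] with ω a1 a2 a3
  have b1 : 0 ≤ ∑ x, max (eT x ω) 0 := Finset.sum_nonneg fun x _ => le_max_right _ _
  have b2 : 0 ≤ ∑ x, max (e0 x ω) 0 := Finset.sum_nonneg fun x _ => le_max_right _ _
  have b3 : 0 ≤ ∑ x, max (eP x ω) 0 := Finset.sum_nonneg fun x _ => le_max_right _ _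
  obtain ⟨c, hc, hcm⟩ := exists_mo X.x hx ω
  by_cases hω : ω ∈ Tu X.u
  · choose jj hjj hjl using fun i => X.exists_lm i ω
    refine Ineq.mono X (a1 (c, jj) hc hjj hω hcm hjl) ?_
    have := Finset.single_le_sum (f := fun x => max (eT x ω) 0) (fun x _ => le_max_right _ _)
      (Finset.mem_univ (c, jj))
    have h4 := le_max_left (eT (c, jj) ω) 0
    linarith
  · by_cases hz : ∀ p ∈ Ps, oo (aeval X.u p) ω < 1
    · refine Ineq.mono X (a2 c hc hω hcm hz) ?_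
      have := Finset.single_le_sum (f := fun x => max (e0 x ω) 0) (fun x _ => le_max_right _ _)
        (Finset.mem_univ c)
      have h4 := le_max_left (e0 c ω) 0
      linarith
    · push Not at hz
      obtain ⟨p, hp, hpz⟩ := hz
      refine Ineq.mono X (a3 (c, ⟨p, hp⟩) hc hω hcm hpz) ?_
      have := Finset.single_le_sum (f := fun x => max (eP x ω) 0) (fun x _ => le_max_right _ _)
        (Finset.mem_univ (c, ⟨p, hp⟩))
      have h4 := le_max_left (eP (c, ⟨p, hp⟩) ω) 0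
      linarith

end Cx

/-- **The inequality at all places.** -/
theorem loc (Δ : Dt 𝒰 k F L) (hLOW : S_LOW Δ) (hC : S_C Δ) (hB : S_B Δ) (hP0 : S_P0 Δ)
    (hABS : S_ABS) : S_LOC Δ := by
  intro t u hU N s g q w G eG Fd d hG hF hNC y hy cop onX offD δ hδ
  let X : Cx Δ t N s g q w := ⟨u, hU, G, eG, Fd, d, hG, hF, hNC, y, hy, cop, onX, offD, δ, hδ⟩
  have hH : ∀ᶠ i in (𝒰 : Filter I), 0 ≤ Hu k X.u i := Eventually.of_forall fun i => Hu_nonneg _ i
  have h1 : ∀ J : Fin (N + 1) → Fin (N + 1 + s), ∃ e, Ng 𝒰 Δ.χ (Hu k X.u) e ∧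
      ∀ᶠ ω in EV 𝒰 k L, Function.Injective J → X.tau J ≠ 0 → X.Ineq J (e ω) ω := by
    intro J
    by_cases h : Function.Injective J ∧ X.tau J ≠ 0
    · obtain ⟨e, he, h1⟩ := X.locJ hLOW hC hB hP0 hABS J h.1 h.2
      exact ⟨e, he, h1.mono fun ω h2 _ _ => h2⟩
    · exact ⟨_, Ng.zero Δ.nonneg hH, Eventually.of_forall fun ω h2 h3 => absurd ⟨h2, h3⟩ h⟩
  choose e he h1 using h1
  refine ⟨fun ω => ∑ J, max (e J ω) 0, Ng.sum Δ.nonneg hH _ fun J _ => (he J).pos, ?_⟩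
  filter_upwards [eventually_all.2 h1] with ω h2 J hJ hτ
  have h3 := Cx.Ineq.mono X (h2 J hJ hτ) (e' := ∑ J, max (e J ω) 0) (by
    have := Finset.single_le_sum (f := fun J => max (e J ω) 0) (fun x _ => le_max_right _ _)
      (Finset.mem_univ J)
    have h4 := le_max_left (e J ω) 0
    linarith)
  exact h3

end Pool.Agent.Y731.FG
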