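import Pool.Agent.Y731.FG.Fin4
import Pool.Agent.Y731.FG.Loc7
import Pool.Agent.Y141.FG.Low
import Pool.Agent.Y852.FG.Wr
import Pool.Agent.Y563.FG.Le
import Pool.Agent.Y884.FG.Gcd
import Pool.Agent.Y960.FG.Irr
import Pool.Agent.Y960.FG.Rp
import Pool.Agent.Y664.FG.Mb
import Pool.Agent.Y430.FG.Ht
import Pool.Agent.Y76.FG.Sd
import Pool.Agent.Y785.FG.Abs
import Pool.Agent.Y73.FG.Dt

/-!
# All parts
-/

set_option autoImplicit false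
set_option linter.unusedSectionVars false
set_option linter.unusedVariables false

namespace Pool.Agent.Y731.FG

open FF Filter MvPolynomial Pool.Agent.W603.LV Pool.Agent.W603.PV Pool.Agent.W603.CZ
open scoped Classical

section many

variable {I : Type} {𝒰 : Ultrafilter I} {k F : Type} [Field k] [IsAlgClosed k] [CharZero k]
  [Field F] {L : I → Type} [∀ i, Field (L i)] [∀ i, Algebra k (L i)] [∀ i, Algebra F (L i)]
  [∀ i, IsFF k (L i)]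

theorem allLE (Δ : Dt 𝒰 k F L) : S_LE Δ :=
  Pool.Agent.Y563.FG.le Δ (Pool.Agent.Y141.FG.low Δ) (Pool.Agent.Y141.FG.ld Δ)
    (Pool.Agent.Y141.FG.hd Δ) (Pool.Agent.Y852.FG.wrS Δ)

theorem allC (Δ : Dt 𝒰 k F L) : S_C Δ :=
  Pool.Agent.Y563.FG.noc Δ (Pool.Agent.Y141.FG.low Δ) (Pool.Agent.Y141.FG.ld Δ)
    (Pool.Agent.Y141.FG.hd Δ) (Pool.Agent.Y852.FG.wrS Δ)

theorem allG (Δ : Dt 𝒰 k F L) : S_G Δ :=
  Pool.Agent.Y884.FG.gcd Δ (Pool.Agent.Y141.FG.low Δ) (Pool.Agent.Y852.FG.wrS Δ) (allLE Δ) (allC Δ)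

theorem allB (Δ : Dt 𝒰 k F L) : S_B Δ :=
  Pool.Agent.Y960.FG.bS Δ (Pool.Agent.Y141.FG.low Δ) (Pool.Agent.Y141.FG.hd Δ) (allG Δ)

theorem allP0 (Δ : Dt 𝒰 k F L) : S_P0 Δ := Pool.Agent.Y960.FG.p0 Δ

theorem allCP (Δ : Dt 𝒰 k F L) : S_CP Δ := Pool.Agent.Y960.FG.cp Δ (allB Δ) (allP0 Δ)

theorem allRP (Δ : Dt 𝒰 k F L) : S_RP Δ := Pool.Agent.Y960.FG.rp Δ (Pool.Agent.Y664.FG.mb Δ)

theorem allHT (Δ : Dt 𝒰 k F L) : S_HT Δ :=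
  Pool.Agent.Y430.FG.htS Δ (Pool.Agent.Y141.FG.low Δ) (allC Δ) (allCP Δ)

theorem allLOC (Δ : Dt 𝒰 k F L) : S_LOC Δ :=
  loc Δ (Pool.Agent.Y141.FG.low Δ) (allC Δ) (allB Δ) (allP0 Δ) Pool.Agent.Y785.FG.abs

end many

theorem allSD : S_SD := Pool.Agent.Y76.FG.sd

theorem allDT : S_DT := Pool.Agent.Y73.FG.dt

end Pool.Agent.Y731.FG
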