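import Pool.Agent.W603.CZ.Blocks
import Pool.Agent.W603.PV.Disc

/-!
# Ultraproducts of function fields: orders at all places at once
-/

set_option autoImplicit false
set_option linter.unusedSectionVars false
set_option linter.unusedVariables false

namespace Pool.Agent.Y731.FG

open FF Filter Pool.Agent.W603.LV Pool.Agent.W603.PV Pool.Agent.W603.CZ

variable {I : Type} {𝒰 : Ultrafilter I} {k F : Type} [Field k] [IsAlgClosed k] [CharZero k]
  [Field F] {L : I → Type} [∀ i, Field (L i)] [∀ i, Algebra k (L i)] [∀ i, Algebra F (L i)]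
  [∀ i, IsFF k (L i)]

section defs

omit [IsAlgClosed k] [CharZero k] [∀ i, IsFF k (L i)] [∀ i, Algebra F (L i)]

/-- a family which represents `x` -/
noncomputable def rep (x : UL 𝒰 L) : ∀ i, L i := (um_surj 𝒰 x).choose

theorem um_rep (x : UL 𝒰 L) : um 𝒰 (rep x) = x := (um_surj 𝒰 x).choose_spec

theorem rep_um (z : ∀ i, L i) : ∀ᶠ i in (𝒰 : Filter I), rep (um 𝒰 z) i = z i :=
  um_eq.1 (um_rep (um 𝒰 z))

variable (k L) in
/-- the places of all fields `L i` -/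
abbrev Om : Type := Σ i, Place k (L i)

/-- the order of `x` at a place -/
noncomputable def oo (x : UL 𝒰 L) (ω : Om k L) : ℤ := ω.2.ord (rep x ω.1)

variable (𝒰 k L) in
/-- a property of places holds eventually if it holds at all places of almost all fields -/
def EV : Filter (Om k L) := Filter.comap Sigma.fst (𝒰 : Filter I)

theorem ev_iff {p : Om k L → Prop} :
    (∀ᶠ ω in EV 𝒰 k L, p ω) ↔ ∀ᶠ i in (𝒰 : Filter I), ∀ P : Place k (L i), p ⟨i, P⟩ := by
  unfold EV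
  rw [eventually_comap]
  constructor
  · intro h
    filter_upwards [h] with i hi P
    exact hi ⟨i, P⟩ rfl
  · intro h
    filter_upwards [h] with i hi
    rintro ⟨j, P⟩ rfl
    exact hi P

variable (𝒰) in
/-- The sum of `e` over any set of places of `L i` is `O(χ i)`. -/
def Bd (χ : I → ℤ) (e : Om k L → ℤ) : Prop :=
  ∃ B : ℕ, ∀ᶠ i in (𝒰 : Filter I), ∀ T : Finset (Place k (L i)), ∑ P ∈ T, e ⟨i, P⟩ ≤ B * χ i

variable (𝒰) in
/-- The sum of `e` over any set of places of `L i` is at most `ε * H i + O(χ i)`, for every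
`ε > 0`. -/
def Ng (χ H : I → ℤ) (e : Om k L → ℤ) : Prop :=
  ∀ ε : ℝ, 0 < ε → ∃ B : ℝ, ∀ᶠ i in (𝒰 : Filter I), ∀ T : Finset (Place k (L i)),
    ((∑ P ∈ T, e ⟨i, P⟩ : ℤ) : ℝ) ≤ ε * H i + B * χ i

end defs

section ords

omit [IsAlgClosed k] [CharZero k] [∀ i, IsFF k (L i)] [∀ i, Algebra F (L i)]

theorem rep_ne {x : UL 𝒰 L} (hx : x ≠ 0) : ∀ᶠ i in (𝒰 : Filter I), rep x i ≠ 0 :=
  um_ne_iff.1 (by rw [um_rep]; exact hx)

theorem rep_zero : ∀ᶠ i in (𝒰 : Filter I), rep (0 : UL 𝒰 L) i = 0 :=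
  um_zero_iff.1 (um_rep 0)

theorem rep_one : ∀ᶠ i in (𝒰 : Filter I), rep (1 : UL 𝒰 L) i = 1 :=
  um_eq.1 (by rw [um_rep]; rfl)

theorem rep_add (x y : UL 𝒰 L) : ∀ᶠ i in (𝒰 : Filter I), rep (x + y) i = rep x i + rep y i :=
  um_eq.1 (by rw [um_rep, um_add, um_rep, um_rep])

theorem rep_neg (x : UL 𝒰 L) : ∀ᶠ i in (𝒰 : Filter I), rep (-x) i = -rep x i :=
  um_eq.1 (by rw [um_rep, um_neg, um_rep])

theorem rep_mul (x y : UL 𝒰 L) : ∀ᶠ i in (𝒰 : Filter I), rep (x * y) i = rep x i * rep y i :=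
  um_eq.1 (by rw [um_rep, um_mul, um_rep, um_rep])

theorem rep_inv (x : UL 𝒰 L) : ∀ᶠ i in (𝒰 : Filter I), rep x⁻¹ i = (rep x i)⁻¹ :=
  um_eq.1 (by rw [um_rep, um_inv, um_rep])

/-- orders of a family -/
theorem oo_um (z : ∀ i, L i) : ∀ᶠ ω in EV 𝒰 k L, oo (um 𝒰 z) ω = ω.2.ord (z ω.1) := by
  rw [ev_iff]
  filter_upwards [rep_um z] with i hi P
  unfold oo
  rw [hi]

theorem oo_zero : ∀ᶠ ω in EV 𝒰 k L, oo (0 : UL 𝒰 L) ω = 0 := by
  rw [ev_iff]
  filter_upwards [rep_zero (𝒰 := 𝒰) (L := L)] with i hi P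
  unfold oo
  rw [hi, P.ord_zero]

theorem oo_one : ∀ᶠ ω in EV 𝒰 k L, oo (1 : UL 𝒰 L) ω = 0 := by
  rw [ev_iff]
  filter_upwards [rep_one (𝒰 := 𝒰) (L := L)] with i hi P
  unfold oo
  rw [hi, P.ord_one]

theorem oo_mul {x y : UL 𝒰 L} (hx : x ≠ 0) (hy : y ≠ 0) :
    ∀ᶠ ω in EV 𝒰 k L, oo (x * y) ω = oo x ω + oo y ω := by
  rw [ev_iff]
  filter_upwards [rep_mul x y, rep_ne hx, rep_ne hy] with i hi h1 h2 P
  unfold oo
  rw [hi, P.ord_mul h1 h2]

theorem oo_neg (x : UL 𝒰 L) : ∀ᶠ ω in EV 𝒰 k L, oo (-x) ω = oo x ω := by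
  rw [ev_iff]
  filter_upwards [rep_neg x] with i hi P
  unfold oo
  rw [hi, P.ord_neg]

theorem oo_inv (x : UL 𝒰 L) : ∀ᶠ ω in EV 𝒰 k L, oo x⁻¹ ω = -oo x ω := by
  rw [ev_iff]
  filter_upwards [rep_inv x] with i hi P
  unfold oo
  rw [hi, P.ord_inv]

theorem oo_div {x y : UL 𝒰 L} (hx : x ≠ 0) (hy : y ≠ 0) :
    ∀ᶠ ω in EV 𝒰 k L, oo (x / y) ω = oo x ω - oo y ω := by
  filter_upwards [oo_mul hx (inv_ne_zero hy), oo_inv y] with ω h1 h2
  rw [div_eq_mul_inv, h1, h2]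
  ring

theorem oo_pow (x : UL 𝒰 L) (n : ℕ) : ∀ᶠ ω in EV 𝒰 k L, oo (x ^ n) ω = n * oo x ω := by
  by_cases hx : x = 0
  · subst hx
    rcases Nat.eq_zero_or_pos n with rfl | hn
    · filter_upwards [oo_one (𝒰 := 𝒰) (k := k) (L := L)] with ω h1
      rw [pow_zero, h1]
      simp
    · filter_upwards [oo_zero (𝒰 := 𝒰) (k := k) (L := L)] with ω h1
      rw [zero_pow hn.ne', h1, mul_zero]
  · induction n with
    | zero =>
      filter_upwards [oo_one (𝒰 := 𝒰) (k := k) (L := L)] with ω h1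
      rw [pow_zero, h1]
      simp
    | succ n ih =>
      filter_upwards [ih, oo_mul (pow_ne_zero n hx) hx] with ω h1 h2
      rw [pow_succ, h2, h1]
      push_cast
      ring

theorem oo_prod {J : Type} (s : Finset J) (x : J → UL 𝒰 L) (hx : ∀ j ∈ s, x j ≠ 0) :
    ∀ᶠ ω in EV 𝒰 k L, oo (∏ j ∈ s, x j) ω = ∑ j ∈ s, oo (x j) ω := by
  classical
  induction s using Finset.induction_on with
  | empty =>
    filter_upwards [oo_one (𝒰 := 𝒰) (k := k) (L := L)] with ω h1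
    rw [Finset.prod_empty, Finset.sum_empty, h1]
  | insert a s ha ih =>
    filter_upwards [ih fun j hj => hx j (Finset.mem_insert_of_mem hj),
      oo_mul (hx a (Finset.mem_insert_self a s))
        (Finset.prod_ne_zero_iff.2 fun j hj => hx j (Finset.mem_insert_of_mem hj))] with ω h1 h2
    rw [Finset.prod_insert ha, Finset.sum_insert ha, h2, h1]

/-- the ultrametric inequality, for all lower bounds -/
theorem oo_add (x y : UL 𝒰 L) : ∀ᶠ ω in EV 𝒰 k L, ∀ m : ℤ, (x = 0 ∨ m ≤ oo x ω) →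
    (y = 0 ∨ m ≤ oo y ω) → (x + y = 0 ∨ m ≤ oo (x + y) ω) := by
  by_cases hx : x = 0
  · subst hx
    refine Eventually.of_forall fun ω m _ h => ?_
    rwa [zero_add]
  by_cases hy : y = 0
  · subst hy
    refine Eventually.of_forall fun ω m h _ => ?_
    rwa [add_zero]
  by_cases hxy : x + y = 0
  · exact Eventually.of_forall fun ω m _ _ => Or.inl hxy
  rw [ev_iff]
  filter_upwards [rep_add x y, rep_ne hx, rep_ne hy, rep_ne hxy] with i hi h1 h2 h3 P m h4 h5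
  right
  unfold oo at *
  rw [hi] at h3 ⊢
  exact (le_min (h4.resolve_left hx) (h5.resolve_left hy)).trans (P.ord_add h1 h2 h3)

/-- the ultrametric inequality for sums -/
theorem oo_sum {J : Type} (s : Finset J) (x : J → UL 𝒰 L) :
    ∀ᶠ ω in EV 𝒰 k L, ∀ m : ℤ, (∀ j ∈ s, x j = 0 ∨ m ≤ oo (x j) ω) →
      (∑ j ∈ s, x j = 0 ∨ m ≤ oo (∑ j ∈ s, x j) ω) := by
  classical
  induction s using Finset.induction_on with
  | empty => exact Eventually.of_forall fun ω m _ => Or.inl Finset.sum_empty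
  | insert a s ha ih =>
    filter_upwards [ih, oo_add (x a) (∑ j ∈ s, x j)] with ω h1 h2 m h3
    rw [Finset.sum_insert ha]
    exact h2 m (h3 a (Finset.mem_insert_self a s))
      (h1 m fun j hj => h3 j (Finset.mem_insert_of_mem hj))

end ords

section bd

omit [IsAlgClosed k] [CharZero k] [∀ i, IsFF k (L i)] [∀ i, Algebra F (L i)]

variable {χ H : I → ℤ}

theorem Bd.mono {e f : Om k L → ℤ} (h : Bd 𝒰 χ e) (hf : ∀ᶠ ω in EV 𝒰 k L, f ω ≤ e ω) :
    Bd 𝒰 χ f := by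
  obtain ⟨B, hB⟩ := h
  refine ⟨B, ?_⟩
  filter_upwards [hB, ev_iff.1 hf] with i h1 h2 T
  exact (Finset.sum_le_sum fun P _ => h2 P).trans (h1 T)

theorem Bd.zero (hχ : ∀ᶠ i in (𝒰 : Filter I), 0 ≤ χ i) : Bd 𝒰 χ (fun _ : Om k L => 0) :=
  ⟨0, by filter_upwards [hχ] with i h T; simp⟩

theorem Bd.add {e f : Om k L → ℤ} (he : Bd 𝒰 χ e) (hf : Bd 𝒰 χ f) :
    Bd 𝒰 χ (fun ω => e ω + f ω) := by
  obtain ⟨B, hB⟩ := he
  obtain ⟨C, hC⟩ := hf
  refine ⟨B + C, ?_⟩
  filter_upwards [hB, hC] with i h1 h2 T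
  rw [Finset.sum_add_distrib]
  push_cast
  linarith [h1 T, h2 T]

/-- the positive part -/
theorem Bd.pos {e : Om k L → ℤ} (he : Bd 𝒰 χ e) : Bd 𝒰 χ (fun ω => max (e ω) 0) := by
  classical
  obtain ⟨B, hB⟩ := he
  refine ⟨B, ?_⟩
  filter_upwards [hB] with i h1 T
  refine le_trans (le_of_eq ?_) (h1 (T.filter fun P => 0 ≤ e ⟨i, P⟩))
  rw [Finset.sum_filter]
  refine Finset.sum_congr rfl fun P _ => ?_
  split_ifs with h
  · exact max_eq_left h
  · exact max_eq_right (not_le.1 h).le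

theorem Bd.smul {e : Om k L → ℤ} (n : ℕ) (he : Bd 𝒰 χ e) :
    Bd 𝒰 χ (fun ω => n * e ω) := by
  obtain ⟨B, hB⟩ := he
  refine ⟨n * B, ?_⟩
  filter_upwards [hB] with i h1 T
  rw [← Finset.mul_sum]
  push_cast
  rw [mul_assoc]
  exact mul_le_mul_of_nonneg_left (h1 T) (by positivity)

theorem Bd.sum (hχ : ∀ᶠ i in (𝒰 : Filter I), 0 ≤ χ i) {J : Type} (s : Finset J)
    {e : J → Om k L → ℤ} (he : ∀ j ∈ s, Bd 𝒰 χ (e j)) : Bd 𝒰 χ (fun ω => ∑ j ∈ s, e j ω) := by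
  classical
  induction s using Finset.induction_on with
  | empty => simpa using Bd.zero hχ
  | insert a s ha ih =>
    have := (he a (Finset.mem_insert_self a s)).add (ih fun j hj => he j (Finset.mem_insert_of_mem hj))
    refine this.mono (Eventually.of_forall fun ω => ?_)
    rw [Finset.sum_insert ha]

theorem Bd.ite {e : Om k L → ℤ} (he : Bd 𝒰 χ e) (Q : Om k L → Prop) [DecidablePred Q] :
    Bd 𝒰 χ (fun ω => if Q ω then e ω else 0) := by
  refine he.pos.mono (Eventually.of_forall fun ω => ?_)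
  split_ifs
  · exact le_max_left _ _
  · exact le_max_right _ _

theorem Ng.mono {e f : Om k L → ℤ} (h : Ng 𝒰 χ H e) (hf : ∀ᶠ ω in EV 𝒰 k L, f ω ≤ e ω) :
    Ng 𝒰 χ H f := by
  intro ε hε
  obtain ⟨B, hB⟩ := h ε hε
  refine ⟨B, ?_⟩
  filter_upwards [hB, ev_iff.1 hf] with i h1 h2 T
  refine le_trans ?_ (h1 T)
  exact_mod_cast Finset.sum_le_sum fun P _ => h2 P

theorem Bd.ng {e : Om k L → ℤ} (he : Bd 𝒰 χ e) (hH : ∀ᶠ i in (𝒰 : Filter I), 0 ≤ H i) :
    Ng 𝒰 χ H e := by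
  intro ε hε
  obtain ⟨B, hB⟩ := he
  refine ⟨B, ?_⟩
  filter_upwards [hB, hH] with i h1 h2 T
  have h3 : ((∑ P ∈ T, e ⟨i, P⟩ : ℤ) : ℝ) ≤ ((B * χ i : ℤ) : ℝ) := by exact_mod_cast h1 T
  push_cast at h3 ⊢
  have h4 : (0 : ℝ) ≤ H i := by exact_mod_cast h2
  have := mul_nonneg hε.le h4
  linarith

theorem Ng.add {e f : Om k L → ℤ} (he : Ng 𝒰 χ H e) (hf : Ng 𝒰 χ H f) :
    Ng 𝒰 χ H (fun ω => e ω + f ω) := by
  intro ε hε
  obtain ⟨B, hB⟩ := he (ε / 2) (by linarith)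
  obtain ⟨C, hC⟩ := hf (ε / 2) (by linarith)
  refine ⟨B + C, ?_⟩
  filter_upwards [hB, hC] with i h1 h2 T
  rw [Finset.sum_add_distrib]
  push_cast
  have h3 := h1 T
  have h4 := h2 T
  push_cast at h3 h4
  linarith

/-- the positive part -/
theorem Ng.pos {e : Om k L → ℤ} (he : Ng 𝒰 χ H e) : Ng 𝒰 χ H (fun ω => max (e ω) 0) := by
  classical
  intro ε hε
  obtain ⟨B, hB⟩ := he ε hε
  refine ⟨B, ?_⟩
  filter_upwards [hB] with i h1 T
  refine le_trans (le_of_eq ?_) (h1 (T.filter fun P => 0 ≤ e ⟨i, P⟩))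
  rw [Finset.sum_filter]
  congr 1
  refine Finset.sum_congr rfl fun P _ => ?_
  split_ifs with h
  · exact max_eq_left h
  · exact max_eq_right (not_le.1 h).le

theorem Ng.zero (hχ : ∀ᶠ i in (𝒰 : Filter I), 0 ≤ χ i) (hH : ∀ᶠ i in (𝒰 : Filter I), 0 ≤ H i) :
    Ng 𝒰 χ H (fun _ : Om k L => 0) := (Bd.zero hχ).ng hH

theorem Ng.smul (hχ : ∀ᶠ i in (𝒰 : Filter I), 0 ≤ χ i) (hH : ∀ᶠ i in (𝒰 : Filter I), 0 ≤ H i)
    {e : Om k L → ℤ} (n : ℕ) (he : Ng 𝒰 χ H e) : Ng 𝒰 χ H (fun ω => n * e ω) := by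
  induction n with
  | zero => simpa using Ng.zero hχ hH
  | succ n ih =>
    refine (ih.add he).mono (Eventually.of_forall fun ω => ?_)
    push_cast
    linarith

theorem Ng.sum (hχ : ∀ᶠ i in (𝒰 : Filter I), 0 ≤ χ i) (hH : ∀ᶠ i in (𝒰 : Filter I), 0 ≤ H i)
    {J : Type} (s : Finset J) {e : J → Om k L → ℤ} (he : ∀ j ∈ s, Ng 𝒰 χ H (e j)) :
    Ng 𝒰 χ H (fun ω => ∑ j ∈ s, e j ω) := by
  classical
  induction s using Finset.induction_on with
  | empty => simpa using Ng.zero hχ hH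
  | insert a s ha ih =>
    have := (he a (Finset.mem_insert_self a s)).add (ih fun j hj => he j (Finset.mem_insert_of_mem hj))
    refine this.mono (Eventually.of_forall fun ω => ?_)
    rw [Finset.sum_insert ha]

theorem Ng.ite {e : Om k L → ℤ} (he : Ng 𝒰 χ H e) (Q : Om k L → Prop) [DecidablePred Q] :
    Ng 𝒰 χ H (fun ω => if Q ω then e ω else 0) := by
  refine he.pos.mono (Eventually.of_forall fun ω => ?_)
  split_ifs
  · exact le_max_left _ _
  · exact le_max_right _ _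

end bd

variable (𝒰 k F L) in
/-- The data: a size function `χ`, the field `E` of the elements of height `O(χ)`, a derivation of
every field whose divisor has degree `O(χ)`. -/
structure Dt where
  χ : I → ℤ
  E : IntermediateField F (UL 𝒰 L)
  hE : IsSmall 𝒰 k χ E
  D : ∀ i, Derivation k (L i) (L i)
  D_ne : ∀ᶠ i in (𝒰 : Filter I), D i ≠ 0
  vo_bd : Bd 𝒰 χ (fun ω : Om k L => |vo ω.2 (D ω.1)|)
  one_le : ∀ᶠ i in (𝒰 : Filter I), 1 ≤ χ i

variable (Δ : Dt 𝒰 k F L)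

omit [IsAlgClosed k] [CharZero k] [∀ i, IsFF k (L i)] in
theorem Dt.nonneg : ∀ᶠ i in (𝒰 : Filter I), 0 ≤ Δ.χ i := by
  filter_upwards [Δ.one_le] with i h
  omega

theorem Dt.mem_E {x : UL 𝒰 L} : x ∈ Δ.E ↔ ∃ B : ℕ, ∀ᶠ i in (𝒰 : Filter I),
    hgt k (rep x i) ≤ B * Δ.χ i := by
  rw [← Δ.hE.2, um_rep]

/-- sums of orders -/
theorem sum_abs_ord {K : Type} [Field K] [Algebra k K] [IsFF k K] (x : K)
    (T : Finset (Place k K)) : ∑ P ∈ T, |P.ord x| ≤ 2 * hgt k x := by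
  classical
  obtain ⟨T0, hT0⟩ := exists_supp (k := k) (Finset.univ : Finset (Fin 1)) (fun _ => x)
  have h1 : ∀ P : Place k K, P.ord x ≠ 0 → P ∈ T ∪ T0 := fun P hP =>
    Finset.mem_union_right _ (hT0 0 (Finset.mem_univ _) P hP)
  have h2 : ∀ P : Place k K, P.ord x⁻¹ ≠ 0 → P ∈ T ∪ T0 := fun P hP => h1 P (by
    intro h
    apply hP
    rw [P.ord_inv, h, neg_zero])
  calc ∑ P ∈ T, |P.ord x| ≤ ∑ P ∈ T ∪ T0, |P.ord x| :=
        Finset.sum_le_sum_of_subset_of_nonneg Finset.subset_union_left fun _ _ _ => abs_nonneg _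
    _ = ∑ P ∈ T ∪ T0, (max (-P.ord x) 0 + max (-P.ord x⁻¹) 0) := by
        refine Finset.sum_congr rfl fun P _ => ?_
        rw [P.ord_inv]
        rcases le_total 0 (P.ord x) with h | h
        · rw [abs_of_nonneg h]
          omega
        · rw [abs_of_nonpos h]
          omega
    _ = hgt k x + hgt k x⁻¹ := by
        rw [Finset.sum_add_distrib, ← hgt_finset x _ h1, ← hgt_finset x⁻¹ _ h2]
    _ = 2 * hgt k x := by rw [hgt_inv]; ring

/-- orders of the elements of the small field -/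
theorem Dt.bd_E {x : UL 𝒰 L} (hx : x ∈ Δ.E) : Bd 𝒰 Δ.χ (fun ω : Om k L => |oo x ω|) := by
  obtain ⟨B, hB⟩ := Δ.mem_E.1 hx
  refine ⟨2 * B, ?_⟩
  filter_upwards [hB] with i h1 T
  refine (sum_abs_ord (rep x i) T).trans ?_
  push_cast
  linarith

/-- `x` is a unit outside `O(χ)` places. -/
def LU (x : UL 𝒰 L) : Prop :=
  x ≠ 0 ∧ Bd 𝒰 Δ.χ (fun ω : Om k L => if oo x ω = 0 then 0 else 1)

omit [IsAlgClosed k] [CharZero k] [∀ i, IsFF k (L i)] [∀ i, Algebra F (L i)] in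
/-- the places where some `u j` is not a unit -/
def Tu {t : ℕ} (u : Fin t → UL 𝒰 L) : Set (Om k L) := {ω | ∃ j, oo (u j) ω ≠ 0}

variable (k) in
/-- the height of `x`, at every index -/
noncomputable def ht (x : UL 𝒰 L) (i : I) : ℤ := hgt k (rep x i)

variable (k) in
/-- the sum of the heights of the `u j` -/
noncomputable def Hu {t : ℕ} (u : Fin t → UL 𝒰 L) (i : I) : ℤ := ∑ j, ht k (u j) i

theorem Hu_nonneg {t : ℕ} (u : Fin t → UL 𝒰 L) (i : I) : 0 ≤ Hu k u i :=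
  Finset.sum_nonneg fun _ _ => hgt_nonneg _

/-- The elements whose poles in `Q` are negligible. -/
def AQ (χ H : I → ℤ) (hχ : ∀ᶠ i in (𝒰 : Filter I), 0 ≤ χ i)
    (hH : ∀ᶠ i in (𝒰 : Filter I), 0 ≤ H i)
    (hF : ∀ c : F, Bd 𝒰 χ (fun ω : Om k L => |oo (algebraMap F (UL 𝒰 L) c) ω|))
    (Q : Set (Om k L)) : Subalgebra F (UL 𝒰 L) where
  carrier := {x | ∃ e, Ng 𝒰 χ H e ∧ ∀ᶠ ω in EV 𝒰 k L, ω ∈ Q → x = 0 ∨ -e ω ≤ oo x ω}
  mul_mem' := by
    rintro x y ⟨e, he, h1⟩ ⟨f, hf, h2⟩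
    by_cases hx : x = 0
    · subst hx
      exact ⟨fun _ => 0, Ng.zero hχ hH, Eventually.of_forall fun ω _ => Or.inl (zero_mul y)⟩
    by_cases hy : y = 0
    · subst hy
      exact ⟨fun _ => 0, Ng.zero hχ hH, Eventually.of_forall fun ω _ => Or.inl (mul_zero x)⟩
    refine ⟨_, he.add hf, ?_⟩
    filter_upwards [h1, h2, oo_mul hx hy] with ω h3 h4 h5 hω
    right
    rw [h5]
    have := (h3 hω).resolve_left hx
    have := (h4 hω).resolve_left hy
    linarith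
  add_mem' := by
    rintro x y ⟨e, he, h1⟩ ⟨f, hf, h2⟩
    refine ⟨_, he.pos.add hf.pos, ?_⟩
    filter_upwards [h1, h2, oo_add x y] with ω h3 h4 h5 hω
    refine h5 _ ?_ ?_
    · rcases h3 hω with h | h
      · exact Or.inl h
      · right
        have := le_max_left (e ω) 0
        have := le_max_right (f ω) 0
        linarith
    · rcases h4 hω with h | h
      · exact Or.inl h
      · right
        have := le_max_left (f ω) 0
        have := le_max_right (e ω) 0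
        linarith
  algebraMap_mem' := by
    intro c
    refine ⟨_, (hF c).ng hH, Eventually.of_forall fun ω _ => Or.inr ?_⟩
    exact neg_abs_le _

theorem Dt.hF (c : F) : Bd 𝒰 Δ.χ (fun ω : Om k L => |oo (algebraMap F (UL 𝒰 L) c) ω|) :=
  Δ.bd_E (Δ.E.algebraMap_mem c)

/-- The elements whose poles in `Q` are negligible in comparison with `H`. -/
def Dt.A (H : I → ℤ) (hH : ∀ᶠ i in (𝒰 : Filter I), 0 ≤ H i) (Q : Set (Om k L)) :
    Subalgebra F (UL 𝒰 L) := AQ Δ.χ H Δ.nonneg hH Δ.hF Q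

theorem Dt.mem_A {H : I → ℤ} {hH : ∀ᶠ i in (𝒰 : Filter I), 0 ≤ H i} {Q : Set (Om k L)}
    {x : UL 𝒰 L} : x ∈ Δ.A H hH Q ↔
      ∃ e, Ng 𝒰 Δ.χ H e ∧ ∀ᶠ ω in EV 𝒰 k L, ω ∈ Q → x = 0 ∨ -e ω ≤ oo x ω := Iff.rfl

theorem Dt.E_le {H : I → ℤ} {hH : ∀ᶠ i in (𝒰 : Filter I), 0 ≤ H i} {Q : Set (Om k L)}
    {x : UL 𝒰 L} (hx : x ∈ Δ.E) : x ∈ Δ.A H hH Q :=
  ⟨_, (Δ.bd_E hx).ng hH, Eventually.of_forall fun ω _ => Or.inr (neg_abs_le _)⟩

section der

/-- the ultraproduct of derivations -/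
noncomputable def uD (D : ∀ i, Derivation k (L i) (L i)) : Derivation k (UL 𝒰 L) (UL 𝒰 L) :=
  Derivation.mk'
    { toFun := fun x => um 𝒰 (fun i => D i (rep x i))
      map_add' := by
        intro x y
        rw [← um_add, um_eq]
        filter_upwards [rep_add x y] with i h
        rw [h, map_add]
      map_smul' := by
        intro c x
        have h1 : c • um 𝒰 (fun i => D i (rep x i)) = um 𝒰 (fun i => c • D i (rep x i)) := rfl
        have h2 : rep (c • x) = rep (um 𝒰 (fun i => c • rep x i)) := by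
          congr 1
          have h3 : c • um 𝒰 (rep x) = um 𝒰 (fun i => c • rep x i) := rfl
          rw [← h3, um_rep]
        rw [RingHom.id_apply, h1, um_eq, h2]
        filter_upwards [rep_um (𝒰 := 𝒰) (fun i => c • rep x i)] with i h
        rw [h, (D i).map_smul] }
    (by
      intro x y
      show um 𝒰 (fun i => D i (rep (x * y) i)) =
        x * um 𝒰 (fun i => D i (rep y i)) + y * um 𝒰 (fun i => D i (rep x i))
      have h1 : x * um 𝒰 (fun i => D i (rep y i)) + y * um 𝒰 (fun i => D i (rep x i)) =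
          um 𝒰 (fun i => rep x i * D i (rep y i) + rep y i * D i (rep x i)) := by
        rw [um_add, um_mul, um_mul, um_rep, um_rep]
      rw [h1, um_eq]
      filter_upwards [rep_mul x y] with i h
      rw [h, (D i).leibniz]
      rfl)

theorem uD_um (D : ∀ i, Derivation k (L i) (L i)) (z : ∀ i, L i) :
    uD (𝒰 := 𝒰) D (um 𝒰 z) = um 𝒰 (fun i => D i (z i)) := by
  show um 𝒰 (fun i => D i (rep (um 𝒰 z) i)) = _
  rw [um_eq]
  filter_upwards [rep_um (𝒰 := 𝒰) z] with i h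
  rw [h]

variable (𝒰 k L) in
/-- the constants of the ultraproduct -/
def K0 : Subfield (UL 𝒰 L) where
  carrier := {x | ∃ c : I → k, um 𝒰 (fun i => algebraMap k (L i) (c i)) = x}
  mul_mem' := by
    rintro _ _ ⟨c, rfl⟩ ⟨d, rfl⟩
    refine ⟨fun i => c i * d i, ?_⟩
    rw [← um_mul]
    simp only [map_mul]
  one_mem' := ⟨fun _ => 1, by simp only [map_one]; rfl⟩
  add_mem' := by
    rintro _ _ ⟨c, rfl⟩ ⟨d, rfl⟩
    refine ⟨fun i => c i + d i, ?_⟩
    rw [← um_add]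
    simp only [map_add]
  zero_mem' := ⟨fun _ => 0, by simp only [map_zero]; rfl⟩
  neg_mem' := by
    rintro _ ⟨c, rfl⟩
    refine ⟨fun i => -c i, ?_⟩
    rw [← um_neg]
    simp only [map_neg]
  inv_mem' := by
    rintro _ ⟨c, rfl⟩
    refine ⟨fun i => (c i)⁻¹, ?_⟩
    rw [← um_inv]
    simp only [map_inv₀]

theorem Dt.K0_le {x : UL 𝒰 L} (hx : x ∈ K0 𝒰 k L) : x ∈ Δ.E := by
  obtain ⟨c, rfl⟩ := hx
  rw [Δ.hE.2]
  refine ⟨0, Eventually.of_forall fun i => ?_⟩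
  refine le_trans (le_of_eq ?_) (le_of_eq (by simp : (0 : ℤ) = ((0 : ℕ) : ℤ) * Δ.χ i))
  unfold hgt
  refine finsum_eq_zero_of_forall_eq_zero fun P => ?_
  by_cases h : c i = 0
  · rw [h, map_zero, P.ord_zero]
    rfl
  · rw [P.ord_const h]
    rfl

end der

section forms

open MvPolynomial

/-- the monomial with the exponents `s` in the `u j` -/
noncomputable def mon {t : ℕ} (u : Fin t → UL 𝒰 L) (s : Fin t →₀ ℕ) : UL 𝒰 L := ∏ j, u j ^ s j

/-- A derivation of a polynomial ring is special if it maps every monomial to a multiple by a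
constant of the same monomial. -/
def IsSd {E : Type} [Field E] {t : ℕ} (δ : MvPolynomial (Fin t) E → MvPolynomial (Fin t) E) : Prop :=
  ∀ (s : Fin t →₀ ℕ) (a : E), ∃ b : E, δ (monomial s a) = monomial s b

/-- the minimum of the orders of the nonzero coordinates -/
noncomputable def mo {M : ℕ} (x : Fin M → UL 𝒰 L) (ω : Om k L) : ℤ :=
  ⨅ c : {c // x c ≠ 0}, oo (x c.1) ω

variable (k) in
/-- the height of the point with the homogeneous coordinates `x` -/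
noncomputable def hp {M : ℕ} (x : Fin M → UL 𝒰 L) (i : I) : ℤ :=
  -∑ᶠ P : Place k (L i), mo x (⟨i, P⟩ : Om k L)

/-- the local height with respect to the subvariety with the equations `G j = 0`, `G j` of degree
`d j` -/
noncomputable def lam {M w : ℕ} (G : Fin w → MvPolynomial (Fin M) F) (d : Fin w → ℕ)
    (x : Fin M → UL 𝒰 L) (ω : Om k L) : ℤ :=
  ⨅ j : {j // aeval x (G j) ≠ 0}, (oo (aeval x (G j.1)) ω - d j.1 * mo x ω)

/-- `u` consists of algebraically independent units outside `O(χ)` places -/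
def Dt.IsU {t : ℕ} (u : Fin t → UL 𝒰 L) : Prop :=
  (∀ j, LU Δ (u j)) ∧ AlgebraicIndependent Δ.E u

/-- the matrix with the rows `y`, `δ 0 y`, …, `δ (N - 1) y` and the columns in `J` -/
noncomputable def tauM {E : Type} [Field E] {K : Type} [Field K] [Algebra E K] {t N M : ℕ}
    (u : Fin t → K) (y : Fin M → MvPolynomial (Fin t) E)
    (δ : Fin N → MvPolynomial (Fin t) E → MvPolynomial (Fin t) E) (ρ : Fin (N + 1)) (c : Fin M) :
    K :=
  aeval u (Fin.cons (α := fun _ => MvPolynomial (Fin t) E) (y c) (fun ρ' : Fin N => δ ρ' (y c)) ρ)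

end forms

end Pool.Agent.Y731.FG
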