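import Pool.Agent.Y731.FG.Stm

/-!
# Heights of points over a function field: scaling, sums over finite sets of places
-/

set_option autoImplicit false
set_option linter.unusedSectionVars false
set_option linter.unusedVariables false

namespace Pool.Agent.Y731.FG

open FF Filter MvPolynomial Pool.Agent.W603.LV Pool.Agent.W603.PV Pool.Agent.W603.CZ

section one

variable {k K : Type} [Field k] [Field K] [Algebra k K]

/-- the minimum of the orders of the nonzero coordinates -/
noncomputable def minOrd {ι : Type} (P : Place k K) (x : ι → K) : ℤ :=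
  ⨅ c : {c // x c ≠ 0}, P.ord (x c.1)

variable (k) in
/-- the height of the point with the homogeneous coordinates `x` -/
noncomputable def hgtP {ι : Type} (x : ι → K) : ℤ := -∑ᶠ P : Place k K, minOrd P x

/-- the local height with respect to the subvariety with the equations `G j = 0`, `G j` of degree
`d j` -/
noncomputable def locH {F : Type} [Field F] [Algebra F K] {M w : ℕ}
    (G : Fin w → MvPolynomial (Fin M) F) (d : Fin w → ℕ) (P : Place k K) (x : Fin M → K) : ℤ :=
  ⨅ j : {j // aeval x (G j) ≠ 0}, (P.ord (aeval x (G j.1)) - d j.1 * minOrd P x)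

section

variable {ι : Type} [Finite ι] (P : Place k K) {x : ι → K}

theorem minOrd_le {c : ι} (hc : x c ≠ 0) : minOrd P x ≤ P.ord (x c) :=
  ciInf_le (Set.finite_range fun c : {c // x c ≠ 0} => P.ord (x c.1)).bddBelow ⟨c, hc⟩

theorem exists_minOrd (hx : ∃ c, x c ≠ 0) : ∃ c, x c ≠ 0 ∧ P.ord (x c) = minOrd P x := by
  obtain ⟨c, hc⟩ := hx
  have : Nonempty {c // x c ≠ 0} := ⟨⟨c, hc⟩⟩
  obtain ⟨c', hc'⟩ := exists_eq_ciInf_of_finite (f := fun c : {c // x c ≠ 0} => P.ord (x c.1))
  exact ⟨c'.1, c'.2, hc'⟩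

theorem minOrd_eq {m : ℤ} (h1 : ∀ c, x c ≠ 0 → m ≤ P.ord (x c))
    (h2 : ∃ c, x c ≠ 0 ∧ P.ord (x c) = m) : minOrd P x = m := by
  obtain ⟨c, hc, hcm⟩ := h2
  refine le_antisymm (hcm ▸ minOrd_le P hc) ?_
  obtain ⟨c', hc', h'⟩ := exists_minOrd P ⟨c, hc⟩
  rw [← h']
  exact h1 c' hc'

theorem minOrd_smul {a : K} (ha : a ≠ 0) (hx : ∃ c, x c ≠ 0) :
    minOrd P (fun c => a * x c) = P.ord a + minOrd P x := by
  obtain ⟨c, hc, hcm⟩ := exists_minOrd P hx
  refine minOrd_eq P (fun c' hc' => ?_) ⟨c, mul_ne_zero ha hc, ?_⟩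
  · have hc'' : x c' ≠ 0 := right_ne_zero_of_mul hc'
    rw [P.ord_mul ha hc'']
    linarith [minOrd_le P hc'']
  · rw [P.ord_mul ha hc, hcm]

variable [CharZero k] [IsFF k K]

omit P in
theorem minOrd_finite (hx : ∃ c, x c ≠ 0) : {P : Place k K | minOrd P x ≠ 0}.Finite := by
  have h1 : (⋃ c : ι, {P : Place k K | P.ord (x c) ≠ 0}).Finite :=
    Set.finite_iUnion fun c => finite_support (x c)
  refine h1.subset fun P hP => ?_
  obtain ⟨c, hc, hcm⟩ := exists_minOrd P hx
  refine Set.mem_iUnion.2 ⟨c, ?_⟩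
  show P.ord (x c) ≠ 0
  rw [hcm]
  exact hP

omit P in
theorem hgtP_smul [IsAlgClosed k] {a : K} (ha : a ≠ 0) (hx : ∃ c, x c ≠ 0) :
    hgtP k (fun c => a * x c) = hgtP k x := by
  unfold hgtP
  rw [finsum_congr fun P => minOrd_smul P ha hx,
    finsum_add_distrib (finite_support a) (minOrd_finite hx), sum_ord, zero_add]

omit P in
theorem hgtP_finset (hx : ∃ c, x c ≠ 0) (T : Finset (Place k K))
    (hT : ∀ P, minOrd P x ≠ 0 → P ∈ T) : hgtP k x = -∑ P ∈ T, minOrd P x := by
  unfold hgtP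
  rw [finsum_eq_sum_of_support_subset (s := T)]
  exact fun P hP => hT P hP

end

section

variable {F : Type} [Field F] [Algebra F K] {M w : ℕ} {G : Fin w → MvPolynomial (Fin M) F}
  {d : Fin w → ℕ} (P : Place k K) {x : Fin M → K}

/-- homogeneity -/
theorem aeval_smul_hom {K' : Type} [Field K'] [Algebra F K'] {H : MvPolynomial (Fin M) F} {m : ℕ}
    (hH : H.IsHomogeneous m) (a : K') (z : Fin M → K') :
    aeval (fun c => a * z c) H = a ^ m * aeval z H := by
  rw [aeval_def, aeval_def, eval₂_eq', eval₂_eq', Finset.mul_sum]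
  refine Finset.sum_congr rfl fun α hα => ?_
  have h2 : ∑ c, α c = m := by
    have := hH (mem_support_iff.1 hα)
    rw [← this, Finsupp.weight_apply, Finsupp.sum_fintype _ _ (by simp)]
    simp
  have h3 : ∏ c, (a * z c) ^ α c = a ^ m * ∏ c, z c ^ α c := by
    rw [← h2, ← Finset.prod_pow_eq_pow_sum, ← Finset.prod_mul_distrib]
    exact Finset.prod_congr rfl fun c _ => mul_pow _ _ _
  rw [h3]
  ring

theorem locH_smul (hG : ∀ j, (G j).IsHomogeneous (d j)) {a : K} (ha : a ≠ 0)
    (hx : ∃ c, x c ≠ 0) : locH G d P (fun c => a * x c) = locH G d P x := by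
  unfold locH
  have h1 : ∀ j, aeval (fun c => a * x c) (G j) = a ^ d j * aeval x (G j) := fun j =>
    aeval_smul_hom (hG j) a x
  have h2 : ∀ j, (aeval (fun c => a * x c) (G j) ≠ 0) ↔ aeval x (G j) ≠ 0 := by
    intro j
    rw [h1]
    constructor
    · exact right_ne_zero_of_mul
    · exact mul_ne_zero (pow_ne_zero _ ha)
  refine Equiv.iInf_congr (Equiv.subtypeEquivRight h2) fun j => ?_
  show P.ord (aeval x (G j.1)) - d j.1 * minOrd P x = _
  rw [h1, P.ord_mul (pow_ne_zero _ ha) ((h2 _).1 j.2), P.ord_pow, minOrd_smul P ha hx]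
  ring

variable [CharZero k] [IsFF k K]

omit P in
theorem locH_finite (hx : ∃ c, x c ≠ 0) (hGx : ∃ j, aeval x (G j) ≠ 0) :
    {P : Place k K | locH G d P x ≠ 0}.Finite := by
  have h1 : (⋃ j : Fin w, {P : Place k K | P.ord (aeval x (G j)) ≠ 0}).Finite :=
    Set.finite_iUnion fun j => finite_support _
  refine (h1.union (minOrd_finite (k := k) hx)).subset fun P hP => ?_
  by_contra hcon
  rw [Set.mem_union, not_or] at hcon
  have h2 : minOrd P x = 0 := by
    by_contra h
    exact hcon.2 h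
  have h3 : ∀ j, P.ord (aeval x (G j)) = 0 := by
    intro j
    by_contra h
    exact hcon.1 (Set.mem_iUnion.2 ⟨j, h⟩)
  apply hP
  show locH G d P x = 0
  unfold locH
  obtain ⟨j, hj⟩ := hGx
  have : Nonempty {j // aeval x (G j) ≠ 0} := ⟨⟨j, hj⟩⟩
  simp only [h3, h2, mul_zero, sub_zero, ciInf_const]

end

end one

section many

variable {I : Type} {𝒰 : Ultrafilter I} {k F : Type} [Field k]
  [Field F] {L : I → Type} [∀ i, Field (L i)] [∀ i, Algebra k (L i)] [∀ i, Algebra F (L i)]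

/-- nonzero coordinates at almost all indices -/
theorem rep_ne_iff {ι : Type} [Finite ι] (z : ι → UL 𝒰 L) :
    ∀ᶠ i in (𝒰 : Filter I), ∀ c, z c ≠ 0 ↔ rep (z c) i ≠ 0 := by
  rw [eventually_all]
  intro c
  by_cases h : z c = 0
  · rw [h]
    filter_upwards [rep_zero (𝒰 := 𝒰) (L := L)] with i hi
    rw [hi]
    simp
  · filter_upwards [rep_ne h] with i hi
    exact ⟨fun _ => hi, fun _ => h⟩

/-- the minimal order at almost all indices -/
theorem mo_eq {M : ℕ} (z : Fin M → UL 𝒰 L) : ∀ᶠ i in (𝒰 : Filter I), ∀ P : Place k (L i),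
    mo z (⟨i, P⟩ : Om k L) = minOrd P (fun c => rep (z c) i) := by
  filter_upwards [rep_ne_iff z] with i hi P
  unfold mo minOrd
  exact Equiv.iInf_congr (Equiv.subtypeEquivRight hi) fun c => rfl

theorem hp_eq {M : ℕ} (z : Fin M → UL 𝒰 L) : ∀ᶠ i in (𝒰 : Filter I),
    hp k z i = hgtP k (fun c => rep (z c) i) := by
  filter_upwards [mo_eq (k := k) z] with i hi
  unfold hp hgtP
  rw [finsum_congr fun P => hi P]

theorem rep_aeval {σ : Type} (z : σ → UL 𝒰 L) (H : MvPolynomial σ F) :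
    ∀ᶠ i in (𝒰 : Filter I), rep (aeval z H) i = aeval (fun s => rep (z s) i) H := by
  have h1 := um_aeval 𝒰 (fun s => rep (z s)) H
  have h2 : (fun s => um 𝒰 (rep (z s))) = z := funext fun s => um_rep (z s)
  rw [h2] at h1
  rw [← h1]
  exact rep_um _

theorem lam_eq {M w : ℕ} (G : Fin w → MvPolynomial (Fin M) F) (d : Fin w → ℕ)
    (z : Fin M → UL 𝒰 L) : ∀ᶠ i in (𝒰 : Filter I), ∀ P : Place k (L i),
    lam G d z (⟨i, P⟩ : Om k L) = locH G d P (fun c => rep (z c) i) := by
  have h1 : ∀ᶠ i in (𝒰 : Filter I), ∀ j, rep (aeval z (G j)) i =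
      aeval (fun s => rep (z s) i) (G j) := eventually_all.2 fun j => rep_aeval z (G j)
  filter_upwards [rep_ne_iff (fun j => aeval z (G j)), h1, mo_eq (k := k) z] with i hi h1 h2 P
  unfold lam locH
  have h3 : ∀ j, aeval z (G j) ≠ 0 ↔ aeval (fun s => rep (z s) i) (G j) ≠ 0 := by
    intro j
    rw [← h1]
    exact hi j
  refine Equiv.iInf_congr (Equiv.subtypeEquivRight h3) fun j => ?_
  show P.ord _ - _ = P.ord _ - _
  rw [h2, h1]
  rfl

/-- determinants at almost all indices -/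
theorem rep_det {n : ℕ} (A : Matrix (Fin n) (Fin n) (UL 𝒰 L)) :
    ∀ᶠ i in (𝒰 : Filter I), rep A.det i = (Matrix.of fun a b => rep (A a b) i).det := by
  have h1 : um 𝒰 (fun i => (Matrix.of fun a b => rep (A a b) i).det) = A.det := by
    have h2 : (fun i => (Matrix.of fun a b => rep (A a b) i).det) =
        (Matrix.of fun a b => (rep (A a b) : ∀ i, L i)).det := by
      funext i
      exact (RingHom.map_det (Pi.evalRingHom L i)
        (Matrix.of fun a b => (rep (A a b) : ∀ i, L i))).symm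
    rw [h2]
    show (Ideal.Quotient.mk (ui 𝒰 L)) _ = _
    rw [RingHom.map_det]
    congr 1
    ext a b
    exact um_rep (A a b)
  rw [← h1]
  exact rep_um _

end many

end Pool.Agent.Y731.FG
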