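import Pool.Agent.Y731.FG.Stm

/-!
# Local inequalities: algebra
-/

set_option autoImplicit false
set_option linter.unusedSectionVars false
set_option linter.unusedVariables false

namespace Pool.Agent.Y731.FG

open MvPolynomial

section alg

variable {F : Type} [Field F]

/-- the chain rule -/
theorem der_aeval {A : Type} [CommRing A] [Algebra F A] {M : ℕ} (δ : Derivation F A A)
    (y : Fin M → A) (f : MvPolynomial (Fin M) F) :
    δ (aeval y f) = ∑ a, aeval y (pderiv a f) * δ (y a) := by
  induction f using MvPolynomial.induction_on with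
  | C a =>
    simp
  | add p q hp hq =>
    simp only [map_add, hp, hq, add_mul, Finset.sum_add_distrib]
  | mul_X p b hp =>
    simp only [map_mul, aeval_X, Derivation.leibniz, hp, smul_eq_mul, pderiv_X, map_add]
    rw [Finset.mul_sum]
    have h1 : ∀ a, (aeval y p * (aeval y) (Pi.single (M := fun _ => MvPolynomial (Fin M) F) a 1 b) +
        y b * (aeval y) ((pderiv a) p)) * δ (y a) =
        (if a = b then aeval y p * δ (y b) else 0) + y b * ((aeval y) ((pderiv a) p) * δ (y a)) := by
      intro a
      by_cases h : a = b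
      · subst h
        rw [Pi.single_eq_same, map_one, if_pos rfl]
        ring
      · rw [Pi.single_eq_of_ne (Ne.symm h), map_zero, if_neg h]
        ring
    rw [Finset.sum_congr rfl fun a _ => h1 a, Finset.sum_add_distrib, Finset.sum_ite_eq' Finset.univ b]
    simp

theorem pderiv_zero_of_hom {M : ℕ} {f : MvPolynomial (Fin M) F} (hf : f.IsHomogeneous 0)
    (a : Fin M) : pderiv a f = 0 := by
  rw [← totalDegree_zero_iff_isHomogeneous, totalDegree_eq_zero_iff_eq_C] at hf
  rw [hf, pderiv_C]

variable {K : Type} [Field K] [Algebra F K]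

theorem aeval_div {M : ℕ} {f : MvPolynomial (Fin M) F} {d : ℕ} (hf : f.IsHomogeneous d)
    (x : Fin M → K) (z : K) : aeval (fun a => x a / z) f = aeval x f / z ^ d := by
  rw [aeval_def, aeval_def, eval₂_eq', eval₂_eq', Finset.sum_div]
  refine Finset.sum_congr rfl fun s hs => ?_
  have h1 : ∑ a, s a = d := by
    have := hf (mem_support_iff.1 hs)
    rw [← this, Finsupp.weight_apply, Finsupp.sum_fintype _ _ (by simp)]
    simp
  rw [← h1, ← Finset.prod_pow_eq_pow_sum, mul_div_assoc, ← Finset.prod_div_distrib]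
  congr 1
  exact Finset.prod_congr rfl fun a _ => div_pow _ _ _

/-- products with gradients at the normalised point -/
theorem grad_div {M : ℕ} {f : MvPolynomial (Fin M) F} {d : ℕ} (hf : f.IsHomogeneous d)
    (x V : Fin M → K) (z : K) :
    ∑ a, V a / z * aeval (fun a => x a / z) (pderiv a f) =
      (∑ a, aeval x (pderiv a f) * V a) / z ^ d := by
  rw [Finset.sum_div]
  refine Finset.sum_congr rfl fun a _ => ?_
  rcases Nat.eq_zero_or_pos d with rfl | hd
  · rw [pderiv_zero_of_hom hf, map_zero, map_zero]
    simp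
  · rw [aeval_div (hf.pderiv (i := a)) x z]
    obtain ⟨e, rfl⟩ : ∃ e, d = e + 1 := ⟨d - 1, by omega⟩
    rw [Nat.add_sub_cancel, div_mul_div_comm, pow_succ, mul_comm z]
    ring

theorem euler {M : ℕ} {f : MvPolynomial (Fin M) F} {d : ℕ} (hf : f.IsHomogeneous d)
    (x : Fin M → K) : ∑ a, aeval x (pderiv a f) * x a = d * aeval x f := by
  have h1 := congrArg (aeval x) hf.sum_X_mul_pderiv
  rw [map_sum, map_nsmul, nsmul_eq_mul] at h1
  rw [← h1]
  refine Finset.sum_congr rfl fun a _ => ?_
  rw [map_mul, aeval_X]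
  ring

end alg

section row

variable {F K : Type} [Field F] [Field K] [Algebra F K] (E : IntermediateField F K)

/-- products of the rows with gradients -/
theorem row_grad {t N M : ℕ} (u : Fin t → K) (y : Fin M → MvPolynomial (Fin t) E)
    (δ : Fin N → Derivation F (MvPolynomial (Fin t) E) (MvPolynomial (Fin t) E))
    {f : MvPolynomial (Fin M) F} {d : ℕ} (hf : f.IsHomogeneous d) (z : K) (ρ : Fin (N + 1)) :
    ∑ a, tauM u y (fun ρ' => δ ρ') ρ a / z *
        aeval (fun a => aeval u (y a) / z) (pderiv a f) =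
      aeval u (Fin.cons (α := fun _ => MvPolynomial (Fin t) E) ((d : MvPolynomial (Fin t) E) *
        aeval y f) (fun ρ' : Fin N => δ ρ' (aeval y f)) ρ) / z ^ d := by
  have h0 : ∀ g : MvPolynomial (Fin M) F, aeval (fun a => aeval u (y a)) g = aeval u (aeval y g) :=
    fun g => (comp_aeval_apply _ (((aeval u : MvPolynomial (Fin t) E →ₐ[E] K)).restrictScalars F) g).symm
  rw [grad_div hf (fun a => aeval u (y a)) (fun a => tauM u y (fun ρ' => δ ρ') ρ a) z]
  congr 1
  refine Fin.cases ?_ (fun ρ' => ?_) ρ
  · rw [Fin.cons_zero]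
    have h1 : ∀ a, tauM u y (fun ρ' => δ ρ') 0 a = aeval u (y a) := fun a => rfl
    simp only [h1]
    rw [euler hf, map_mul, map_natCast, h0]
  · rw [Fin.cons_succ, der_aeval, map_sum]
    refine Finset.sum_congr rfl fun a _ => ?_
    rw [map_mul, h0]
    rfl

theorem aeval_comp {t M : ℕ} (u : Fin t → K) (y : Fin M → MvPolynomial (Fin t) E)
    (g : MvPolynomial (Fin M) F) : aeval (fun a => aeval u (y a)) g = aeval u (aeval y g) :=
  (comp_aeval_apply _ (((aeval u : MvPolynomial (Fin t) E →ₐ[E] K)).restrictScalars F) g).symm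

end row

end Pool.Agent.Y731.FG
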