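import Pool.Agent.Y731.FG.Fin1
import Pool.Agent.Y731.FG.Loc1

/-!
# Tangent spaces and the Gauss map
-/

set_option autoImplicit false
set_option linter.unusedSectionVars false
set_option linter.unusedVariables false

namespace Pool.Agent.Y731.FG

open FF Filter MvPolynomial Pool.Agent.W603.LV Pool.Agent.W603.PV Pool.Agent.W603.CZ

section

variable {F K : Type} [Field F] [Field K] [Algebra F K]

/-- independent gradients at a point over a finite extension -/
theorem exists_indep [Algebra.IsAlgebraic F K] {n g q w s : ℕ}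
    {G : Fin g → MvPolynomial (Fin n) F} {Fd : Fin q → Fin w → MvPolynomial (Fin n) F}
    (hNC : SNCF G Fd s) (x : Fin n → K) (hx : ∃ c, x c ≠ 0) (hG : ∀ j, aeval x (G j) = 0) :
    ∃ T : Fin s → Fin g, LinearIndependent K
      (fun (j : Fin s) (c : Fin n) => aeval x (pderiv c (G (T j)))) := by
  classical
  let φ : K →ₐ[F] AlgebraicClosure F := IsAlgClosed.lift
  have hφ : ∀ p : MvPolynomial (Fin n) F, aeval (fun c => φ (x c)) p = φ (aeval x p) := fun p =>
    (comp_aeval_apply x φ p).symm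
  obtain ⟨T, J, h⟩ := hNC (fun c => φ (x c)) (by
    obtain ⟨c, hc⟩ := hx
    intro h
    apply hc
    have := congrFun h c
    simpa using this) (fun j => by rw [hφ, hG, map_zero])
  refine ⟨T, ?_⟩
  have h1 := h.comp Sum.inl Sum.inl_injective
  have h2 : ((Sum.elim (fun (j : Fin s) (c : Fin n) =>
      aeval (fun c => φ (x c)) (pderiv c (G (T j))))
        (fun (i : {i : Fin q // ∀ j, aeval (fun c => φ (x c)) (Fd i j) = 0}) (c : Fin n) =>
          aeval (fun c => φ (x c)) (pderiv c (Fd i.1 (J i.1))))) ∘ Sum.inl) =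
      fun (j : Fin s) (c : Fin n) => φ (aeval x (pderiv c (G (T j)))) := by
    funext j c
    simp only [Function.comp, Sum.elim_inl]
    exact hφ _
  rw [h2] at h1
  rw [Fintype.linearIndependent_iff] at h1 ⊢
  intro a ha j
  have h3 := h1 (fun j => φ (a j)) (by
    funext c
    have h4 := congrArg φ (congrFun ha c)
    simp only [Finset.sum_apply, Pi.smul_apply, smul_eq_mul, Pi.zero_apply, map_sum, map_mul,
      map_zero] at h4 ⊢
    exact h4) j
  exact (map_eq_zero φ).1 h3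

/-- vectors orthogonal to the gradients are combinations of a basis -/
theorem combF {N s : ℕ} (v : Fin s → Fin (N + 1 + s) → K) (hv : LinearIndependent K v)
    (A R : Fin (N + 1) → Fin (N + 1 + s) → K) (hA : LinearIndependent K A)
    (hA0 : ∀ ρ j, ∑ c, v j c * A ρ c = 0) (hR0 : ∀ ρ j, ∑ c, v j c * R ρ c = 0) :
    ∃ Q : Matrix (Fin (N + 1)) (Fin (N + 1)) K, ∀ ρ c, R ρ c = ∑ ρ', Q ρ ρ' * A ρ' c := by
  classical
  let M := (Matrix.of v).mulVecLin
  have hM : ∀ u j, M u j = ∑ c, v j c * u c := fun u j => rfl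
  have hrank : Module.finrank K (LinearMap.range M) = s := by
    have h1 := hv.rank_matrix (M := Matrix.of v)
    rw [Fintype.card_fin] at h1
    exact h1
  have hfin : Module.finrank K (LinearMap.ker M) = N + 1 := by
    have h1 := LinearMap.finrank_range_add_finrank_ker M
    rw [hrank, Module.finrank_fin_fun] at h1
    omega
  have hAk : ∀ ρ, A ρ ∈ LinearMap.ker M := fun ρ => by
    rw [LinearMap.mem_ker]
    funext j
    exact hA0 ρ j
  have hRk : ∀ ρ, R ρ ∈ LinearMap.ker M := fun ρ => by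
    rw [LinearMap.mem_ker]
    funext j
    exact hR0 ρ j
  let A' : Fin (N + 1) → LinearMap.ker M := fun ρ => ⟨A ρ, hAk ρ⟩
  have hA' : LinearIndependent K A' := by
    refine LinearIndependent.of_comp (LinearMap.ker M).subtype ?_
    exact hA
  have hspan := hA'.span_eq_top_of_card_eq_finrank' (by rw [hfin, Fintype.card_fin])
  have h1 : ∀ ρ, ∃ q : Fin (N + 1) → K, ∑ ρ', q ρ' • A' ρ' = ⟨R ρ, hRk ρ⟩ := fun ρ =>
    (Submodule.mem_span_range_iff_exists_fun K).1 (by rw [hspan]; exact Submodule.mem_top)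
  choose Q hQ using h1
  refine ⟨Matrix.of Q, fun ρ c => ?_⟩
  have h2 := congrArg (fun u : LinearMap.ker M => (u : Fin (N + 1 + s) → K) c) (hQ ρ)
  simp only [Submodule.coe_sum, Submodule.coe_smul, Finset.sum_apply, Pi.smul_apply,
    smul_eq_mul] at h2
  rw [← h2]
  rfl

/-- gradients at proportional points -/
theorem grad_smul {n : ℕ} {f : MvPolynomial (Fin n) F} {d : ℕ} (hf : f.IsHomogeneous d)
    (a : K) (ha : a ≠ 0) (z : Fin n → K) (c : Fin n) :
    aeval (fun c => a * z c) (pderiv c f) = a ^ (d - 1) * aeval z (pderiv c f) := by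
  rcases Nat.eq_zero_or_pos d with rfl | hd
  · rw [pderiv_zero_of_hom hf, map_zero, map_zero, mul_zero]
  · exact aeval_smul_hom hf.pderiv a z

variable {k : Type} [Field k] [Algebra k K]

/-- the Pluecker coordinates do not depend on the basis -/
theorem gauss [Algebra.IsAlgebraic F K] [IsAlgClosed k] [CharZero k] [IsFF k K] {N s g q w : ℕ}
    {G : Fin g → MvPolynomial (Fin (N + 1 + s)) F} {eG : Fin g → ℕ}
    (hG : ∀ j, (G j).IsHomogeneous (eG j))
    {Fd : Fin q → Fin w → MvPolynomial (Fin (N + 1 + s)) F} (hNC : SNCF G Fd s)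
    (x : Fin (N + 1 + s) → K) (hx : ∃ c, x c ≠ 0) (hGx : ∀ j, aeval x (G j) = 0)
    (A : Matrix (Fin (N + 1 + s)) (Fin (N + 1)) K)
    (hA : LinearIndependent K (fun ρ : Fin (N + 1) => fun c : Fin (N + 1 + s) => A c ρ))
    (hA0 : ∀ j ρ, ∑ c, aeval x (pderiv c (G j)) * A c ρ = 0)
    (R : Fin (N + 1) → Fin (N + 1 + s) → K)
    (hR0 : ∀ j ρ, ∑ c, aeval x (pderiv c (G j)) * R ρ c = 0)
    (hR : ∃ J : Fin (N + 1) → Fin (N + 1 + s), (Matrix.of fun ρ b => R ρ (J b)).det ≠ 0) :
    (∃ J : Fin (N + 1) → Fin (N + 1 + s), (A.submatrix J id).det ≠ 0) ∧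
    hgtP k (fun J : Fin (N + 1) → Fin (N + 1 + s) => (A.submatrix J id).det) =
      hgtP k (fun J : Fin (N + 1) → Fin (N + 1 + s) => (Matrix.of fun ρ b => R ρ (J b)).det) := by
  obtain ⟨T, hT⟩ := exists_indep hNC x hx hGx
  obtain ⟨Q, hQ⟩ := combF _ hT (fun ρ c => A c ρ) R hA (fun ρ j => hA0 (T j) ρ)
    (fun ρ j => hR0 (T j) ρ)
  have h1 : ∀ J : Fin (N + 1) → Fin (N + 1 + s), (Matrix.of fun ρ b => R ρ (J b)).det =
      Q.det * (A.submatrix J id).det := by
    intro J
    have h2 : (Matrix.of fun ρ b => R ρ (J b)) = Q * (A.submatrix J id).transpose := by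
      ext ρ b
      rw [Matrix.of_apply, hQ, Matrix.mul_apply]
      rfl
    rw [h2, Matrix.det_mul, Matrix.det_transpose]
  obtain ⟨J, hJ⟩ := hR
  rw [h1] at hJ
  refine ⟨⟨J, right_ne_zero_of_mul hJ⟩, ?_⟩
  simp only [h1]
  exact (hgtP_smul (left_ne_zero_of_mul hJ) ⟨J, right_ne_zero_of_mul hJ⟩).symm

/-- independent rows have a nonzero minor -/
theorem exists_minor {N n : ℕ} (R : Fin (N + 1) → Fin n → K) (hR : LinearIndependent K R) :
    ∃ J : Fin (N + 1) → Fin n, (Matrix.of fun ρ b => R ρ (J b)).det ≠ 0 := by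
  classical
  have h2 := hR.rank_matrix (M := Matrix.of R)
  rw [Fintype.card_fin, Matrix.rank_eq_finrank_span_cols] at h2
  obtain ⟨f, hf, -, hli⟩ := Submodule.exists_fun_fin_finrank_span_eq K (Set.range (Matrix.of R).col)
  have hf' : ∀ s : Fin (N + 1), ∃ j, (Matrix.of R).col j = f (Fin.cast h2.symm s) := fun s => hf _
  choose J hJ using hf'
  refine ⟨J, ?_⟩
  have h4 : LinearIndependent K ((Matrix.of R).submatrix id J).col := by
    have h5 := hli.comp (Fin.cast h2.symm) (Fin.cast_injective _)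
    have h6 : ((Matrix.of R).submatrix id J).col = f ∘ (Fin.cast h2.symm) := by
      funext s
      exact hJ s
    rw [h6]
    exact h5
  have h5 : IsUnit ((Matrix.of R).submatrix id J) := Matrix.linearIndependent_cols_iff_isUnit.1 h4
  exact ((Matrix.isUnit_iff_isUnit_det _).1 h5).ne_zero

end

section form

variable {F K : Type} [Field F] [Field K] [Algebra F K]

/-- ratios of coordinates at which no form vanishes -/
theorem ratio_indep {N : ℕ} (a : Fin (N + 1) → K)
    (h : ∀ (Φ : MvPolynomial (Fin (N + 1)) F) (m : ℕ), Φ.IsHomogeneous m → Φ ≠ 0 →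
      aeval a Φ ≠ 0) :
    a 0 ≠ 0 ∧ AlgebraicIndependent F (fun ρ : Fin N => a ρ.succ / a 0) := by
  classical
  have h0 : a 0 ≠ 0 := by
    have := h (X 0) 1 (isHomogeneous_X F 0) (X_ne_zero 0)
    rwa [aeval_X] at this
  refine ⟨h0, ?_⟩
  rw [algebraicIndependent_iff]
  intro P hP
  by_contra hP0
  set D := P.totalDegree with hD
  let Φ : MvPolynomial (Fin (N + 1)) F := ∑ s ∈ P.support,
    C (P.coeff s) * (X 0 ^ (D - ∑ ρ, s ρ) * ∏ ρ : Fin N, X ρ.succ ^ s ρ)
  have hle : ∀ s ∈ P.support, ∑ ρ, s ρ ≤ D := by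
    intro s hs
    have := le_totalDegree hs
    rwa [Finsupp.sum_fintype _ _ (by simp)] at this
  have hhom : Φ.IsHomogeneous D := by
    refine IsHomogeneous.sum _ _ _ fun s hs => ?_
    have h1 : (C (P.coeff s) * (X 0 ^ (D - ∑ ρ, s ρ) * ∏ ρ : Fin N, X ρ.succ ^ s ρ) :
        MvPolynomial (Fin (N + 1)) F).IsHomogeneous (0 + ((D - ∑ ρ, s ρ) + ∑ ρ, s ρ)) :=
      (isHomogeneous_C _ _).mul ((isHomogeneous_X_pow 0 _).mul
        (IsHomogeneous.prod _ _ _ fun ρ _ => isHomogeneous_X_pow _ _))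
    rwa [zero_add, Nat.sub_add_cancel (hle s hs)] at h1
  have hΦ : Φ ≠ 0 := by
    intro hΦ0
    apply hP0
    have h1 := congrArg (aeval (Fin.cons (α := fun _ => MvPolynomial (Fin N) F) 1
      (fun ρ : Fin N => (X ρ : MvPolynomial (Fin N) F)))) hΦ0
    rw [map_sum, map_zero] at h1
    rw [← h1]
    conv_lhs => rw [P.as_sum]
    refine Finset.sum_congr rfl fun s hs => ?_
    rw [map_mul, map_mul, map_pow, map_prod, aeval_C, aeval_X, Fin.cons_zero, one_pow, one_mul,
      monomial_eq, Finsupp.prod_fintype _ _ (by simp)]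
    congr 1
    refine Finset.prod_congr rfl fun ρ _ => ?_
    rw [map_pow, aeval_X, Fin.cons_succ]
  apply h Φ D hhom hΦ
  have h2 : aeval a Φ = a 0 ^ D * aeval (fun ρ : Fin N => a ρ.succ / a 0) P := by
    rw [map_sum, aeval_def, eval₂_eq', Finset.mul_sum]
    refine Finset.sum_congr rfl fun s hs => ?_
    rw [map_mul, map_mul, map_pow, map_prod, aeval_C, aeval_X]
    have h3 : a 0 ^ D = a 0 ^ (D - ∑ ρ, s ρ) * ∏ ρ, a 0 ^ s ρ := by
      rw [Finset.prod_pow_eq_pow_sum, ← pow_add, Nat.sub_add_cancel (hle s hs)]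
    have h5 : (∏ ρ : Fin N, a 0 ^ s ρ) * (∏ ρ, (a ρ.succ / a 0) ^ s ρ) =
        ∏ ρ : Fin N, aeval a ((X ρ.succ : MvPolynomial (Fin (N + 1)) F) ^ s ρ) := by
      rw [← Finset.prod_mul_distrib]
      refine Finset.prod_congr rfl fun ρ _ => ?_
      rw [map_pow, aeval_X, ← mul_pow, mul_div_cancel₀ _ h0]
    rw [h3, ← h5]
    ring
  rw [h2, hP, mul_zero]

end form

end Pool.Agent.Y731.FG
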