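import Pool.Agent.Y731.FG.Fin2

/-!
# The sum over all places, and the inequality at almost all indices
-/

set_option autoImplicit false
set_option linter.unusedSectionVars false
set_option linter.unusedVariables false

namespace Pool.Agent.Y731.FG

open FF Filter MvPolynomial Pool.Agent.W603.LV Pool.Agent.W603.PV Pool.Agent.W603.CZ
open scoped Classical

section one

variable {k K : Type} [Field k] [Field K] [Algebra k K]

variable (k) in
/-- the places at which not all nonzero terms have the same order -/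
def uneq {M m : ℕ} (w : Fin M → Fin m → K) : Set (Place k K) :=
  {P | ∃ c j c' j', w c j ≠ 0 ∧ w c' j' ≠ 0 ∧ P.ord (w c j) ≠ P.ord (w c' j')}

variable [CharZero k] [IsFF k K]

theorem uneq_finite {M m : ℕ} (w : Fin M → Fin m → K) : (uneq k w).Finite := by
  have h1 : (⋃ c : Fin M, ⋃ j : Fin m, {P : Place k K | P.ord (w c j) ≠ 0}).Finite :=
    Set.finite_iUnion fun c => Set.finite_iUnion fun j => finite_support (w c j)
  refine h1.subset ?_
  rintro P ⟨c, j, c', j', -, -, hne⟩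
  by_contra hcon
  apply hne
  have h2 : ∀ c j, P.ord (w c j) = 0 := by
    intro c j
    by_contra h
    exact hcon (Set.mem_iUnion.2 ⟨c, Set.mem_iUnion.2 ⟨j, h⟩⟩)
  rw [h2, h2]

/-- **The sum over all places.** -/
theorem final_sum {F : Type} [Field F] [Algebra F K] {N M q w : ℕ}
    (Fd : Fin q → Fin w → MvPolynomial (Fin M) F) (d : Fin q → Fin w → ℕ)
    (x : Fin M → K) (hx : ∃ c, x c ≠ 0) (hFx : ∀ i, ∃ j, aeval x (Fd i j) ≠ 0)
    {ι : Type} [Finite ι] (μ : ι → K) (hμ : ∃ J, μ J ≠ 0) (e : Place k K → ℤ) (b : ℝ)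
    (hb : ∀ T : Finset (Place k K), ((∑ P ∈ T, e P : ℤ) : ℝ) ≤ b)
    (h : ∀ P, ∀ J, μ J ≠ 0 → ∑ i, locH (Fd i) (d i) P x + (N + 1) * minOrd P x -
      (if ∃ i, 0 < locH (Fd i) (d i) P x then 1 else 0) - e P ≤ P.ord (μ J)) :
    ((hgtP k μ - (N + 1) * hgtP k x + ∑ i, ∑ᶠ P : Place k K, locH (Fd i) (d i) P x : ℤ) : ℝ) ≤
      ({P : Place k K | ∃ i, 0 < locH (Fd i) (d i) P x}.ncard : ℝ) + b := by
  have hf1 : (⋃ i : Fin q, {P : Place k K | locH (Fd i) (d i) P x ≠ 0}).Finite :=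
    Set.finite_iUnion fun i => locH_finite hx (hFx i)
  have hf2 := minOrd_finite (k := k) hx
  have hf3 := minOrd_finite (k := k) hμ
  set T := ((hf1.union hf2).union hf3).toFinset with hT
  have hT1 : ∀ i P, locH (Fd i) (d i) P x ≠ 0 → P ∈ T := by
    intro i P hP
    rw [hT, Set.Finite.mem_toFinset]
    exact Or.inl (Or.inl (Set.mem_iUnion.2 ⟨i, hP⟩))
  have hT2 : ∀ P, minOrd P x ≠ 0 → P ∈ T := by
    intro P hP
    rw [hT, Set.Finite.mem_toFinset]
    exact Or.inl (Or.inr hP)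
  have hT3 : ∀ P, minOrd P μ ≠ 0 → P ∈ T := by
    intro P hP
    rw [hT, Set.Finite.mem_toFinset]
    exact Or.inr hP
  have h1 : ∀ P ∈ T, ∑ i, locH (Fd i) (d i) P x + (N + 1) * minOrd P x -
      (if ∃ i, 0 < locH (Fd i) (d i) P x then 1 else 0) - e P ≤ minOrd P μ := by
    intro P _
    obtain ⟨J, hJ, hJm⟩ := exists_minOrd P hμ
    rw [← hJm]
    exact h P J hJ
  have h2 := Finset.sum_le_sum h1
  rw [Finset.sum_sub_distrib, Finset.sum_sub_distrib, Finset.sum_add_distrib, ← Finset.mul_sum,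
    Finset.sum_comm] at h2
  have h3 : ∀ i, ∑ᶠ P : Place k K, locH (Fd i) (d i) P x = ∑ P ∈ T, locH (Fd i) (d i) P x := by
    intro i
    rw [finsum_eq_sum_of_support_subset (s := T)]
    exact fun P hP => hT1 i P hP
  have h4 : (∑ P ∈ T, (if ∃ i, 0 < locH (Fd i) (d i) P x then 1 else 0) : ℤ) =
      ({P : Place k K | ∃ i, 0 < locH (Fd i) (d i) P x}.ncard : ℤ) := by
    rw [Finset.sum_boole, ← Set.ncard_coe_finset]
    congr 2
    ext P
    simp only [Finset.coe_filter, Set.mem_ofPred_eq, and_iff_right_iff_imp]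
    rintro ⟨i, hi⟩
    exact hT1 i P hi.ne'
  rw [h4] at h2
  have h5 := hb T
  have h6 : (hgtP k μ - (N + 1) * hgtP k x + ∑ i, ∑ᶠ P : Place k K, locH (Fd i) (d i) P x : ℤ) ≤
      ({P : Place k K | ∃ i, 0 < locH (Fd i) (d i) P x}.ncard : ℤ) + ∑ P ∈ T, e P := by
    rw [hgtP_finset hμ T hT3, hgtP_finset hx T hT2, Finset.sum_congr rfl fun i _ => h3 i]
    linarith
  have h7 : ((hgtP k μ - (N + 1) * hgtP k x + ∑ i, ∑ᶠ P : Place k K, locH (Fd i) (d i) P x : ℤ) : ℝ)
      ≤ ((({P : Place k K | ∃ i, 0 < locH (Fd i) (d i) P x}.ncard : ℤ) + ∑ P ∈ T, e P : ℤ) : ℝ) := by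
    exact_mod_cast h6
  refine h7.trans ?_
  push_cast at h5 ⊢
  linarith

end one

end Pool.Agent.Y731.FG
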