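import Pool.Agent.Y731.FG.Fin3

/-!
# The inequality at almost all indices
-/

set_option autoImplicit false
set_option linter.unusedSectionVars false
set_option linter.unusedVariables false

namespace Pool.Agent.Y731.FG

open FF Filter MvPolynomial Pool.Agent.W603.LV Pool.Agent.W603.PV Pool.Agent.W603.CZ
open scoped Classical

section many

variable {I : Type} {𝒰 : Ultrafilter I} {k F : Type} [Field k] [IsAlgClosed k] [CharZero k]
  [Field F] {L : I → Type} [∀ i, Field (L i)] [∀ i, Algebra k (L i)] [∀ i, Algebra F (L i)]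
  [∀ i, IsFF k (L i)]

/-- the ratios of the terms -/
theorem lu_ratio (Δ : Dt 𝒰 k F L) {M m : ℕ} (wt : ∀ i, Fin M → Fin m → L i) (B : ℕ)
    (hw : ∀ᶠ i in (𝒰 : Filter I), ((uneq k (wt i)).ncard : ℤ) ≤ B * Δ.χ i) (c : Fin M) (j : Fin m)
    (c' : Fin M) (j' : Fin m) (h : um 𝒰 (fun i => wt i c j) ≠ 0)
    (h' : um 𝒰 (fun i => wt i c' j') ≠ 0) :
    LU Δ (um 𝒰 (fun i => wt i c j) / um 𝒰 (fun i => wt i c' j')) := by
  refine ⟨div_ne_zero h h', B, ?_⟩
  have h3 := ev_iff.1 (oo_div (k := k) h h')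
  have h4 := ev_iff.1 (oo_um (𝒰 := 𝒰) (k := k) fun i => wt i c j)
  have h5 := ev_iff.1 (oo_um (𝒰 := 𝒰) (k := k) fun i => wt i c' j')
  filter_upwards [hw, h3, h4, h5, um_ne_iff.1 h, um_ne_iff.1 h'] with i h6 h7 h8 h9 h10 h11 T
  refine le_trans ?_ h6
  have h12 : ∀ P : Place k (L i), (if oo (um 𝒰 (fun i => wt i c j) / um 𝒰 (fun i => wt i c' j'))
      (⟨i, P⟩ : Om k L) = 0 then (0 : ℤ) else 1) =
      if P.ord (wt i c j) ≠ P.ord (wt i c' j') then 1 else 0 := by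
    intro P
    rw [h7, h8, h9]
    by_cases h13 : P.ord (wt i c j) = P.ord (wt i c' j')
    · rw [if_pos (by show P.ord (wt i c j) - P.ord (wt i c' j') = 0; rw [h13, sub_self]),
        if_neg (not_not.2 h13)]
    · rw [if_neg (by show ¬ P.ord (wt i c j) - P.ord (wt i c' j') = 0; rw [sub_eq_zero]; exact h13),
        if_pos h13]
  rw [Finset.sum_congr rfl fun P _ => h12 P, Finset.sum_boole, ← Set.ncard_coe_finset]
  refine Int.ofNat_le.2 (Set.ncard_le_ncard ?_ (uneq_finite (wt i)))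
  intro P hP
  rw [Finset.coe_filter, Set.mem_ofPred_eq] at hP
  exact ⟨c, j, c', j', h10, h11, hP.2⟩

/-- heights are nonnegative -/
theorem hgtP_nonneg {K : Type} [Field K] [Algebra k K] [IsFF k K] {ι : Type} [Finite ι] {x : ι → K}
    (hx : ∃ c, x c ≠ 0) : 0 ≤ hgtP k x := by
  obtain ⟨c, hc⟩ := hx
  have hf1 := (finite_support (k := k) (x c)).union (minOrd_finite (k := k) ⟨c, hc⟩)
  have h1 := sum_ord_finset (k := k) (x c) hf1.toFinset (fun P hP => by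
    rw [Set.Finite.mem_toFinset]
    exact Or.inl hP)
  rw [hgtP_finset ⟨c, hc⟩ hf1.toFinset (fun P hP => by
    rw [Set.Finite.mem_toFinset]
    exact Or.inr hP)]
  have h2 := Finset.sum_le_sum fun (P : Place k K) (_ : P ∈ hf1.toFinset) => minOrd_le P hc
  linarith

/-- **The inequality at almost all indices.** -/
theorem ultra [CharZero F] [∀ i, Algebra.IsAlgebraic F (L i)] (Δ : Dt 𝒰 k F L)
    (hLOC : S_LOC Δ) (hRP : S_RP Δ) (hHT : S_HT Δ) (hSD : S_SD)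
    {N s g q w m : ℕ} (G : Fin g → MvPolynomial (Fin (N + 1 + s)) F) (eG : Fin g → ℕ)
    (Fd : Fin q → Fin w → MvPolynomial (Fin (N + 1 + s)) F) (d : Fin q → Fin w → ℕ)
    (hG : ∀ j, (G j).IsHomogeneous (eG j)) (hF : ∀ i j, (Fd i j).IsHomogeneous (d i j))
    (hNC : SNCF G Fd s) (J0 : Fin (N + 1) → Fin (N + 1 + s))
    (x : ∀ i, Fin (N + 1 + s) → L i) (wt : ∀ i, Fin (N + 1 + s) → Fin m → L i)
    (A : ∀ i, Matrix (Fin (N + 1 + s)) (Fin (N + 1)) (L i))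
    (hGx : ∀ i j, aeval (x i) (G j) = 0)
    (hFx : ∀ i i', ∃ j, aeval (x i) (Fd i' j) ≠ 0)
    (hxw : ∀ i c, x i c = ∑ j, wt i c j)
    (hA : ∀ i, LinearIndependent (L i) (fun ρ : Fin (N + 1) => fun c : Fin (N + 1 + s) => A i c ρ))
    (hA0 : ∀ i j ρ, ∑ c, aeval (x i) (pderiv c (G j)) * A i c ρ = 0)
    (hgen : ∀ (Φ : MvPolynomial (Fin (N + 1)) F) (n : ℕ), Φ.IsHomogeneous n → Φ ≠ 0 →
      ∀ᶠ i in (𝒰 : Filter I), aeval (fun ρ => x i (J0 ρ)) Φ ≠ 0)
    (B : ℕ) (hw : ∀ᶠ i in (𝒰 : Filter I), ((uneq k (wt i)).ncard : ℤ) ≤ B * Δ.χ i)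
    (ε : ℝ) (hε : 0 < ε) :
    ∃ C : ℝ, ∀ᶠ i in (𝒰 : Filter I),
      ((hgtP k (fun J : Fin (N + 1) → Fin (N + 1 + s) => ((A i).submatrix J id).det) -
        (N + 1) * hgtP k (x i) +
          ∑ i', ∑ᶠ P : Place k (L i), locH (Fd i') (d i') P (x i) : ℤ) : ℝ) ≤
      ({P : Place k (L i) | ∃ i', 0 < locH (Fd i') (d i') P (x i)}.ncard : ℝ) +
        ε * hgtP k (x i) + C * Δ.χ i := by
  -- the point of the ultraproduct
  set xu : Fin (N + 1 + s) → UL 𝒰 L := fun c => um 𝒰 (fun i => x i c) with hxu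
  set wu : Fin (N + 1 + s) → Fin m → UL 𝒰 L := fun c j => um 𝒰 (fun i => wt i c j) with hwu
  have hsum : ∀ c, xu c = ∑ j, wu c j := by
    intro c
    rw [hxu, hwu]
    simp only
    rw [← um_sum]
    exact um_eq.2 (Eventually.of_forall fun i => hxw i c)
  have hgenu : ∀ (Φ : MvPolynomial (Fin (N + 1)) F) (n : ℕ), Φ.IsHomogeneous n → Φ ≠ 0 →
      aeval (fun ρ => xu (J0 ρ)) Φ ≠ 0 := by
    intro Φ n h1 h2
    rw [hxu]
    simp only
    rw [← um_aeval, um_ne_iff]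
    exact hgen Φ n h1 h2
  obtain ⟨hx0, hxalg⟩ := ratio_indep (F := F) (fun ρ => xu (J0 ρ)) hgenu
  obtain ⟨t, u, y, lm, hU, hlm, hxy, hcop, hspn⟩ := hRP _ m xu wu hsum ⟨J0 0, hx0⟩
    (fun c j c' j' h h' => lu_ratio Δ wt B hw c j c' j' h h')
  set z : Fin (N + 1 + s) → UL 𝒰 L := fun c => aeval u (y c) with hz
  have hxz : xu = fun c => lm * z c := funext hxy
  have hz0 : ∀ ρ, xu (J0 ρ) = lm * z (J0 ρ) := fun ρ => by rw [hxz]
  have hz00 : z (J0 0) ≠ 0 := by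
    intro h
    apply hx0
    show xu (J0 0) = 0
    rw [hz0, h, mul_zero]
  have hy0 : ∃ c, y c ≠ 0 := ⟨J0 0, fun h => hz00 (by rw [hz]; simp only; rw [h, map_zero])⟩
  have hGz : ∀ j, aeval z (G j) = 0 := by
    intro j
    have h1 : aeval xu (G j) = 0 := by
      rw [hxu]
      rw [← um_aeval, um_zero_iff]
      exact Eventually.of_forall fun i => hGx i j
    rw [hxz, aeval_smul_hom (hG j)] at h1
    exact (mul_eq_zero.1 h1).resolve_left (pow_ne_zero _ hlm)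
  have hFz : ∀ i', ∃ j, aeval z (Fd i' j) ≠ 0 := by
    intro i'
    by_contra hcon
    push Not at hcon
    have h1 : ∀ j, ∀ᶠ i in (𝒰 : Filter I), aeval (x i) (Fd i' j) = 0 := by
      intro j
      have h2 : aeval xu (Fd i' j) = 0 := by
        rw [hxz, aeval_smul_hom (hF i' j), hcon, mul_zero]
      rw [hxu, ← um_aeval, um_zero_iff] at h2
      exact h2
    obtain ⟨i, hi⟩ := (eventually_all.2 h1).exists
    obtain ⟨j, hj⟩ := hFx i i'
    exact hj (hi j)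
  -- derivations
  obtain ⟨δ, hδ, hli⟩ := hSD Δ.E t u hU.2 N (N + 1 + s) y J0 hz00 (by
    have h1 : (fun ρ : Fin N => aeval u (y (J0 ρ.succ)) / aeval u (y (J0 0))) =
        fun ρ : Fin N => xu (J0 ρ.succ) / xu (J0 0) := by
      funext ρ
      rw [hz0, hz0, mul_div_mul_left _ _ hlm]
    rw [h1]
    exact hxalg)
  obtain ⟨e, he, hloc⟩ := hLOC t u hU N s g q w G eG Fd d hG hF hNC y hy0 hcop hGz hFz δ hδ
  obtain ⟨c0, hc0⟩ := hHT t u hU (N + 1 + s) y hy0 hcop hspn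
  obtain ⟨B1, hB1⟩ := he (ε / (c0 + 1)) (by positivity)
  -- the rows
  set τ : Fin (N + 1) → Fin (N + 1 + s) → UL 𝒰 L := tauM u y (fun ρ' => δ ρ') with hτ
  have hτ0 : ∀ j ρ, ∑ c, aeval z (pderiv c (G j)) * τ ρ c = 0 := by
    intro j ρ
    have h1 := row_grad Δ.E u y δ (hG j) 1 ρ
    simp only [div_one, one_pow] at h1
    have h2 : aeval y (G j) = 0 := by
      have h3 : Function.Injective (aeval u : MvPolynomial (Fin t) Δ.E →ₐ[Δ.E] UL 𝒰 L) := hU.2
      apply h3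
      rw [map_zero, ← aeval_comp]
      exact hGz j
    rw [h2] at h1
    rw [Finset.sum_congr rfl fun c _ => mul_comm _ _, hτ, hz]
    rw [h1]
    refine Fin.cases ?_ (fun ρ' => ?_) ρ
    · rw [Fin.cons_zero, mul_zero, map_zero]
    · rw [Fin.cons_succ, map_zero, map_zero]
  obtain ⟨J1, hJ1⟩ := exists_minor τ hli
  -- almost all indices
  have e1 : ∀ᶠ i in (𝒰 : Filter I), ∀ c, rep (xu c) i = x i c :=
    eventually_all.2 fun c => rep_um _
  have e2 : ∀ᶠ i in (𝒰 : Filter I), ∀ c, rep (xu c) i = rep lm i * rep (z c) i :=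
    eventually_all.2 fun c => by rw [hxz]; exact rep_mul _ _
  have e3 : ∀ᶠ i in (𝒰 : Filter I), ∀ j ρ,
      ∑ c, aeval (fun c => rep (z c) i) (pderiv c (G j)) * rep (τ ρ c) i = 0 := by
    refine eventually_all.2 fun j => eventually_all.2 fun ρ => ?_
    have h1 : um 𝒰 (fun i => ∑ c, aeval (fun c => rep (z c) i) (pderiv c (G j)) *
        rep (τ ρ c) i) = 0 := by
      rw [um_sum, ← hτ0 j ρ]
      refine Finset.sum_congr rfl fun c _ => ?_
      have h2 : um 𝒰 (fun i => aeval (fun c => rep (z c) i) (pderiv c (G j))) =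
          aeval z (pderiv c (G j)) := by
        have h3 : (fun c => um 𝒰 (rep (z c))) = z := funext fun c => um_rep (z c)
        rw [um_aeval 𝒰 (fun c => rep (z c)), h3]
      rw [um_mul, h2, um_rep]
    exact um_zero_iff.1 h1
  have e4 : ∀ᶠ i in (𝒰 : Filter I), ∀ J : Fin (N + 1) → Fin (N + 1 + s),
      rep (Matrix.of fun ρ b => τ ρ (J b)).det i = (Matrix.of fun ρ b => rep (τ ρ (J b)) i).det :=
    eventually_all.2 fun J => rep_det _
  have e5 : ∀ᶠ i in (𝒰 : Filter I), ∀ J : Fin (N + 1) → Fin (N + 1 + s),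
      (Matrix.of fun ρ b => τ ρ (J b)).det ≠ 0 ↔
        rep (Matrix.of fun ρ b => τ ρ (J b)).det i ≠ 0 := rep_ne_iff _
  have e6 : ∀ᶠ i in (𝒰 : Filter I), ∀ i', ∀ P : Place k (L i),
      lam (Fd i') (d i') z (⟨i, P⟩ : Om k L) = locH (Fd i') (d i') P (fun c => rep (z c) i) :=
    eventually_all.2 fun i' => lam_eq _ _ _
  refine ⟨ε + B1, ?_⟩
  filter_upwards [e1, e2, e3, e4, e5, e6, rep_ne hlm, mo_eq (k := k) z, hp_eq (k := k) z,
    ev_iff.1 hloc, hc0, hB1, rep_ne hz00, Δ.nonneg] with i f1 f2 f3 f4 f5 f6 f7 f8 f9 f10 f11 f12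
      f13 f14
  obtain ⟨zi, hzi⟩ : ∃ zi : Fin (N + 1 + s) → L i, zi = fun c => rep (z c) i := ⟨_, rfl⟩
  obtain ⟨τi, hτi⟩ : ∃ τi : Fin (N + 1) → Fin (N + 1 + s) → L i,
    τi = fun ρ c => rep (τ ρ c) i := ⟨_, rfl⟩
  have hz1 : ∃ c, zi c ≠ 0 := ⟨J0 0, by rw [hzi]; exact f13⟩
  have hxi : x i = fun c => rep lm i * zi c := by
    funext c
    rw [← f1, f2, hzi]
  have hx1 : ∃ c, x i c ≠ 0 := ⟨J0 0, by rw [hxi, hzi]; exact mul_ne_zero f7 f13⟩
  have hh : hgtP k (x i) = hgtP k zi := by rw [hxi]; exact hgtP_smul f7 hz1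
  have hlH : ∀ i' (P : Place k (L i)), locH (Fd i') (d i') P (x i) = locH (Fd i') (d i') P zi := by
    intro i' P
    rw [hxi]
    exact locH_smul P (hF i') f7 hz1
  have hτ1 : ∀ j ρ, ∑ c, aeval (x i) (pderiv c (G j)) * τi ρ c = 0 := by
    intro j ρ
    have h1 : ∀ c, aeval (x i) (pderiv c (G j)) * τi ρ c =
        rep lm i ^ (eG j - 1) * (aeval zi (pderiv c (G j)) * τi ρ c) := by
      intro c
      rw [hxi, grad_smul (hG j) _ f7, mul_assoc]
    rw [Finset.sum_congr rfl fun c _ => h1 c, ← Finset.mul_sum]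
    have h2 := f3 j ρ
    rw [← hzi] at h2
    have h3 : ∑ c, aeval zi (pderiv c (G j)) * τi ρ c = 0 := by
      rw [← h2]
      refine Finset.sum_congr rfl fun c _ => ?_
      rw [hτi]
    rw [h3, mul_zero]
  have hdet : ∀ J : Fin (N + 1) → Fin (N + 1 + s), (Matrix.of fun ρ b => τi ρ (J b)).det =
      rep (Matrix.of fun ρ b => τ ρ (J b)).det i := by
    intro J
    rw [f4, hτi]
  have hR : ∃ J : Fin (N + 1) → Fin (N + 1 + s), (Matrix.of fun ρ b => τi ρ (J b)).det ≠ 0 :=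
    ⟨J1, by rw [hdet]; exact (f5 J1).1 hJ1⟩
  obtain ⟨hAJ, hga⟩ := gauss (k := k) hG hNC (x i) hx1 (hGx i) (A i) (hA i) (hA0 i) τi hτ1 hR
  have hFzi : ∀ i', ∃ j, aeval zi (Fd i' j) ≠ 0 := by
    intro i'
    obtain ⟨j, hj⟩ := hFx i i'
    rw [hxi, aeval_smul_hom (hF i' j)] at hj
    exact ⟨j, right_ne_zero_of_mul hj⟩
  have hfin := final_sum (N := N) Fd d zi hz1 hFzi
    (fun J : Fin (N + 1) → Fin (N + 1 + s) => (Matrix.of fun ρ b => τi ρ (J b)).det) hR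
    (fun P => e ⟨i, P⟩) _ f12 (by
      intro P J hJ
      have hJ' : (Matrix.of fun ρ b => τ ρ (J b)).det ≠ 0 := by
        rw [f5, ← hdet]
        exact hJ
      have hinj : Function.Injective J := by
        intro a b hab
        by_contra hne
        apply hJ'
        refine Matrix.det_zero_of_column_eq hne fun ρ => ?_
        rw [Matrix.of_apply, Matrix.of_apply, hab]
      have h1 := f10 P J hinj hJ'
      have h2 : oo (Matrix.of fun ρ b => τ ρ (J b)).det (⟨i, P⟩ : Om k L) =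
          P.ord (Matrix.of fun ρ b => τi ρ (J b)).det := by
        rw [hdet]
        rfl
      have h3 : ∀ i', lam (Fd i') (d i') z (⟨i, P⟩ : Om k L) = locH (Fd i') (d i') P zi := by
        intro i'
        rw [f6, hzi]
      have h4 : mo z (⟨i, P⟩ : Om k L) = minOrd P zi := by
        rw [f8, hzi]
      have h5 : (∑ i', lam (Fd i') (d i') z (⟨i, P⟩ : Om k L)) =
          ∑ i', locH (Fd i') (d i') P zi := Finset.sum_congr rfl fun i' _ => h3 i'
      have h6 : (∃ i', 0 < lam (Fd i') (d i') z (⟨i, P⟩ : Om k L)) ↔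
          ∃ i', 0 < locH (Fd i') (d i') P zi := exists_congr fun i' => by rw [h3]
      have h1' : (∑ i', lam (Fd i') (d i') z (⟨i, P⟩ : Om k L)) + (N + 1) *
          mo z (⟨i, P⟩ : Om k L) - (if ∃ i', 0 < lam (Fd i') (d i') z (⟨i, P⟩ : Om k L)
            then 1 else 0) - e ⟨i, P⟩ ≤ oo (Matrix.of fun ρ b => τ ρ (J b)).det ⟨i, P⟩ := h1
      rw [h5, h4, h2] at h1'
      simp only [h6] at h1'
      exact h1')
  rw [hga, hh]
  simp only [hlH]
  refine hfin.trans ?_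
  rw [f9, ← hzi] at f11
  have g1 : ((Hu k u i : ℤ) : ℝ) ≤ c0 * (hgtP k zi + Δ.χ i) := by exact_mod_cast f11
  have g2 : (0 : ℝ) ≤ hgtP k zi := by exact_mod_cast hgtP_nonneg hz1
  have g3 : (0 : ℝ) ≤ Δ.χ i := by exact_mod_cast f14
  have g4 : ε / (c0 + 1) * (Hu k u i : ℝ) ≤ ε * (hgtP k zi + Δ.χ i) := by
    have g5 : (c0 : ℝ) * (hgtP k zi + Δ.χ i) ≤ (c0 + 1) * (hgtP k zi + Δ.χ i) := by
      have : (0 : ℝ) ≤ hgtP k zi + Δ.χ i := by positivity
      linarith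
    calc ε / (c0 + 1) * (Hu k u i : ℝ) ≤ ε / (c0 + 1) * ((c0 + 1) * (hgtP k zi + Δ.χ i)) :=
          mul_le_mul_of_nonneg_left (g1.trans g5) (by positivity)
      _ = ε * (hgtP k zi + Δ.χ i) := by field_simp
  linarith

end many

end Pool.Agent.Y731.FG
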