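import Pool.Agent.Y731.FG.Loc1

/-!
# Local inequalities: integrality
-/

set_option autoImplicit false
set_option linter.unusedSectionVars false
set_option linter.unusedVariables false

namespace Pool.Agent.Y731.FG

open FF Filter MvPolynomial Pool.Agent.W603.LV Pool.Agent.W603.PV Pool.Agent.W603.CZ
open scoped Classical

variable {I : Type} {𝒰 : Ultrafilter I} {k F : Type} [Field k] [IsAlgClosed k] [CharZero k]
  [Field F] {L : I → Type} [∀ i, Field (L i)] [∀ i, Algebra k (L i)] [∀ i, Algebra F (L i)]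
  [∀ i, IsFF k (L i)]

section mem

variable (Δ : Dt 𝒰 k F L) {H : I → ℤ} (hH : ∀ᶠ i in (𝒰 : Filter I), 0 ≤ H i) {Q : Set (Om k L)}

theorem Dt.A_mono {Q Q' : Set (Om k L)} (h : Q ⊆ Q') {z : UL 𝒰 L} (hz : z ∈ Δ.A H hH Q') :
    z ∈ Δ.A H hH Q := by
  obtain ⟨e, he, h1⟩ := hz
  exact ⟨e, he, h1.mono fun ω h2 h3 => h2 (h h3)⟩

theorem Dt.div_mem {z w : UL 𝒰 L} (hw : w ≠ 0) {e : Om k L → ℤ} (he : Ng 𝒰 Δ.χ H e)
    (h : ∀ᶠ ω in EV 𝒰 k L, ω ∈ Q → (z = 0 ∨ oo w ω - e ω ≤ oo z ω)) :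
    z / w ∈ Δ.A H hH Q := by
  by_cases hz : z = 0
  · rw [hz, zero_div]
    exact zero_mem _
  refine ⟨e, he, ?_⟩
  filter_upwards [h, oo_div hz hw] with ω h1 h2 h3
  right
  rw [h2]
  have := (h1 h3).resolve_left hz
  linarith

theorem Dt.inv_mem {w : UL 𝒰 L} (hw : w ≠ 0) {e : Om k L → ℤ} (he : Ng 𝒰 Δ.χ H e)
    (h : ∀ᶠ ω in EV 𝒰 k L, ω ∈ Q → oo w ω ≤ e ω) : w⁻¹ ∈ Δ.A H hH Q := by
  refine ⟨e, he, ?_⟩
  filter_upwards [h, oo_inv w] with ω h1 h2 h3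
  right
  rw [h2]
  have := h1 h3
  linarith

/-- values of polynomials at the places where all `u j` are units -/
theorem Dt.poly_mem (hLOW : S_LOW Δ) {t : ℕ} {u : Fin t → UL 𝒰 L} (hu : ∀ j, u j ≠ 0)
    (hQ : ∀ ω ∈ Q, ω ∉ Tu u) (f : MvPolynomial (Fin t) Δ.E) : aeval u f ∈ Δ.A H hH Q := by
  obtain ⟨e, he, h1⟩ := hLOW t u hu f
  refine ⟨e, he.ng hH, ?_⟩
  have h2 : ∀ᶠ ω in EV 𝒰 k L, ∀ s ∈ f.support, oo (mon u s) ω = ∑ j, oo (u j ^ s j) ω :=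
    (Filter.eventually_all_finset _).2 fun s _ => oo_prod _ _ fun j _ => pow_ne_zero _ (hu j)
  have h3 : ∀ᶠ ω in EV 𝒰 k L, ∀ s ∈ f.support, ∀ j, oo (u j ^ s j) ω = s j * oo (u j) ω :=
    (Filter.eventually_all_finset _).2 fun s _ => eventually_all.2 fun j => oo_pow _ _
  filter_upwards [h1, h2, h3] with ω h4 h5 h6 h7
  have h8 := h4 0 (by
    intro s hs
    rw [h5 s hs]
    refine le_of_eq (Finset.sum_eq_zero fun j _ => ?_).symm
    rw [h6 s hs]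
    have h9 : oo (u j) ω = 0 := by
      by_contra h
      exact hQ ω h7 ⟨j, h⟩
    rw [h9, mul_zero])
  rwa [zero_sub] at h8

/-- special derivations do not enlarge supports -/
theorem support_sd {E : Type} [Field E] {t : ℕ}
    {δ : MvPolynomial (Fin t) E →+ MvPolynomial (Fin t) E} (hδ : IsSd δ)
    (f : MvPolynomial (Fin t) E) : (δ f).support ⊆ f.support := by
  choose b hb using hδ
  have h1 : δ f = ∑ s ∈ f.support, monomial s (b s (coeff s f)) := by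
    conv_lhs => rw [f.as_sum, map_sum]
    exact Finset.sum_congr rfl fun s _ => hb _ _
  intro s hs
  rw [mem_support_iff, h1, coeff_sum] at hs
  by_contra hcon
  apply hs
  refine Finset.sum_eq_zero fun s' hs' => ?_
  rw [coeff_monomial, if_neg]
  rintro rfl
  exact hcon hs'

/-- logarithmic derivatives at the places where some `u j` is not a unit -/
theorem Dt.dlog_mem (hLOW : S_LOW Δ) (hC : S_C Δ) {t : ℕ} {u : Fin t → UL 𝒰 L} (hU : Δ.IsU u)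
    (hQ : ∀ ω ∈ Q, ω ∈ Tu u) {δ : MvPolynomial (Fin t) Δ.E →+ MvPolynomial (Fin t) Δ.E}
    (hδ : IsSd δ) (f : MvPolynomial (Fin t) Δ.E) :
    aeval u (δ f) / aeval u f ∈ Δ.A H hH Q := by
  by_cases hf : f = 0
  · rw [hf, map_zero, map_zero, zero_div]
    exact zero_mem _
  have hf' : aeval u f ≠ 0 := by
    intro h
    exact hf (hU.2 (by rw [map_zero]; exact h))
  obtain ⟨e, he, h1⟩ := hLOW t u (fun j => (hU.1 j).1) (δ f)
  obtain ⟨e', he', h2⟩ := hC t u hU f hf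
  refine Δ.div_mem hH hf' (e := fun ω => e ω + e' ω) ((he.add he').ng hH) ?_
  filter_upwards [h1, h2] with ω h3 h4 h5
  have h6 := h3 (oo (aeval u f) ω - e' ω) (fun s hs => by
    have := h4 (hQ ω h5) s (support_sd hδ f hs)
    linarith)
  rcases h6 with h6 | h6
  · exact Or.inl h6
  · right
    linarith

end mem

section extract

variable (Δ : Dt 𝒰 k F L) {H : I → ℤ} (hH : ∀ᶠ i in (𝒰 : Filter I), 0 ≤ H i) {Q : Set (Om k L)}

theorem Dt.extract {q N : ℕ} {z τ v : UL 𝒰 L} (hz : z ≠ 0) (hτ : τ ≠ 0) (hv : v ≠ 0)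
    {P : Fin q → UL 𝒰 L} (hP : ∀ i, P i ≠ 0)
    (h : ∃ w ∈ Δ.A H hH Q, z * (τ / v ^ N) = (∏ i, P i) * w) :
    ∃ e, Ng 𝒰 Δ.χ H e ∧ ∀ᶠ ω in EV 𝒰 k L, ω ∈ Q →
      ∑ i, oo (P i) ω + N * oo v ω - oo z ω - e ω ≤ oo τ ω := by
  obtain ⟨w, ⟨e, he, h1⟩, h2⟩ := h
  have hw : w ≠ 0 := by
    rintro rfl
    rw [mul_zero] at h2
    exact mul_ne_zero hz (div_ne_zero hτ (pow_ne_zero _ hv)) h2
  refine ⟨e, he, ?_⟩
  filter_upwards [h1, oo_mul hz (div_ne_zero hτ (pow_ne_zero N hv)),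
    oo_div hτ (pow_ne_zero N hv), oo_pow (k := k) v N,
    oo_mul (Finset.prod_ne_zero_iff.2 fun i (_ : i ∈ Finset.univ) => hP i) hw,
    oo_prod (k := k) Finset.univ P (fun i _ => hP i)] with ω a1 a2 a3 a4 a5 a6 hω
  have a7 := (a1 hω).resolve_left hw
  rw [h2, a5, a3, a4, a6] at a2
  linarith

end extract

end Pool.Agent.Y731.FG
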