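import Pool.Agent.Y731.FG.Loc2

/-!
# Local inequalities: the core
-/

set_option autoImplicit false
set_option linter.unusedSectionVars false
set_option linter.unusedVariables false

namespace Pool.Agent.Y731.FG

open FF Filter MvPolynomial Pool.Agent.W603.LV Pool.Agent.W603.PV Pool.Agent.W603.CZ
open scoped Classical

variable {I : Type} {𝒰 : Ultrafilter I} {k F : Type} [Field k] [IsAlgClosed k] [CharZero k]
  [Field F] {L : I → Type} [∀ i, Field (L i)] [∀ i, Algebra k (L i)] [∀ i, Algebra F (L i)]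
  [∀ i, IsFF k (L i)]

/-- the situation of the local inequalities -/
structure Cx (Δ : Dt 𝒰 k F L) (t N s g q w : ℕ) where
  u : Fin t → UL 𝒰 L
  hU : Δ.IsU u
  G : Fin g → MvPolynomial (Fin (N + 1 + s)) F
  eG : Fin g → ℕ
  Fd : Fin q → Fin w → MvPolynomial (Fin (N + 1 + s)) F
  d : Fin q → Fin w → ℕ
  hG : ∀ k, (G k).IsHomogeneous (eG k)
  hF : ∀ i j, (Fd i j).IsHomogeneous (d i j)
  hNC : SNCF G Fd s
  y : Fin (N + 1 + s) → MvPolynomial (Fin t) Δ.E
  hy : ∃ c, y c ≠ 0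
  cop : ∀ p, Irreducible p → ∃ c, ¬ p ∣ y c
  onX : ∀ k, aeval (fun c => aeval u (y c)) (G k) = 0
  offD : ∀ i, ∃ j, aeval (fun c => aeval u (y c)) (Fd i j) ≠ 0
  δ : Fin N → Derivation F (MvPolynomial (Fin t) Δ.E) (MvPolynomial (Fin t) Δ.E)
  hδ : ∀ ρ, IsSd (δ ρ)

namespace Cx

variable {Δ : Dt 𝒰 k F L} {t N s g q w : ℕ} (X : Cx Δ t N s g q w)

/-- the point -/
noncomputable def x (c : Fin (N + 1 + s)) : UL 𝒰 L := aeval X.u (X.y c)

/-- the tangent vectors -/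
noncomputable def V (ρ : Fin (N + 1)) (a : Fin (N + 1 + s)) : UL 𝒰 L :=
  tauM X.u X.y (fun ρ' => X.δ ρ') ρ a

/-- the values of the equations of the divisor -/
noncomputable def Y (i : Fin q) (j : Fin w) : MvPolynomial (Fin t) Δ.E := aeval X.y (X.Fd i j)

/-- the derivatives of the equations of the divisor -/
noncomputable def W (ρ : Fin (N + 1)) (i : Fin q) (j : Fin w) : MvPolynomial (Fin t) Δ.E :=
  Fin.cons (α := fun _ => MvPolynomial (Fin t) Δ.E)
    ((X.d i j : MvPolynomial (Fin t) Δ.E) * X.Y i j) (fun ρ' : Fin N => X.δ ρ' (X.Y i j)) ρ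

theorem inj : Function.Injective (aeval X.u : MvPolynomial (Fin t) Δ.E → UL 𝒰 L) := X.hU.2

theorem ne {f : MvPolynomial (Fin t) Δ.E} (hf : f ≠ 0) : aeval X.u f ≠ 0 := by
  intro h
  exact hf (X.inj (by rw [map_zero]; exact h))

theorem val_Y (i : Fin q) (j : Fin w) : aeval X.x (X.Fd i j) = aeval X.u (X.Y i j) :=
  aeval_comp Δ.E X.u X.y (X.Fd i j)

theorem G_zero (l : Fin g) : aeval X.y (X.G l) = 0 := by
  apply X.inj
  rw [map_zero, ← aeval_comp]
  exact X.onX l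

theorem core (hABS : S_ABS) (A : Subalgebra F (UL 𝒰 L)) {c : Fin (N + 1 + s)} (hc : X.x c ≠ 0)
    (hx : ∀ a, X.x a / X.x c ∈ A) (Cm : Matrix (Fin (N + 1)) (Fin (N + 1)) (UL 𝒰 L))
    (P : Fin q → UL 𝒰 L)
    (hP : ∀ i j, ∃ ω ∈ A, aeval X.u (X.Y i j) / X.x c ^ X.d i j = P i * ω)
    (hR : ∀ ρ a, ∑ σ, Cm ρ σ * (X.V σ a / X.x c) ∈ A)
    (hW : ∀ ρ i j, ∃ ω ∈ A, ∑ σ, Cm ρ σ * (aeval X.u (X.W σ i j) / X.x c ^ X.d i j) = P i * ω)
    (J : Fin (N + 1) → Fin (N + 1 + s)) (hJ : Function.Injective J) :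
    ∃ ω ∈ A, Cm.det * ((Matrix.of fun ρ b => X.V ρ (J b)).det / X.x c ^ (N + 1)) =
      (∏ i, P i) * ω := by
  have hsum : ∀ (f : MvPolynomial (Fin (N + 1 + s)) F) (e : ℕ), f.IsHomogeneous e → ∀ ρ,
      ∑ a, (∑ σ, Cm ρ σ * (X.V σ a / X.x c)) * aeval (fun a => X.x a / X.x c) (pderiv a f) =
        ∑ σ, Cm ρ σ * (aeval X.u (Fin.cons (α := fun _ => MvPolynomial (Fin t) Δ.E)
          ((e : MvPolynomial (Fin t) Δ.E) * aeval X.y f)
          (fun ρ' : Fin N => X.δ ρ' (aeval X.y f)) σ) / X.x c ^ e) := by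
    intro f e hf ρ
    have h1 := fun σ => row_grad Δ.E X.u X.y X.δ hf (X.x c) σ
    simp only [← h1]
    simp only [Finset.sum_mul, Finset.mul_sum]
    rw [Finset.sum_comm]
    refine Finset.sum_congr rfl fun σ _ => Finset.sum_congr rfl fun a _ => ?_
    unfold V x
    ring
  obtain ⟨ω, hω, h1⟩ := hABS A N s g q w X.G X.Fd X.hNC (fun a => X.x a / X.x c) hx
    ⟨c, div_self hc⟩ (by
      intro l
      rw [aeval_div (X.hG l)]
      have : aeval X.x (X.G l) = 0 := X.onX l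
      rw [this, zero_div]) P (by
      intro i j
      rw [aeval_div (X.hF i j), X.val_Y]
      exact hP i j) (fun ρ a => ∑ σ, Cm ρ σ * (X.V σ a / X.x c)) hR (by
      intro ρ l
      rw [hsum _ _ (X.hG l), X.G_zero l]
      refine Finset.sum_eq_zero fun σ _ => ?_
      have h2 : (Fin.cons (α := fun _ => MvPolynomial (Fin t) Δ.E)
          ((X.eG l : MvPolynomial (Fin t) Δ.E) * 0)
          (fun ρ' : Fin N => X.δ ρ' 0) σ : MvPolynomial (Fin t) Δ.E) = 0 := by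
        refine Fin.cases ?_ (fun ρ' => ?_) σ
        · rw [Fin.cons_zero, mul_zero]
        · rw [Fin.cons_succ, map_zero]
      rw [h2, map_zero, zero_div, mul_zero]) (by
      intro ρ i j
      rw [hsum _ _ (X.hF i j)]
      exact hW ρ i j) J hJ
  refine ⟨ω, hω, ?_⟩
  rw [← h1]
  have h2 : (Matrix.of fun ρ b => ∑ σ, Cm ρ σ * (X.V σ (J b) / X.x c)) =
      Cm * ((X.x c)⁻¹ • (Matrix.of fun ρ b => X.V ρ (J b))) := by
    ext ρ b
    rw [Matrix.mul_apply, Matrix.of_apply]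
    refine Finset.sum_congr rfl fun σ _ => ?_
    rw [Matrix.smul_apply, Matrix.of_apply, smul_eq_mul]
    ring
  rw [h2, Matrix.det_mul, Matrix.det_smul, Fintype.card_fin, inv_pow]
  ring

end Cx

end Pool.Agent.Y731.FG
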