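import Pool.Agent.Y731.FG.Loc3

/-!
# Local inequalities: the three cases
-/

set_option autoImplicit false
set_option linter.unusedSectionVars false
set_option linter.unusedVariables false

namespace Pool.Agent.Y731.FG

open FF Filter MvPolynomial Pool.Agent.W603.LV Pool.Agent.W603.PV Pool.Agent.W603.CZ
open scoped Classical

variable {I : Type} {𝒰 : Ultrafilter I} {k F : Type} [Field k] [IsAlgClosed k] [CharZero k]
  [Field F] {L : I → Type} [∀ i, Field (L i)] [∀ i, Algebra k (L i)] [∀ i, Algebra F (L i)]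
  [∀ i, IsFF k (L i)]

namespace Cx

variable {Δ : Dt 𝒰 k F L} {t N s g q w : ℕ} (X : Cx Δ t N s g q w)

theorem V_zero (a : Fin (N + 1 + s)) : X.V 0 a = aeval X.u (X.y a) := rfl

theorem V_succ (ρ : Fin N) (a : Fin (N + 1 + s)) :
    X.V ρ.succ a = aeval X.u (X.δ ρ (X.y a)) := rfl

theorem W_zero (i : Fin q) (j : Fin w) :
    X.W 0 i j = (X.d i j : MvPolynomial (Fin t) Δ.E) * X.Y i j := rfl

theorem W_succ (ρ : Fin N) (i : Fin q) (j : Fin w) : X.W ρ.succ i j = X.δ ρ (X.Y i j) := rfl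

/-- the minor of the tangent vectors -/
noncomputable def tau (J : Fin (N + 1) → Fin (N + 1 + s)) : UL 𝒰 L :=
  (Matrix.of fun ρ b => X.V ρ (J b)).det

theorem one_sum {n : ℕ} (f : Fin n → UL 𝒰 L) (ρ : Fin n) :
    ∑ σ, (1 : Matrix (Fin n) (Fin n) (UL 𝒰 L)) ρ σ * f σ = f ρ := by
  simp [Matrix.one_apply]

theorem natCast_mem (A : Subalgebra F (UL 𝒰 L)) (n : ℕ) : (n : UL 𝒰 L) ∈ A :=
  A.natCast_mem n

/-- the places where some `u j` is not a unit -/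
theorem caseT (hLOW : S_LOW Δ) (hC : S_C Δ) (hABS : S_ABS)
    {c : Fin (N + 1 + s)} (hc : X.x c ≠ 0) {jj : Fin q → Fin w}
    (hjj : ∀ i, aeval X.u (X.Y i (jj i)) ≠ 0) {Q : Set (Om k L)}
    (hQ : ∀ ω ∈ Q, ω ∈ Tu X.u) (hQc : ∀ ω ∈ Q, ∀ a, X.x a ≠ 0 → oo (X.x c) ω ≤ oo (X.x a) ω)
    (hQj : ∀ ω ∈ Q, ∀ i j, aeval X.u (X.Y i j) ≠ 0 →
      oo (aeval X.u (X.Y i (jj i))) ω - X.d i (jj i) * oo (X.x c) ω ≤
        oo (aeval X.u (X.Y i j)) ω - X.d i j * oo (X.x c) ω)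
    (J : Fin (N + 1) → Fin (N + 1 + s)) (hJ : Function.Injective J) (hτ : X.tau J ≠ 0) :
    ∃ e, Ng 𝒰 Δ.χ (Hu k X.u) e ∧ ∀ᶠ ω in EV 𝒰 k L, ω ∈ Q →
      ∑ i, (oo (aeval X.u (X.Y i (jj i))) ω - X.d i (jj i) * oo (X.x c) ω) +
        (N + 1) * oo (X.x c) ω - e ω ≤ oo (X.tau J) ω := by
  have hH : ∀ᶠ i in (𝒰 : Filter I), 0 ≤ Hu k X.u i := Eventually.of_forall fun i => Hu_nonneg _ i
  set A := Δ.A (Hu k X.u) hH Q with hA
  have h0 : Ng 𝒰 Δ.χ (Hu k X.u) (fun _ : Om k L => 0) := Ng.zero Δ.nonneg hH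
  have hx : ∀ a, X.x a / X.x c ∈ A := by
    intro a
    refine Δ.div_mem hH hc h0 (Eventually.of_forall fun ω hω => ?_)
    by_cases ha : X.x a = 0
    · exact Or.inl ha
    · right
      have := hQc ω hω a ha
      linarith
  set P : Fin q → UL 𝒰 L := fun i => aeval X.u (X.Y i (jj i)) / X.x c ^ X.d i (jj i) with hPdef
  have hP0 : ∀ i, P i ≠ 0 := fun i => div_ne_zero (hjj i) (pow_ne_zero _ hc)
  have hoP : ∀ᶠ ω in EV 𝒰 k L, ∀ i j, aeval X.u (X.Y i j) ≠ 0 →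
      oo (aeval X.u (X.Y i j) / X.x c ^ X.d i j) ω =
        oo (aeval X.u (X.Y i j)) ω - X.d i j * oo (X.x c) ω := by
    refine eventually_all.2 fun i => eventually_all.2 fun j => ?_
    by_cases h : aeval X.u (X.Y i j) = 0
    · exact Eventually.of_forall fun ω h' => absurd h h'
    · filter_upwards [oo_div h (pow_ne_zero (X.d i j) hc), oo_pow (k := k) (X.x c) (X.d i j)]
        with ω h1 h2 _
      rw [h1, h2]
  have hP : ∀ i j, ∃ ω ∈ A, aeval X.u (X.Y i j) / X.x c ^ X.d i j = P i * ω := by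
    intro i j
    refine ⟨(aeval X.u (X.Y i j) / X.x c ^ X.d i j) / P i, ?_, (mul_div_cancel₀ _ (hP0 i)).symm⟩
    refine Δ.div_mem hH (hP0 i) h0 ?_
    filter_upwards [hoP] with ω h1 hω
    by_cases h : aeval X.u (X.Y i j) = 0
    · left
      rw [h, zero_div]
    · right
      rw [h1 i j h, sub_zero]
      have : oo (P i) ω = oo (aeval X.u (X.Y i (jj i))) ω - X.d i (jj i) * oo (X.x c) ω :=
        h1 i (jj i) (hjj i)
      rw [this]
      exact hQj ω hω i j h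
  have hdl : ∀ (ρ : Fin N) (f : MvPolynomial (Fin t) Δ.E) (v : UL 𝒰 L),
      ∃ ω ∈ A, aeval X.u (X.δ ρ f) / v = (aeval X.u f / v) * ω := by
    intro ρ f v
    by_cases hf : f = 0
    · refine ⟨0, zero_mem _, ?_⟩
      rw [hf, map_zero, map_zero, zero_div, mul_zero]
    · refine ⟨aeval X.u (X.δ ρ f) / aeval X.u f, ?_, ?_⟩
      · exact Δ.dlog_mem hH hLOW hC X.hU hQ (δ := ((X.δ ρ : Derivation F
          (MvPolynomial (Fin t) Δ.E) (MvPolynomial (Fin t) Δ.E)) :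
            MvPolynomial (Fin t) Δ.E →ₗ[F] MvPolynomial (Fin t) Δ.E).toAddMonoidHom) (X.hδ ρ) f
      · have := X.ne hf
        field_simp
  have h1 := X.core hABS A hc hx 1 P hP (by
    intro ρ a
    rw [one_sum (fun σ => X.V σ a / X.x c) ρ]
    refine Fin.cases ?_ (fun ρ' => ?_) ρ
    · exact hx a
    · obtain ⟨ω, hω, h2⟩ := hdl ρ' (X.y a) (X.x c)
      rw [X.V_succ, h2]
      exact A.mul_mem (hx a) hω) (by
    intro ρ i j
    rw [one_sum (fun σ => aeval X.u (X.W σ i j) / X.x c ^ X.d i j) ρ]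
    obtain ⟨ω, hω, h2⟩ := hP i j
    refine Fin.cases ?_ (fun ρ' => ?_) ρ
    · refine ⟨X.d i j * ω, A.mul_mem (natCast_mem A _) hω, ?_⟩
      rw [X.W_zero, map_mul, map_natCast, mul_div_assoc, h2]
      ring
    · obtain ⟨ω', hω', h3⟩ := hdl ρ' (X.Y i j) (X.x c ^ X.d i j)
      refine ⟨ω * ω', A.mul_mem hω hω', ?_⟩
      rw [X.W_succ, h3, h2]
      ring) J hJ
  rw [Matrix.det_one] at h1
  obtain ⟨e, he, h2⟩ := Δ.extract hH one_ne_zero hτ hc hP0 h1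
  refine ⟨e, he, ?_⟩
  filter_upwards [h2, hoP, oo_one (𝒰 := 𝒰) (k := k) (L := L)] with ω a1 a2 a3 hω
  have a4 := a1 hω
  have a5 : ∑ i, oo (P i) ω =
      ∑ i, (oo (aeval X.u (X.Y i (jj i))) ω - X.d i (jj i) * oo (X.x c) ω) :=
    Finset.sum_congr rfl fun i _ => a2 i (jj i) (hjj i)
  rw [a5, a3] at a4
  push_cast at a4
  linarith

/-- the places where all `u j` are units, without loss -/
theorem case0 (hLOW : S_LOW Δ) (hABS : S_ABS)
    {c : Fin (N + 1 + s)} (hc : X.x c ≠ 0) {Q : Set (Om k L)}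
    (hQ : ∀ ω ∈ Q, ω ∉ Tu X.u) {e1 : Om k L → ℤ} (he1 : Ng 𝒰 Δ.χ (Hu k X.u) e1)
    (hQe : ∀ᶠ ω in EV 𝒰 k L, ω ∈ Q → oo (X.x c) ω ≤ e1 ω)
    (J : Fin (N + 1) → Fin (N + 1 + s)) (hJ : Function.Injective J) (hτ : X.tau J ≠ 0) :
    ∃ e, Ng 𝒰 Δ.χ (Hu k X.u) e ∧ ∀ᶠ ω in EV 𝒰 k L, ω ∈ Q →
        (N + 1) * oo (X.x c) ω - e ω ≤ oo (X.tau J) ω := by
  have hH : ∀ᶠ i in (𝒰 : Filter I), 0 ≤ Hu k X.u i := Eventually.of_forall fun i => Hu_nonneg _ i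
  set A := Δ.A (Hu k X.u) hH Q with hA
  have hu0 : ∀ j, X.u j ≠ 0 := fun j => (X.hU.1 j).1
  have hpol : ∀ f : MvPolynomial (Fin t) Δ.E, aeval X.u f ∈ A := Δ.poly_mem hH hLOW hu0 hQ
  have hinv : (X.x c)⁻¹ ∈ A := Δ.inv_mem hH hc he1 hQe
  have hdiv : ∀ (f : MvPolynomial (Fin t) Δ.E) (n : ℕ), aeval X.u f / X.x c ^ n ∈ A := by
    intro f n
    rw [div_eq_mul_inv, ← inv_pow]
    exact A.mul_mem (hpol f) (A.pow_mem hinv n)
  have hdiv1 : ∀ (f : MvPolynomial (Fin t) Δ.E), aeval X.u f / X.x c ∈ A := by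
    intro f
    have := hdiv f 1
    rwa [pow_one] at this
  have h1 := X.core hABS A hc (fun a => hdiv1 (X.y a)) 1 (fun _ => 1)
    (fun i j => ⟨_, hdiv _ _, (one_mul _).symm⟩) (by
    intro ρ a
    rw [one_sum (fun σ => X.V σ a / X.x c) ρ]
    refine Fin.cases ?_ (fun ρ' => ?_) ρ
    · exact hdiv1 _
    · exact hdiv1 _) (by
    intro ρ i j
    rw [one_sum (fun σ => aeval X.u (X.W σ i j) / X.x c ^ X.d i j) ρ]
    exact ⟨_, hdiv _ _, (one_mul _).symm⟩) J hJ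
  rw [Matrix.det_one] at h1
  obtain ⟨e, he, h2⟩ := Δ.extract hH one_ne_zero hτ hc (fun _ => one_ne_zero) h1
  refine ⟨e, he, ?_⟩
  filter_upwards [h2, oo_one (𝒰 := 𝒰) (k := k) (L := L)] with ω a1 a3 hω
  have a4 := a1 hω
  rw [a3, Finset.sum_const_zero] at a4
  push_cast at a4
  linarith

end Cx

end Pool.Agent.Y731.FG
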