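import Pool.Agent.Y731.FG.Loc4

/-!
# Local inequalities: the zeros of an irreducible polynomial
-/

set_option autoImplicit false
set_option synthInstance.maxHeartbeats 400000
set_option maxHeartbeats 4000000
set_option linter.unusedSectionVars false
set_option linter.unusedVariables false

namespace Pool.Agent.Y731.FG

open FF Filter MvPolynomial Pool.Agent.W603.LV Pool.Agent.W603.PV Pool.Agent.W603.CZ
open scoped Classical

variable {I : Type} {𝒰 : Ultrafilter I} {k F : Type} [Field k] [IsAlgClosed k] [CharZero k]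
  [Field F] {L : I → Type} [∀ i, Field (L i)] [∀ i, Algebra k (L i)] [∀ i, Algebra F (L i)]
  [∀ i, IsFF k (L i)]

namespace Cx

variable {Δ : Dt 𝒰 k F L} {t N s g q w : ℕ} (X : Cx Δ t N s g q w)

theorem upd_sum {n : ℕ} (j0 : Fin n) (v f : Fin n → UL 𝒰 L) (ρ : Fin n) :
    ∑ σ, ((1 : Matrix (Fin n) (Fin n) (UL 𝒰 L)).updateCol j0 v) ρ σ * f σ =
      (if ρ = j0 then 0 else f ρ) + v ρ * f j0 := by
  rw [← Finset.add_sum_erase _ _ (Finset.mem_univ j0)]
  rw [Matrix.updateCol_self, add_comm]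
  congr 1
  have h1 : ∀ σ ∈ Finset.univ.erase j0,
      ((1 : Matrix (Fin n) (Fin n) (UL 𝒰 L)).updateCol j0 v) ρ σ * f σ =
        if σ = ρ then f ρ else 0 := by
    intro σ hσ
    rw [Matrix.updateCol_ne (Finset.ne_of_mem_erase hσ), Matrix.one_apply]
    by_cases h : ρ = σ
    · subst h
      simp
    · rw [if_neg h, if_neg (Ne.symm h), zero_mul]
  rw [Finset.sum_congr rfl h1, Finset.sum_ite_eq']
  by_cases h : ρ = j0
  · rw [if_pos h, if_neg (by simp [h])]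
  · rw [if_neg h, if_pos (by simp [h])]

theorem upd_det {n : ℕ} (j0 : Fin n) (v : Fin n → UL 𝒰 L) :
    ((1 : Matrix (Fin n) (Fin n) (UL 𝒰 L)).updateCol j0 v).det = v j0 := by
  rw [← Matrix.cramer_apply, Matrix.cramer_one]
  rfl

theorem caseP (hLOW : S_LOW Δ) (hABS : S_ABS)
    {c : Fin (N + 1 + s)} (hc : X.x c ≠ 0) {Q : Set (Om k L)}
    (hQ : ∀ ω ∈ Q, ω ∉ Tu X.u) {e1 : Om k L → ℤ} (he1 : Ng 𝒰 Δ.χ (Hu k X.u) e1)
    (hQe : ∀ᶠ ω in EV 𝒰 k L, ω ∈ Q → oo (X.x c) ω ≤ e1 ω)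
    {p : MvPolynomial (Fin t) Δ.E} (hp : p ≠ 0)
    (hQp : ∀ ω ∈ Q, 1 ≤ oo (aeval X.u p) ω)
    (hinvf : ∀ f : MvPolynomial (Fin t) Δ.E, ¬ p ∣ f →
      ∃ e, Ng 𝒰 Δ.χ (Hu k X.u) e ∧ ∀ᶠ ω in EV 𝒰 k L, ω ∈ Q → oo (aeval X.u f) ω ≤ e ω)
    {μ : Fin q → ℕ} {gg : Fin q → Fin w → MvPolynomial (Fin t) Δ.E}
    (hgg : ∀ i j, X.Y i j = p ^ μ i * gg i j)
    (J : Fin (N + 1) → Fin (N + 1 + s)) (hJ : Function.Injective J) (hτ : X.tau J ≠ 0) :
    ∃ e, Ng 𝒰 Δ.χ (Hu k X.u) e ∧ ∀ᶠ ω in EV 𝒰 k L, ω ∈ Q →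
        ∑ i, μ i * oo (aeval X.u p) ω + (N + 1) * oo (X.x c) ω - oo (aeval X.u p) ω - e ω ≤
          oo (X.tau J) ω := by
  have hH : ∀ᶠ i in (𝒰 : Filter I), 0 ≤ Hu k X.u i := Eventually.of_forall fun i => Hu_nonneg _ i
  set A := Δ.A (Hu k X.u) hH Q with hA
  have hu0 : ∀ j, X.u j ≠ 0 := fun j => (X.hU.1 j).1
  have hpol : ∀ f : MvPolynomial (Fin t) Δ.E, aeval X.u f ∈ A := Δ.poly_mem hH hLOW hu0 hQ
  have hinv : (X.x c)⁻¹ ∈ A := Δ.inv_mem hH hc he1 hQe
  have hcn : ∀ n : ℕ, (X.x c ^ n)⁻¹ ∈ A := by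
    intro n
    rw [← inv_pow]
    exact A.pow_mem hinv n
  have hdiv : ∀ (f : MvPolynomial (Fin t) Δ.E) (n : ℕ), aeval X.u f / X.x c ^ n ∈ A := by
    intro f n
    rw [div_eq_mul_inv]
    exact A.mul_mem (hpol f) (hcn n)
  have hdiv1 : ∀ (f : MvPolynomial (Fin t) Δ.E), aeval X.u f / X.x c ∈ A := by
    intro f
    have := hdiv f 1
    rwa [pow_one] at this
  set π : UL 𝒰 L := aeval X.u p with hπ
  have hπ0 : π ≠ 0 := X.ne hp
  have hP0 : ∀ i, π ^ μ i ≠ 0 := fun i => pow_ne_zero _ hπ0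
  have hP : ∀ i j, ∃ ω ∈ A, aeval X.u (X.Y i j) / X.x c ^ X.d i j = π ^ μ i * ω := by
    intro i j
    refine ⟨_, hdiv (gg i j) (X.d i j), ?_⟩
    rw [hgg, map_mul, map_pow, mul_div_assoc]
  have hoP : ∀ᶠ ω in EV 𝒰 k L, ∀ i, oo (π ^ μ i) ω = μ i * oo π ω :=
    eventually_all.2 fun i => oo_pow (k := k) π (μ i)
  by_cases hcase : ∀ ρ, p ∣ X.δ ρ p
  · -- the derivations are logarithmic along `p`
    choose h hh using hcase
    have h1 := X.core hABS A hc (fun a => hdiv1 (X.y a)) 1 (fun i => π ^ μ i) hP (by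
      intro ρ a
      rw [one_sum (fun σ => X.V σ a / X.x c) ρ]
      refine Fin.cases ?_ (fun ρ' => ?_) ρ
      · exact hdiv1 _
      · exact hdiv1 _) (by
      intro ρ i j
      rw [one_sum (fun σ => aeval X.u (X.W σ i j) / X.x c ^ X.d i j) ρ]
      refine Fin.cases ?_ (fun ρ' => ?_) ρ
      · obtain ⟨ω, hω, h2⟩ := hP i j
        refine ⟨X.d i j * ω, A.mul_mem (natCast_mem A _) hω, ?_⟩
        rw [X.W_zero, map_mul, map_natCast, mul_div_assoc, h2]
        ring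
      · refine ⟨_, hdiv ((μ i : MvPolynomial (Fin t) Δ.E) * gg i j * h ρ' + X.δ ρ' (gg i j))
          (X.d i j), ?_⟩
        rw [X.W_succ, hgg]
        have h3 : X.δ ρ' (p ^ μ i * gg i j) = p ^ μ i *
            ((μ i : MvPolynomial (Fin t) Δ.E) * gg i j * h ρ' + X.δ ρ' (gg i j)) := by
          rw [Derivation.leibniz, Derivation.leibniz_pow, hh ρ']
          simp only [smul_eq_mul, nsmul_eq_mul]
          rcases Nat.eq_zero_or_pos (μ i) with h0 | h0
          · rw [h0]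
            simp
          · obtain ⟨m, hm⟩ : ∃ m, μ i = m + 1 := ⟨μ i - 1, by omega⟩
            rw [hm, Nat.add_sub_cancel, pow_succ]
            ring
        rw [h3, map_mul, map_pow, mul_div_assoc]) J hJ
    rw [Matrix.det_one] at h1
    obtain ⟨e, he, h2⟩ := Δ.extract hH one_ne_zero hτ hc hP0 h1
    refine ⟨e, he, ?_⟩
    filter_upwards [h2, hoP, oo_one (𝒰 := 𝒰) (k := k) (L := L)] with ω a1 a2 a3 hω
    have a4 := a1 hω
    rw [a3, Finset.sum_congr rfl fun i _ => a2 i] at a4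
    push_cast at a4
    have a5 := hQp ω hω
    linarith
  · -- one direction is transversal
    push Not at hcase
    obtain ⟨ρ0, hρ0⟩ := hcase
    have hδ0 : X.δ ρ0 p ≠ 0 := fun h => hρ0 (h ▸ dvd_zero p)
    have hδ0' := X.ne hδ0
    obtain ⟨e2, he2, h2e⟩ := hinvf _ hρ0
    have hinv2 : (aeval X.u (X.δ ρ0 p))⁻¹ ∈ A := Δ.inv_mem hH hδ0' he2 h2e
    set v : Fin (N + 1) → UL 𝒰 L := Fin.cons (α := fun _ => UL 𝒰 L) 0
      (fun ρ' => if ρ' = ρ0 then π else -(aeval X.u (X.δ ρ' p) * (aeval X.u (X.δ ρ0 p))⁻¹)) with hv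
    have hv0 : v 0 = 0 := rfl
    have hv1 : v ρ0.succ = π := by
      simp only [hv, Fin.cons_succ, if_pos]
    have hv2 : ∀ ρ', ρ' ≠ ρ0 → v ρ'.succ =
        -(aeval X.u (X.δ ρ' p) * (aeval X.u (X.δ ρ0 p))⁻¹) := by
      intro ρ' h
      simp only [hv, Fin.cons_succ, if_neg h]
    have hvA : ∀ ρ, v ρ ∈ A := by
      intro ρ
      refine Fin.cases ?_ (fun ρ' => ?_) ρ
      · rw [hv0]
        exact zero_mem _
      · by_cases h : ρ' = ρ0
        · subst h
          rw [hv1]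
          exact hpol p
        · rw [hv2 _ h]
          exact A.neg_mem (A.mul_mem (hpol _) hinv2)
    have hVA : ∀ ρ a, X.V ρ a / X.x c ∈ A := by
      intro ρ a
      refine Fin.cases ?_ (fun ρ' => ?_) ρ
      · exact hdiv1 _
      · exact hdiv1 _
    have hder : ∀ ρ' i j, aeval X.u (X.δ ρ' (X.Y i j)) =
        (μ i : UL 𝒰 L) * π ^ (μ i - 1) * aeval X.u (gg i j) * aeval X.u (X.δ ρ' p) +
          π ^ μ i * aeval X.u (X.δ ρ' (gg i j)) := by
      intro ρ' i j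
      rw [hgg, Derivation.leibniz, Derivation.leibniz_pow]
      simp only [smul_eq_mul, nsmul_eq_mul, map_add, map_mul, map_pow, map_natCast, ← hπ]
      ring
    have h1 := X.core hABS A hc (fun a => hdiv1 (X.y a))
      ((1 : Matrix (Fin (N + 1)) (Fin (N + 1)) (UL 𝒰 L)).updateCol ρ0.succ v)
      (fun i => π ^ μ i) hP (by
      intro ρ a
      rw [upd_sum ρ0.succ v (fun σ => X.V σ a / X.x c) ρ]
      refine A.add_mem ?_ (A.mul_mem (hvA ρ) (hVA _ _))
      split_ifs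
      · exact zero_mem _
      · exact hVA _ _) (by
      intro ρ i j
      rw [upd_sum ρ0.succ v (fun σ => aeval X.u (X.W σ i j) / X.x c ^ X.d i j) ρ]
      refine Fin.cases ?_ (fun ρ' => ?_) ρ
      · obtain ⟨ω, hω, h2⟩ := hP i j
        refine ⟨X.d i j * ω, A.mul_mem (natCast_mem A _) hω, ?_⟩
        rw [hv0, zero_mul, add_zero, if_neg (Fin.succ_ne_zero ρ0).symm, X.W_zero, map_mul,
          map_natCast, mul_div_assoc, h2]
        ring
      · by_cases h : ρ' = ρ0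
        · subst h
          rw [if_pos rfl, zero_add, hv1, X.W_succ, hder]
          refine ⟨((μ i : UL 𝒰 L) * aeval X.u (gg i j) * aeval X.u (X.δ ρ' p) +
            π * aeval X.u (X.δ ρ' (gg i j))) * (X.x c ^ X.d i j)⁻¹, ?_, ?_⟩
          · exact A.mul_mem (A.add_mem (A.mul_mem (A.mul_mem (natCast_mem A _) (hpol _)) (hpol _))
              (A.mul_mem (hpol _) (hpol _))) (hcn _)
          · rcases Nat.eq_zero_or_pos (μ i) with h0 | h0
            · rw [h0]
              simp only [Nat.cast_zero, zero_mul, zero_add, pow_zero, one_mul]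
              ring
            · obtain ⟨m, hm⟩ : ∃ m, μ i = m + 1 := ⟨μ i - 1, by omega⟩
              rw [hm, Nat.add_sub_cancel, pow_succ]
              ring
        · rw [if_neg (fun h' => h (Fin.succ_injective _ h')), hv2 _ h, X.W_succ, X.W_succ, hder,
            hder]
          refine ⟨(aeval X.u (X.δ ρ' (gg i j)) -
            aeval X.u (X.δ ρ' p) * (aeval X.u (X.δ ρ0 p))⁻¹ * aeval X.u (X.δ ρ0 (gg i j))) *
              (X.x c ^ X.d i j)⁻¹, ?_, ?_⟩
          · exact A.mul_mem (A.sub_mem (hpol _) (A.mul_mem (A.mul_mem (hpol _) hinv2) (hpol _)))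
              (hcn _)
          · have h5 := pow_ne_zero (X.d i j) hc
            field_simp
            ring) J hJ
    rw [upd_det, hv1] at h1
    obtain ⟨e, he, h2⟩ := Δ.extract hH hπ0 hτ hc hP0 h1
    refine ⟨e, he, ?_⟩
    filter_upwards [h2, hoP] with ω a1 a2 hω
    have a4 := a1 hω
    rw [Finset.sum_congr rfl fun i _ => a2 i] at a4
    push_cast at a4
    linarith

end Cx

end Pool.Agent.Y731.FG
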