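import Pool.Agent.Y731.FG.Loc5

/-!
# Local inequalities: the classes of places
-/

set_option autoImplicit false
set_option linter.unusedSectionVars false
set_option linter.unusedVariables false
set_option synthInstance.maxHeartbeats 400000
set_option maxHeartbeats 4000000

namespace Pool.Agent.Y731.FG

open FF Filter MvPolynomial Pool.Agent.W603.LV Pool.Agent.W603.PV Pool.Agent.W603.CZ
open scoped Classical

variable {I : Type} {𝒰 : Ultrafilter I} {k F : Type} [Field k] [IsAlgClosed k] [CharZero k]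
  [Field F] {L : I → Type} [∀ i, Field (L i)] [∀ i, Algebra k (L i)] [∀ i, Algebra F (L i)]
  [∀ i, IsFF k (L i)]

theorem mo_le {M : ℕ} (x : Fin M → UL 𝒰 L) {c : Fin M} (hc : x c ≠ 0) (ω : Om k L) :
    mo x ω ≤ oo (x c) ω := by
  unfold mo
  exact ciInf_le (Finite.bddBelow_range _) (⟨c, hc⟩ : {c // x c ≠ 0})

theorem exists_mo {M : ℕ} (x : Fin M → UL 𝒰 L) (hx : ∃ c, x c ≠ 0) (ω : Om k L) :
    ∃ c, x c ≠ 0 ∧ oo (x c) ω = mo x ω := by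
  obtain ⟨c, hc⟩ := hx
  have : Nonempty {c // x c ≠ 0} := ⟨⟨c, hc⟩⟩
  obtain ⟨j, hj⟩ := exists_eq_ciInf_of_finite (f := fun j : {c // x c ≠ 0} => oo (x j.1) ω)
  exact ⟨j, j.2, hj⟩

theorem lam_le {M w : ℕ} (G : Fin w → MvPolynomial (Fin M) F) (d : Fin w → ℕ)
    (x : Fin M → UL 𝒰 L) {j : Fin w} (hj : aeval x (G j) ≠ 0) (ω : Om k L) :
    lam G d x ω ≤ oo (aeval x (G j)) ω - d j * mo x ω := by
  unfold lam
  exact ciInf_le (Finite.bddBelow_range _) (⟨j, hj⟩ : {j // aeval x (G j) ≠ 0})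

theorem exists_lam {M w : ℕ} (G : Fin w → MvPolynomial (Fin M) F) (d : Fin w → ℕ)
    (x : Fin M → UL 𝒰 L) (hx : ∃ j, aeval x (G j) ≠ 0) (ω : Om k L) :
    ∃ j, aeval x (G j) ≠ 0 ∧ oo (aeval x (G j)) ω - d j * mo x ω = lam G d x ω := by
  obtain ⟨c, hc⟩ := hx
  have : Nonempty {j // aeval x (G j) ≠ 0} := ⟨⟨c, hc⟩⟩
  obtain ⟨j, hj⟩ := exists_eq_ciInf_of_finite
    (f := fun j : {j // aeval x (G j) ≠ 0} => oo (aeval x (G j.1)) ω - d j.1 * mo x ω)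
  exact ⟨j, j.2, hj⟩

namespace Cx

variable {Δ : Dt 𝒰 k F L} {t N s g q w : ℕ} (X : Cx Δ t N s g q w)

/-- the local height -/
noncomputable def lm (i : Fin q) (ω : Om k L) : ℤ := lam (X.Fd i) (X.d i) X.x ω

/-- the truncation -/
noncomputable def tr (ω : Om k L) : ℤ := if ∃ i, 0 < X.lm i ω then 1 else 0

/-- the inequality at a place, with the error `e` -/
def Ineq (J : Fin (N + 1) → Fin (N + 1 + s)) (e : ℤ) (ω : Om k L) : Prop :=
  ∑ i, X.lm i ω + (N + 1) * mo X.x ω - X.tr ω - e ≤ oo (X.tau J) ω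

theorem Ineq.mono {J : Fin (N + 1) → Fin (N + 1 + s)} {e e' : ℤ} {ω : Om k L}
    (h : X.Ineq J e ω) (he : e ≤ e') : X.Ineq J e' ω := by
  unfold Ineq at *
  linarith

theorem tr_nonneg (ω : Om k L) : 0 ≤ X.tr ω := by
  unfold tr
  split_ifs <;> norm_num

theorem lm_le (i : Fin q) {j : Fin w} (hj : aeval X.u (X.Y i j) ≠ 0) (ω : Om k L) :
    X.lm i ω ≤ oo (aeval X.u (X.Y i j)) ω - X.d i j * mo X.x ω := by
  have := lam_le (X.Fd i) (X.d i) X.x (j := j) (by rw [X.val_Y]; exact hj) ω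
  rwa [X.val_Y] at this

theorem offD' (i : Fin q) : ∃ j, aeval X.u (X.Y i j) ≠ 0 := by
  obtain ⟨j, hj⟩ := X.offD i
  refine ⟨j, ?_⟩
  rw [← X.val_Y]
  exact hj

theorem exists_lm (i : Fin q) (ω : Om k L) :
    ∃ j, aeval X.u (X.Y i j) ≠ 0 ∧
      oo (aeval X.u (X.Y i j)) ω - X.d i j * mo X.x ω = X.lm i ω := by
  obtain ⟨j, hj, h⟩ := exists_lam (X.Fd i) (X.d i) X.x (by
    obtain ⟨j, hj⟩ := X.offD i
    exact ⟨j, hj⟩) ω
  rw [X.val_Y] at hj h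
  exact ⟨j, hj, h⟩

/-- the places where some `u j` is not a unit -/
theorem finT (hLOW : S_LOW Δ) (hC : S_C Δ) (hABS : S_ABS)
    {c : Fin (N + 1 + s)} (hc : X.x c ≠ 0) {jj : Fin q → Fin w}
    (hjj : ∀ i, aeval X.u (X.Y i (jj i)) ≠ 0)
    (J : Fin (N + 1) → Fin (N + 1 + s)) (hJ : Function.Injective J) (hτ : X.tau J ≠ 0) :
    ∃ e, Ng 𝒰 Δ.χ (Hu k X.u) e ∧ ∀ᶠ ω in EV 𝒰 k L, ω ∈ Tu X.u → oo (X.x c) ω = mo X.x ω →
      (∀ i, oo (aeval X.u (X.Y i (jj i))) ω - X.d i (jj i) * mo X.x ω = X.lm i ω) →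
        X.Ineq J (e ω) ω := by
  obtain ⟨e, he, h⟩ := X.caseT hLOW hC hABS hc hjj
    (Q := {ω | ω ∈ Tu X.u ∧ oo (X.x c) ω = mo X.x ω ∧
      ∀ i, oo (aeval X.u (X.Y i (jj i))) ω - X.d i (jj i) * mo X.x ω = X.lm i ω})
    (fun ω hω => hω.1) (fun ω hω a ha => by
      rw [hω.2.1]
      exact mo_le X.x ha ω) (fun ω hω i j hj => by
      rw [hω.2.1, hω.2.2 i]
      exact X.lm_le i hj ω) J hJ hτ
  refine ⟨e, he, ?_⟩
  filter_upwards [h] with ω h1 h2 h3 h4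
  have h5 := h1 ⟨h2, h3, h4⟩
  unfold Ineq
  have h6 := X.tr_nonneg ω
  have h7 : ∑ i, (oo (aeval X.u (X.Y i (jj i))) ω - X.d i (jj i) * oo (X.x c) ω) =
      ∑ i, X.lm i ω := by
    refine Finset.sum_congr rfl fun i _ => ?_
    rw [h3]
    exact h4 i
  rw [h7, h3] at h5
  linarith

/-- lower bounds off the places where some `u j` is not a unit -/
theorem lowb (hLOW : S_LOW Δ) (f : MvPolynomial (Fin t) Δ.E) :
    ∃ e, Ng 𝒰 Δ.χ (Hu k X.u) e ∧ (∀ ω, 0 ≤ e ω) ∧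
      ∀ᶠ ω in EV 𝒰 k L, ω ∉ Tu X.u → -e ω ≤ oo (aeval X.u f) ω := by
  have hH : ∀ᶠ i in (𝒰 : Filter I), 0 ≤ Hu k X.u i := Eventually.of_forall fun i => Hu_nonneg _ i
  obtain ⟨e, he, h1⟩ := Δ.poly_mem hH hLOW (fun j => (X.hU.1 j).1)
    (Q := {ω | ω ∉ Tu X.u}) (fun ω hω => hω) f
  refine ⟨_, he.pos, fun ω => le_max_right _ _, ?_⟩
  filter_upwards [h1, oo_zero (𝒰 := 𝒰) (k := k) (L := L)] with ω h2 h3 h4
  have h5 := le_max_left (e ω) 0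
  have h6 := le_max_right (e ω) 0
  rcases h2 h4 with h | h
  · rw [h, h3]
    linarith
  · linarith

/-- classes without loss -/
theorem fin0 (hLOW : S_LOW Δ) (hABS : S_ABS)
    {c : Fin (N + 1 + s)} (hc : X.x c ≠ 0) (R : Om k L → Prop)
    {e1 : Om k L → ℤ} (he1 : Ng 𝒰 Δ.χ (Hu k X.u) e1)
    (hQe : ∀ᶠ ω in EV 𝒰 k L, ω ∉ Tu X.u → oo (X.x c) ω = mo X.x ω → R ω → oo (X.x c) ω ≤ e1 ω)
    (jj : Fin q → Fin w) (hjj : ∀ i, aeval X.u (X.Y i (jj i)) ≠ 0)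
    {e2 : Fin q → Om k L → ℤ} (he2 : ∀ i, Ng 𝒰 Δ.χ (Hu k X.u) (e2 i))
    (hQe2 : ∀ i, ∀ᶠ ω in EV 𝒰 k L, ω ∉ Tu X.u → oo (X.x c) ω = mo X.x ω → R ω →
      oo (aeval X.u (X.Y i (jj i))) ω ≤ e2 i ω)
    (J : Fin (N + 1) → Fin (N + 1 + s)) (hJ : Function.Injective J) (hτ : X.tau J ≠ 0) :
    ∃ e, Ng 𝒰 Δ.χ (Hu k X.u) e ∧ ∀ᶠ ω in EV 𝒰 k L, ω ∉ Tu X.u → oo (X.x c) ω = mo X.x ω → R ω →
      X.Ineq J (e ω) ω := by
  have hH : ∀ᶠ i in (𝒰 : Filter I), 0 ≤ Hu k X.u i := Eventually.of_forall fun i => Hu_nonneg _ i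
  obtain ⟨e, he, h⟩ := X.case0 hLOW hABS hc
    (Q := {ω | ω ∉ Tu X.u ∧ oo (X.x c) ω = mo X.x ω ∧ R ω})
    (fun ω hω => hω.1) he1 (by
      filter_upwards [hQe] with ω h1 hω
      exact h1 hω.1 hω.2.1 hω.2.2) J hJ hτ
  obtain ⟨e3, he3, he3n, h3⟩ := X.lowb hLOW (X.y c)
  refine ⟨fun ω => e ω + (∑ i, (e2 i ω + X.d i (jj i) * e3 ω)),
    he.add (Ng.sum Δ.nonneg hH _ fun i _ => (he2 i).add (Ng.smul Δ.nonneg hH _ he3)), ?_⟩
  filter_upwards [h, h3, eventually_all.2 hQe2] with ω h4 h5 h6 h7 h8 h9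
  have h10 := h4 ⟨h7, h8, h9⟩
  have h11 := h5 h7
  unfold Ineq
  have h12 := X.tr_nonneg ω
  have h13 : ∑ i, X.lm i ω ≤ ∑ i, (e2 i ω + X.d i (jj i) * e3 ω) := by
    refine Finset.sum_le_sum fun i _ => ?_
    have h14 := X.lm_le i (hjj i) ω
    have h15 := h6 i h7 h8 h9
    have h16 : -e3 ω ≤ mo X.x ω := by rw [← h8]; exact h11
    have h17 : (0 : ℤ) ≤ X.d i (jj i) := by positivity
    have h18 := mul_le_mul_of_nonneg_left h16 h17
    linarith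
  rw [h8] at h10
  linarith

/-- classes with zeros of an irreducible polynomial -/
theorem finP (hLOW : S_LOW Δ) (hABS : S_ABS)
    {c : Fin (N + 1 + s)} (hc : X.x c ≠ 0)
    {p : MvPolynomial (Fin t) Δ.E} (hp : p ≠ 0)
    {e1 : Om k L → ℤ} (he1 : Ng 𝒰 Δ.χ (Hu k X.u) e1)
    (hQe : ∀ᶠ ω in EV 𝒰 k L, ω ∉ Tu X.u → oo (X.x c) ω = mo X.x ω → 1 ≤ oo (aeval X.u p) ω →
      oo (X.x c) ω ≤ e1 ω)
    {e4 : Om k L → ℤ} (he4 : Ng 𝒰 Δ.χ (Hu k X.u) e4)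
    (hQp : ∀ᶠ ω in EV 𝒰 k L, ω ∉ Tu X.u → oo (aeval X.u p) ω - 1 ≤ e4 ω)
    (hinvf : ∀ f : MvPolynomial (Fin t) Δ.E, ¬ p ∣ f →
      ∃ e, Ng 𝒰 Δ.χ (Hu k X.u) e ∧ ∀ᶠ ω in EV 𝒰 k L, ω ∉ Tu X.u → 1 ≤ oo (aeval X.u p) ω →
        oo (aeval X.u f) ω ≤ e ω)
    {μ : Fin q → ℕ} {gg : Fin q → Fin w → MvPolynomial (Fin t) Δ.E}
    (hgg : ∀ i j, X.Y i j = p ^ μ i * gg i j)
    (jj : Fin q → Fin w) (hjj : ∀ i, ¬ p ∣ gg i (jj i)) (i0 : Fin q) (hi0 : 1 ≤ μ i0)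
    (J : Fin (N + 1) → Fin (N + 1 + s)) (hJ : Function.Injective J) (hτ : X.tau J ≠ 0) :
    ∃ e, Ng 𝒰 Δ.χ (Hu k X.u) e ∧ ∀ᶠ ω in EV 𝒰 k L, ω ∉ Tu X.u → oo (X.x c) ω = mo X.x ω →
      1 ≤ oo (aeval X.u p) ω → X.Ineq J (e ω) ω := by
  have hH : ∀ᶠ i in (𝒰 : Filter I), 0 ≤ Hu k X.u i := Eventually.of_forall fun i => Hu_nonneg _ i
  obtain ⟨e, he, h⟩ := X.caseP hLOW hABS hc
    (Q := {ω | ω ∉ Tu X.u ∧ oo (X.x c) ω = mo X.x ω ∧ 1 ≤ oo (aeval X.u p) ω})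
    (fun ω hω => hω.1) he1 (by
      filter_upwards [hQe] with ω h1 hω
      exact h1 hω.1 hω.2.1 hω.2.2) hp (fun ω hω => hω.2.2) (by
      intro f hf
      obtain ⟨e, he, h1⟩ := hinvf f hf
      refine ⟨e, he, ?_⟩
      filter_upwards [h1] with ω h2 hω
      exact h2 hω.1 hω.2.2) hgg J hJ hτ
  obtain ⟨e3, he3, he3n, h3⟩ := X.lowb hLOW (X.y c)
  choose e2 he2 h2 using fun i => hinvf _ (hjj i)
  choose e5 he5 he5n h5 using fun (x : Fin q × Fin w) => X.lowb hLOW (gg x.1 x.2)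
  have hπ0 := X.ne hp
  have hYne : ∀ i j, aeval X.u (X.Y i j) ≠ 0 → gg i j ≠ 0 := by
    intro i j h0 h1
    apply h0
    rw [hgg, h1, mul_zero, map_zero]
  have hgn : ∀ i, gg i (jj i) ≠ 0 := fun i h0 => hjj i (h0 ▸ dvd_zero p)
  -- orders of the values
  have hoY : ∀ᶠ ω in EV 𝒰 k L, ∀ i j, gg i j ≠ 0 → oo (aeval X.u (X.Y i j)) ω =
      μ i * oo (aeval X.u p) ω + oo (aeval X.u (gg i j)) ω := by
    refine eventually_all.2 fun i => eventually_all.2 fun j => ?_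
    by_cases h0 : gg i j = 0
    · exact Eventually.of_forall fun ω h' => absurd h0 h'
    · filter_upwards [oo_mul (pow_ne_zero (μ i) hπ0) (X.ne h0), oo_pow (k := k) (aeval X.u p) (μ i)]
        with ω a1 a2 _
      rw [hgg, map_mul, map_pow, a1, a2]
  refine ⟨fun ω => e ω + (∑ i, (e2 i ω + X.d i (jj i) * e3 ω)) + max (e4 ω) 0 +
      ((∑ x : Fin q × Fin w, e5 x ω) + (∑ x : Fin q × Fin w, X.d x.1 x.2 * max (e1 ω) 0)), ?_, ?_⟩
  · refine ((he.add (Ng.sum Δ.nonneg hH _ fun i _ =>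
      (he2 i).add (Ng.smul Δ.nonneg hH _ he3))).add he4.pos).add ?_
    exact (Ng.sum Δ.nonneg hH _ fun x _ => he5 x).add
      (Ng.sum Δ.nonneg hH _ fun x _ => Ng.smul Δ.nonneg hH _ he1.pos)
  filter_upwards [h, h3, eventually_all.2 h2, eventually_all.2 h5, hoY, hQp, hQe] with ω h4 h5 h6 h6'
    h6'' h6''' hQe' h7 h8 h9
  have h10 := h4 ⟨h7, h8, h9⟩
  have h11 := h5 h7
  have h11' := hQe' h7 h8 h9
  set π := oo (aeval X.u p) ω with hπ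
  have h13 : ∑ i, X.lm i ω ≤ ∑ i, μ i * π + ∑ i, (e2 i ω + X.d i (jj i) * e3 ω) := by
    rw [← Finset.sum_add_distrib]
    refine Finset.sum_le_sum fun i _ => ?_
    have h14 := X.lm_le i (j := jj i) (X.ne (by
      rw [hgg]
      exact mul_ne_zero (pow_ne_zero _ hp) (hgn i))) ω
    rw [h6'' i (jj i) (hgn i)] at h14
    have h15 := h6 i h7 h9
    have h16 : -e3 ω ≤ mo X.x ω := by rw [← h8]; exact h11
    have h17 : (0 : ℤ) ≤ X.d i (jj i) := by positivity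
    have h18 := mul_le_mul_of_nonneg_left h16 h17
    linarith
  have h19 := h6''' h7
  have h20 := le_max_left (e4 ω) 0
  have h21 := le_max_left (e1 ω) 0
  have h21' := le_max_right (e1 ω) 0
  have h22 : ∀ x : Fin q × Fin w, 0 ≤ e5 x ω := fun x => he5n x ω
  have h23 : ∀ x : Fin q × Fin w, (0 : ℤ) ≤ X.d x.1 x.2 * max (e1 ω) 0 :=
    fun x => mul_nonneg (by positivity) h21'
  -- the truncation
  have h24 : 1 ≤ X.tr ω + ((∑ x : Fin q × Fin w, e5 x ω) +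
      (∑ x : Fin q × Fin w, X.d x.1 x.2 * max (e1 ω) 0)) := by
    have h25 := Finset.sum_nonneg fun (x : Fin q × Fin w) (_ : x ∈ Finset.univ) => h22 x
    have h26 := Finset.sum_nonneg fun (x : Fin q × Fin w) (_ : x ∈ Finset.univ) => h23 x
    by_cases htr : ∃ i, 0 < X.lm i ω
    · have : X.tr ω = 1 := by
        unfold tr
        rw [if_pos htr]
      rw [this]
      linarith
    · have h27 : X.tr ω = 0 := by
        unfold tr
        rw [if_neg htr]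
      push Not at htr
      obtain ⟨j, hj, h28⟩ := X.exists_lm i0 ω
      have h29 := hYne i0 j hj
      rw [h6'' i0 j h29] at h28
      have h30 := h6' (i0, j) h7
      have h31 := htr i0
      have h32 := Finset.single_le_sum (f := fun x : Fin q × Fin w => e5 x ω) (fun x _ => h22 x)
        (Finset.mem_univ (i0, j))
      have h33 := Finset.single_le_sum (f := fun x : Fin q × Fin w =>
        (X.d x.1 x.2 : ℤ) * max (e1 ω) 0) (fun x _ => h23 x) (Finset.mem_univ (i0, j))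
      have h34 : (1 : ℤ) ≤ μ i0 * π := by
        have : (1 : ℤ) ≤ μ i0 := by exact_mod_cast hi0
        nlinarith
      have h35 : (X.d i0 j : ℤ) * mo X.x ω ≤ X.d i0 j * max (e1 ω) 0 := by
        refine mul_le_mul_of_nonneg_left ?_ (by positivity)
        rw [← h8]
        exact h11'.trans h21
      rw [h27]
      simp only at h30 h32 h33
      linarith
  unfold Ineq
  rw [h8] at h10
  linarith

end Cx

end Pool.Agent.Y731.FG
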