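import Pool.Agent.Y731.FG.Base

/-!
# Truncated Vojta inequality over function fields: the statements of the parts
-/

set_option autoImplicit false
set_option linter.unusedSectionVars false
set_option linter.unusedVariables false

namespace Pool.Agent.Y731.FG

open FF Filter MvPolynomial Pool.Agent.W603.LV Pool.Agent.W603.PV Pool.Agent.W603.CZ
open scoped Classical

section stm

variable {I : Type} {𝒰 : Ultrafilter I} {k F : Type} [Field k] [IsAlgClosed k] [CharZero k]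
  [Field F] {L : I → Type} [∀ i, Field (L i)] [∀ i, Algebra k (L i)] [∀ i, Algebra F (L i)]
  [∀ i, IsFF k (L i)]

/-- lower bounds of the order of a value of a polynomial -/
def S_LOW (Δ : Dt 𝒰 k F L) : Prop :=
  ∀ (t : ℕ) (u : Fin t → UL 𝒰 L), (∀ j, u j ≠ 0) → ∀ f : MvPolynomial (Fin t) Δ.E,
    ∃ e, Bd 𝒰 Δ.χ e ∧ ∀ᶠ ω in EV 𝒰 k L, ∀ m : ℤ, (∀ s ∈ f.support, m ≤ oo (mon u s) ω) →
      (aeval u f = 0 ∨ m - e ω ≤ oo (aeval u f) ω)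

/-- logarithmic derivatives -/
def S_LD (Δ : Dt 𝒰 k F L) : Prop :=
  (∀ a ∈ Δ.E, uD Δ.D a ∈ Δ.E) ∧ (∀ x, LU Δ x → uD Δ.D x / x ∈ Δ.E)

/-- the derivation on polynomials -/
def S_HD (Δ : Dt 𝒰 k F L) : Prop :=
  ∀ (t : ℕ) (u : Fin t → UL 𝒰 L), (∀ j, LU Δ (u j)) →
    ∃ δ : Derivation ℤ (MvPolynomial (Fin t) Δ.E) (MvPolynomial (Fin t) Δ.E), IsSd δ ∧
      ∀ f, aeval u (δ f) = uD Δ.D (aeval u f)

/-- Wronskians in the ultraproduct -/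
def S_WR (Δ : Dt 𝒰 k F L) : Prop :=
  (∀ (n : ℕ) (f : Fin n → UL 𝒰 L), LinearIndependent (K0 𝒰 k L) f → wr (uD Δ.D) f ≠ 0) ∧
  (∀ (n : ℕ) (f g : Fin n → UL 𝒰 L), LinearIndependent (K0 𝒰 k L) f →
    LinearIndependent (K0 𝒰 k L) g →
    Submodule.span (K0 𝒰 k L) (Set.range f) = Submodule.span (K0 𝒰 k L) (Set.range g) →
    ∀ᶠ ω in EV 𝒰 k L, oo (wr (uD Δ.D) f) ω = oo (wr (uD Δ.D) g) ω) ∧
  (∀ (n : ℕ) (f : Fin n → UL 𝒰 L), ∃ e, Bd 𝒰 Δ.χ e ∧ ∀ᶠ ω in EV 𝒰 k L, ∀ m : ℤ,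
    (∀ j, f j = 0 ∨ m ≤ oo (f j) ω) →
      (wr (uD Δ.D) f = 0 ∨ n * m - e ω ≤ oo (wr (uD Δ.D) f) ω))

/-- Wronskians of values of polynomials at units -/
def S_LE (Δ : Dt 𝒰 k F L) : Prop :=
  ∀ (t : ℕ) (u : Fin t → UL 𝒰 L), (∀ j, LU Δ (u j)) → ∀ (n : ℕ)
    (g : Fin n → MvPolynomial (Fin t) Δ.E), ∃ e, Bd 𝒰 Δ.χ e ∧ ∀ᶠ ω in EV 𝒰 k L,
      ∀ b : Fin n → ℤ, (∀ j, ∀ s ∈ (g j).support, b j ≤ oo (mon u s) ω) →
        (wr (uD Δ.D) (fun j => aeval u (g j)) = 0 ∨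
          ∑ j, b j - e ω ≤ oo (wr (uD Δ.D) (fun j => aeval u (g j))) ω)

/-- no cancellation at the places where some `u j` is not a unit -/
def S_C (Δ : Dt 𝒰 k F L) : Prop :=
  ∀ (t : ℕ) (u : Fin t → UL 𝒰 L), Δ.IsU u → ∀ f : MvPolynomial (Fin t) Δ.E, f ≠ 0 →
    ∃ e, Bd 𝒰 Δ.χ e ∧ ∀ᶠ ω in EV 𝒰 k L, ω ∈ Tu u → ∀ s ∈ f.support,
      oo (aeval u f) ω ≤ oo (mon u s) ω + e ω

/-- a sequence of polynomial growth -/
def S_GR : Prop :=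
  ∀ (β : ℕ → ℕ) (s : ℕ), 1 ≤ β 0 → (∀ r, β r ≤ (r + 1) ^ s) → ∀ η : ℝ, 0 < η →
    ∃ r, (β (r + 1) : ℝ) ≤ (1 + η) * β r

/-- the theorem on greatest common divisors, with moving coefficients -/
def S_G (Δ : Dt 𝒰 k F L) : Prop :=
  ∀ (t : ℕ) (u : Fin t → UL 𝒰 L), Δ.IsU u → ∀ P Q : MvPolynomial (Fin t) Δ.E, P ≠ 0 → Q ≠ 0 →
    IsRelPrime P Q → Ng 𝒰 Δ.χ (Hu k u)
      (fun ω : Om k L => if ω ∈ Tu u then 0 else min (oo (aeval u P) ω) (oo (aeval u Q) ω))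

/-- multiple zeros of an irreducible polynomial, and zeros of other polynomials at its zeros -/
def S_B (Δ : Dt 𝒰 k F L) : Prop :=
  ∀ (t : ℕ) (u : Fin t → UL 𝒰 L), Δ.IsU u → ∀ p : MvPolynomial (Fin t) Δ.E, Irreducible p →
    Ng 𝒰 Δ.χ (Hu k u) (fun ω : Om k L => if ω ∈ Tu u then 0 else oo (aeval u p) ω - 1) ∧
    ∀ f : MvPolynomial (Fin t) Δ.E, f ≠ 0 → ¬ p ∣ f → Ng 𝒰 Δ.χ (Hu k u)
      (fun ω : Om k L => if ω ∈ Tu u ∨ oo (aeval u p) ω < 1 then 0 else oo (aeval u f) ω)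

/-- the zeros of a polynomial are zeros of its irreducible factors -/
def S_P0 (Δ : Dt 𝒰 k F L) : Prop :=
  ∀ (t : ℕ) (u : Fin t → UL 𝒰 L), Δ.IsU u → ∀ f : MvPolynomial (Fin t) Δ.E, f ≠ 0 →
    ∃ Ps : Finset (MvPolynomial (Fin t) Δ.E), (∀ p ∈ Ps, Irreducible p ∧ p ∣ f) ∧
      ∃ e, Bd 𝒰 Δ.χ e ∧ ∀ᶠ ω in EV 𝒰 k L, ω ∉ Tu u → (∀ p ∈ Ps, oo (aeval u p) ω < 1) →
        oo (aeval u f) ω ≤ e ω

/-- common zeros of coprime polynomials -/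
def S_CP (Δ : Dt 𝒰 k F L) : Prop :=
  ∀ (t : ℕ) (u : Fin t → UL 𝒰 L), Δ.IsU u → ∀ (M : ℕ) (y : Fin M → MvPolynomial (Fin t) Δ.E),
    (∃ c, y c ≠ 0) → (∀ p, Irreducible p → ∃ c, ¬ p ∣ y c) →
    Ng 𝒰 Δ.χ (Hu k u) (fun ω : Om k L => if ω ∈ Tu u then 0 else mo (fun c => aeval u (y c)) ω)

/-- bases of groups of units -/
def S_MB (Δ : Dt 𝒰 k F L) : Prop :=
  ∀ (r : ℕ) (z : Fin r → UL 𝒰 L), (∀ l, LU Δ (z l)) →
    ∃ (t : ℕ) (u : Fin t → UL 𝒰 L), Δ.IsU u ∧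
      ∀ l, ∃ a ∈ Δ.E, a ≠ 0 ∧ ∃ n : Fin t → ℤ, z l = a * ∏ j, u j ^ n j

/-- the differences of the exponents of the polynomials `y c` span all exponents, up to finite
index -/
def Spn {E : Type} [Field E] {t M : ℕ} (y : Fin M → MvPolynomial (Fin t) E) : Prop :=
  ∀ j : Fin t, ∃ n : ℕ, 0 < n ∧ (Pi.single j (n : ℤ) : Fin t → ℤ) ∈
    AddSubgroup.closure {v : Fin t → ℤ | ∃ c c' s s', s ∈ (y c).support ∧ s' ∈ (y c').support ∧
      v = fun l => (s l : ℤ) - s' l}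

/-- representation of points with sparse coordinates by coprime polynomials in units -/
def S_RP (Δ : Dt 𝒰 k F L) : Prop :=
  ∀ (M m : ℕ) (x : Fin M → UL 𝒰 L) (w : Fin M → Fin m → UL 𝒰 L), (∀ c, x c = ∑ j, w c j) →
    (∃ c, x c ≠ 0) →
    (∀ c j c' j', w c j ≠ 0 → w c' j' ≠ 0 → LU Δ (w c j / w c' j')) →
    ∃ (t : ℕ) (u : Fin t → UL 𝒰 L) (y : Fin M → MvPolynomial (Fin t) Δ.E) (lm : UL 𝒰 L),
      Δ.IsU u ∧ lm ≠ 0 ∧ (∀ c, x c = lm * aeval u (y c)) ∧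
      (∀ p, Irreducible p → ∃ c, ¬ p ∣ y c) ∧ Spn y

/-- the heights of the units are bounded by the height of the point -/
def S_HT (Δ : Dt 𝒰 k F L) : Prop :=
  ∀ (t : ℕ) (u : Fin t → UL 𝒰 L), Δ.IsU u → ∀ (M : ℕ) (y : Fin M → MvPolynomial (Fin t) Δ.E),
    (∃ c, y c ≠ 0) → (∀ p, Irreducible p → ∃ c, ¬ p ∣ y c) → Spn y →
    ∃ c : ℕ, ∀ᶠ i in (𝒰 : Filter I),
      Hu k u i ≤ c * (hp k (fun c => aeval u (y c)) i + Δ.χ i)

end stm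

/-- existence of sufficiently many special derivations -/
def S_SD : Prop :=
  ∀ {F K : Type} [Field F] [CharZero F] [Field K] [Algebra F K] (E : IntermediateField F K)
    (t : ℕ) (u : Fin t → K), AlgebraicIndependent E u → ∀ (N M : ℕ)
    (y : Fin M → MvPolynomial (Fin t) E) (c : Fin (N + 1) → Fin M), aeval u (y (c 0)) ≠ 0 →
    AlgebraicIndependent F (fun ρ : Fin N => aeval u (y (c ρ.succ)) / aeval u (y (c 0))) →
    ∃ δ : Fin N → Derivation F (MvPolynomial (Fin t) E) (MvPolynomial (Fin t) E),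
      (∀ ρ, IsSd (δ ρ)) ∧
      LinearIndependent K (fun (ρ : Fin (N + 1)) (a : Fin M) => tauM u y (fun ρ' => δ ρ') ρ a)

/-- at the nonzero points of the cone over `X` there are `s` equations of `X` and one equation of
each component of the divisor through the point with independent gradients -/
def SNCF {F : Type} [Field F] {n g q w : ℕ} (G : Fin g → MvPolynomial (Fin n) F)
    (Fd : Fin q → Fin w → MvPolynomial (Fin n) F) (s : ℕ) : Prop :=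
  ∀ z : Fin n → AlgebraicClosure F, z ≠ 0 → (∀ j, aeval z (G j) = 0) →
    ∃ (T : Fin s → Fin g) (J : Fin q → Fin w), LinearIndependent (AlgebraicClosure F)
      (Sum.elim (fun (j : Fin s) (c : Fin n) => aeval z (pderiv c (G (T j))))
        (fun (i : {i : Fin q // ∀ j, aeval z (Fd i j) = 0}) (c : Fin n) =>
          aeval z (pderiv c (Fd i.1 (J i.1)))))

/-- the linear algebra of a normal crossings divisor, over a ring `A` of integral elements -/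
def S_ABS : Prop :=
  ∀ {F K : Type} [Field F] [Field K] [Algebra F K] (A : Subalgebra F K) (N s g q w : ℕ)
    (G : Fin g → MvPolynomial (Fin (N + 1 + s)) F)
    (Fd : Fin q → Fin w → MvPolynomial (Fin (N + 1 + s)) F), SNCF G Fd s →
    ∀ (x : Fin (N + 1 + s) → K), (∀ a, x a ∈ A) → (∃ c, x c = 1) → (∀ k, aeval x (G k) = 0) →
    ∀ P : Fin q → K, (∀ i j, ∃ ω ∈ A, aeval x (Fd i j) = P i * ω) →
    ∀ R : Fin (N + 1) → Fin (N + 1 + s) → K, (∀ ρ a, R ρ a ∈ A) →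
    (∀ ρ k, ∑ a, R ρ a * aeval x (pderiv a (G k)) = 0) →
    (∀ ρ i j, ∃ ω ∈ A, ∑ a, R ρ a * aeval x (pderiv a (Fd i j)) = P i * ω) →
    ∀ J : Fin (N + 1) → Fin (N + 1 + s), Function.Injective J →
      ∃ ω ∈ A, (Matrix.of fun ρ b => R ρ (J b)).det = (∏ i, P i) * ω

section loc

variable {I : Type} {𝒰 : Ultrafilter I} {k F : Type} [Field k] [IsAlgClosed k] [CharZero k]
  [Field F] {L : I → Type} [∀ i, Field (L i)] [∀ i, Algebra k (L i)] [∀ i, Algebra F (L i)]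
  [∀ i, IsFF k (L i)]

/-- the inequality at all places -/
def S_LOC (Δ : Dt 𝒰 k F L) : Prop :=
  ∀ (t : ℕ) (u : Fin t → UL 𝒰 L), Δ.IsU u → ∀ (N s g q w : ℕ)
    (G : Fin g → MvPolynomial (Fin (N + 1 + s)) F) (eG : Fin g → ℕ)
    (Fd : Fin q → Fin w → MvPolynomial (Fin (N + 1 + s)) F) (d : Fin q → Fin w → ℕ),
    (∀ k, (G k).IsHomogeneous (eG k)) → (∀ i j, (Fd i j).IsHomogeneous (d i j)) →
    SNCF G Fd s → ∀ y : Fin (N + 1 + s) → MvPolynomial (Fin t) Δ.E, (∃ c, y c ≠ 0) →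
    (∀ p, Irreducible p → ∃ c, ¬ p ∣ y c) →
    (∀ k, aeval (fun c => aeval u (y c)) (G k) = 0) →
    (∀ i, ∃ j, aeval (fun c => aeval u (y c)) (Fd i j) ≠ 0) →
    ∀ δ : Fin N → Derivation F (MvPolynomial (Fin t) Δ.E) (MvPolynomial (Fin t) Δ.E),
    (∀ ρ, IsSd (δ ρ)) →
    ∃ e, Ng 𝒰 Δ.χ (Hu k u) e ∧ ∀ᶠ ω in EV 𝒰 k L, ∀ J : Fin (N + 1) → Fin (N + 1 + s),
      Function.Injective J →
      (Matrix.of fun ρ b => tauM u y (fun ρ' => δ ρ') ρ (J b)).det ≠ 0 →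
      ∑ i, lam (Fd i) (d i) (fun c => aeval u (y c)) ω +
        (N + 1) * mo (fun c => aeval u (y c)) ω -
        (if ∃ i, 0 < lam (Fd i) (d i) (fun c => aeval u (y c)) ω then 1 else 0) - e ω ≤
        oo (Matrix.of fun ρ b => tauM u y (fun ρ' => δ ρ') ρ (J b)).det ω

end loc

/-- the data for a family of finite extensions -/
def S_DT : Prop :=
  ∀ {I : Type} {𝒰 : Ultrafilter I} {k F : Type} [Field k] [IsAlgClosed k] [CharZero k]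
    [Field F] [Algebra k F] [IsFF k F] {L : I → Type} [∀ i, Field (L i)] [∀ i, Algebra k (L i)]
    [∀ i, Algebra F (L i)] [∀ i, IsScalarTower k F (L i)] [∀ i, FiniteDimensional F (L i)]
    [∀ i, IsFF k (L i)] (χ : I → ℤ),
    (∀ i, (Module.finrank F (L i) : ℤ) + disc k F (L i) ≤ χ i) →
    ∃ Δ : Dt 𝒰 k F L, Δ.χ = χ

end Pool.Agent.Y731.FG
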